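import Pool.Agent.Lib.SmNH.I.Claim0
import Pool.Agent.Lib.SmNH.H.ZeroQ

/-!
# SmNH, block I5: the q-data at the last vertex (port of `Lib/SmH/I/ClaimQ.lean`)

The families `comb (fun l => lst l T) n w` of combinations of the completed rigid families are rigid
Selmer families of level `k` with (*), constant at the bad places. By the zero sum theorem for the
height form (3.1, `zero_q`) the value at the last vertex is the common value.
-/

set_option autoImplicit false

open Finset

namespace Pool.Agent.SmNH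

open Pool.Agent.SmN

section lemmas

variable {G V V1 Pl M : Type*} [Group G] [AddCommGroup V] [DistribMulAction G V]
  [AddCommGroup V1] [Module (ZMod 2) V1] [AddCommGroup M] [DistribMulAction G M]
variable {S : Sys G V V1 Pl} {I : Type*} [DecidableEq I]

omit [Group G] [DistribMulAction G V] in
theorem star_level {W : Finset I} {j k : ℕ} (hjk : j ≤ k) {Psi : Finset I → G → V}
    (h : Star W j Psi) : Star W k Psi :=
  fun U P hU hP hUP a ha s => h U P hU hP hUP a (by omega) s

omit [Group G] [DistribMulAction G V] in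
theorem star_zsmul {W : Finset I} {j : ℕ} {Psi : Finset I → G → V} (h : Star W j Psi) (n : ℤ) :
    Star W j (fun T => n • Psi T) := by
  intro U P hU hP hUP a ha s
  have h1 := alt_map (zsmulAddGroupHom n : V →+ V) U (fun T => (2 : ℕ) ^ a • Psi T s) P
  rw [h U P hU hP hUP a ha s, map_zero] at h1
  rw [← h1]
  congr 1
  funext T
  change (2 : ℕ) ^ a • (n • Psi T s) = n • ((2 : ℕ) ^ a • Psi T s)
  exact smul_comm _ _ _

omit [Group G] [DistribMulAction G V] in
theorem star_sum {W : Finset I} {j : ℕ} {κ : Type*} (t : Finset κ)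
    {Psi : κ → Finset I → G → V} (h : ∀ l ∈ t, Star W j (Psi l)) :
    Star W j (fun T => ∑ l ∈ t, Psi l T) := by
  intro U P hU hP hUP a ha s
  have h1 := alt_finsetSum t U (fun l T => (2 : ℕ) ^ a • Psi l T s) P
  rw [sum_eq_zero fun l hl => h l hl U P hU hP hUP a ha s] at h1
  rw [← h1]
  congr 1
  funext T
  beta_reduce
  rw [Finset.sum_apply, smul_sum]

/-- Rigid Selmer elements from pure local elements. -/
theorem isPr_loc (hS : S.Ok) {chi : G → ZMod 2} {w : Pl → V} (hw : IsLoc S chi w) (k : ℕ) :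
    IsPr S chi k ((0, w) : (G → V) × (Pl → V)) where
  sel := Sys.IsSel.zero hS chi k
  loc := fun v hv s hs => (hw.2 v hv s hs).symm
  off := hw.1

theorem isPr_sum (hS : S.Ok) {chi : G → ZMod 2} {k : ℕ} {κ : Type*} (t : Finset κ)
    {y : κ → (G → V) × (Pl → V)} (h : ∀ l ∈ t, IsPr S chi k (y l)) :
    IsPr S chi k (∑ l ∈ t, y l) := by
  classical
  induction t using Finset.induction_on with
  | empty =>
    rw [sum_empty]
    exact IsPr.zero hS chi k
  | insert a t ha ih =>
    rw [sum_insert ha]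
    exact (h a (mem_insert_self a t)).add hS (ih fun l hl => h l (mem_insert_of_mem hl))

theorem isPr_comb (hS : S.Ok) {chi : G → ZMod 2} {k r : ℕ} {jl : Fin (r + 1) → ℕ}
    (hjl : ∀ l, jl l ≤ k) {y : Fin (r + 1) → (G → V) × (Pl → V)}
    (hy : ∀ l, IsPr S chi (jl l) (y l)) (n : Fin (r + 1) → ℤ) {w : Pl → V}
    (hw : IsLoc S chi w) : IsPr S chi k (comb y n w) := by
  unfold comb
  exact (isPr_sum hS univ fun l _ => ((hy l).mono (hjl l)).zsmul hS (n l)).add hS
    (isPr_loc hS hw k)

/-- `alt` over a nonempty set vanishes and all the values but the last are equal: the last value is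
the same. -/
theorem last_of_alt [Fintype I] [Nonempty I] {A : Type*} [AddCommGroup A] {f : Finset I → A} {c : A}
    (h : alt univ f ∅ = 0) (hc : ∀ T, T ≠ univ → f T = c) : f univ = c := by
  have hne : (univ : Finset I).Nonempty := univ_nonempty
  have h1 : alt univ (fun T => f T - c) ∅ = 0 := by
    rw [alt_sub, h, alt_const hne, sub_zero]
  unfold alt at h1
  rw [sum_eq_single_of_mem (univ : Finset I) (mem_powerset.2 (Subset.refl _)) (by
    intro T _ hT
    beta_reduce
    rw [empty_union, hc T hT, sub_self, smul_zero])] at h1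
  beta_reduce at h1
  rw [empty_union] at h1
  rcases neg_one_pow_eq_or ℤ (univ : Finset I).card with h2 | h2
  · rw [h2, one_smul] at h1
    exact sub_eq_zero.1 h1
  · rw [h2, neg_smul, one_smul, neg_eq_zero] at h1
    exact sub_eq_zero.1 h1

end lemmas

namespace IC

open Pool.Agent.SmN.IT Pool.Agent.SmA

variable {G V V1 Pl M : Type*} [Group G] [AddCommGroup V] [DistribMulAction G V]
  [AddCommGroup V1] [Module (ZMod 2) V1] [AddCommGroup M] [DistribMulAction G M]
variable {S : Sys G V V1 Pl} {H : HData V M Pl}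
variable {ι : Type*} [Fintype ι] [DecidableEq ι] {X : ι → Type*} {r k kk : ℕ} {Γ : Grid S X}
  {τ : TwH G V V1 Pl M ι r} {x0 x : ∀ i, X i}

/-- The twists of the cube agree at the bad places. -/
theorem good_chi_bad (hΓ : Γ.Ok) (x0 x : ∀ i, X i) {v : Pl} (hv : v ∉ S.good) {s : G}
    (hs : s ∈ S.D v) (T : Finset ι) : chiC (Γ.chi x0) (Γ.del x0 x) T s = Γ.chi x0 s := by
  have hdel : ∀ i, Γ.del x0 x i s = 0 := fun i => Grid.del_bad hΓ x0 x i (by
    by_contra hc
    exact hv (hΓ.bad_good v hc)) s hs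
  unfold chiC
  rw [sum_eq_zero fun i _ => hdel i, add_zero]

/-- A pure local element at one vertex is a pure local element at all of them. -/
theorem good_isLoc (hΓ : Γ.Ok) (x0 x : ∀ i, X i) {w : Pl → V} {T : Finset ι}
    (hw : IsLoc S (chiC (Γ.chi x0) (Γ.del x0 x) T) w) (T' : Finset ι) :
    IsLoc S (chiC (Γ.chi x0) (Γ.del x0 x) T') w := by
  refine ⟨hw.1, fun v hv s hs => ?_⟩
  rw [dl_congr ((good_chi_bad hΓ x0 x hv hs T').trans (good_chi_bad hΓ x0 x hv hs T).symm)]
  exact hw.2 v hv s hs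

/-- The family of the combinations: (*) at level `k`. -/
theorem comb_star (hS : S.Ok) (hΓ : Γ.Ok) (hτ : τ.Ok Γ k) (hk : 1 ≤ k)
    (hI : Fintype.card ι = k + 2) (h : τ.GoodH H Γ k kk x0 x) (n : Fin (r + 1) → ℤ)
    (w : Pl → V) : Star univ k (fun T => (comb (fun l => lst τ H Γ k kk x0 x l T) n w).1) := by
  have h1 : (fun T => (comb (fun l => lst τ H Γ k kk x0 x l T) n w).1) =
      fun T => ∑ l, n l • (lst τ H Γ k kk x0 x l T).1 := by
    funext T
    unfold comb
    rw [Prod.fst_add, Prod.fst_sum]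
    change (∑ l, n l • (lst τ H Γ k kk x0 x l T).1) + 0 = _
    rw [add_zero]
  rw [h1]
  exact star_sum univ fun l _ => star_level (hτ.jl_le l)
    (star_zsmul (good_star hS hΓ hτ hk hI h l) (n l))

/-- The q-data at the last vertex. -/
theorem good_qdat
    (hS : S.Ok) (hH : HOk S H) (hΓ : Γ.Ok) (hτ : τ.Ok Γ k) (hk : 1 ≤ k)
    (hI : Fintype.card ι = k + 2) (h : τ.GoodH H Γ k kk x0 x) (n : Fin (r + 1) → ℤ)
    {w : Pl → V} (hw : IsLoc S (Γ.chi x) w) :
    q S H (Γ.chi x) k (comb (fun l => lst τ H Γ k kk x0 x l univ) n w) = τ.qd n w := by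
  have hchi : chiC (Γ.chi x0) (Γ.del x0 x) univ = Γ.chi x := by
    rw [← Grid.chi_mix, Grid.mix_univ]
  have hwT : ∀ T, IsLoc S (chiC (Γ.chi x0) (Γ.del x0 x) T) w :=
    good_isLoc hΓ x0 x (T := univ) (by rwa [hchi])
  have hne : Nonempty ι := by
    rw [← Fintype.card_pos_iff, hI]
    omega
  have hpr : ∀ P, IsPr S (chiC (Γ.chi x0) (Γ.del x0 x) P) k
      (comb (fun l => lst τ H Γ k kk x0 x l P) n w) := fun P =>
    isPr_comb hS hτ.jl_le (fun l => good_pr hS hΓ hτ hk hI h l P) n (hwT P)
  have hq : ∀ P, q (S.conj (Γ.cg x0 x)) (H.conj (Γ.cg x0 x)) (chiC (Γ.chi x0) (Γ.del x0 x) P) k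
      (comb (fun l => lst τ H Γ k kk x0 x l P) n w) =
      q S H (chiC (Γ.chi x0) (Γ.del x0 x) P) k (comb (fun l => lst τ H Γ k kk x0 x l P) n w) :=
    fun P => conj_q (cg_bad hΓ x0 x) hS hH (chiC_homG hS hΓ x0 x P) (hpr P)
  have h1 := zero_q (hS.conj (Γ.cg x0 x)) (hH.conj hS (Γ.cg x0 x))
    (good_cubeOk hS hΓ (by omega) h) hk (by omega)
    (y := fun T => comb (fun l => lst τ H Γ k kk x0 x l T) n w)
    (fun P => (conj_pr hS hΓ x0 x P _ _).2 (hpr P))
    (comb_star hS hΓ hτ hk hI h n w) (fun v _ P P' => by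
      change (comb _ n w).2 v = (comb _ n w).2 v
      unfold comb
      rw [Prod.snd_add, Prod.snd_add, Prod.snd_sum, Prod.snd_sum]
      rfl)
  have h2 := last_of_alt h1 (c := τ.qd n w) (fun T hT => by
    beta_reduce
    rw [hq]
    have h3 : (fun l => lst τ H Γ k kk x0 x l T) = τ.yy H Γ k kk (mix T x0 x) := by
      funext l
      exact lst_of_ne h l hT
    rw [h3, ← Grid.chi_mix]
    exact (yy_spec (good_vertex h hT).1).qdat n w (by rw [Grid.chi_mix]; exact hwT T))
  beta_reduce at h2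
  rwa [hq, hchi] at h2

end IC

end Pool.Agent.SmNH
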