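import Pool.Agent.Lib.SmNH.I.Blk
import Pool.Agent.Lib.SmNH.I.ClaimQ
import Pool.Agent.Lib.SmNH.G.Pr

/-!
# HEIGHTS over SMITH-U, block I: the number of classes of `TypEqH` in a big block (`FewTyp`)

The rigid elements of level `j` at a point `x` of the block are numbered by a fixed finite set; the
label of `x` is the structure transported to this set, with the direction symbols. The codes and the
local elements are numbered at a base point with the same direction symbols.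
-/

set_option autoImplicit false

open Finset

namespace Pool.Agent.SmNH

open Pool.Agent.SmN Pool.Agent.SmN.IT Pool.Agent.SmN.CData Pool.Agent.SmN.FrN

section abs

/-- An injection of a finite set to a fixed finite set. -/
private theorem Few17N_inj {Y : Type} (s : Set Y) (N : ℕ) (hf : s.Finite) (hN : Nat.card s ≤ N) :
    ∃ e : Y → Fin (N + 1), Set.InjOn e s := by
  classical
  have := hf.to_subtype
  let g := Finite.equivFin s
  refine ⟨fun y => if h : y ∈ s then ⟨(g ⟨y, h⟩).1, by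
    have := (g ⟨y, h⟩).2
    omega⟩ else 0, fun y hy y' hy' hyy => ?_⟩
  simp only [dif_pos hy, dif_pos hy', Fin.mk.injEq] at hyy
  have h1 := g.injective (Fin.ext hyy)
  exact congrArg Subtype.val h1

variable {G V V1 Pl : Type} [Group G] [AddCommGroup V] [DistribMulAction G V]
  [AddCommGroup V1] [Module (ZMod 2) V1] {S : Sys G V V1 Pl}

/-- `V[2^n]` is finite. -/
private theorem Few17N_fin_V (hS : S.Ok) (n : ℕ) : {z : V | (2 : ℕ) ^ n • z = 0}.Finite := by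
  have := hS.fin1
  have h2 : {z : V | (2 : ℕ) • z = 0}.Finite := by
    refine (Set.finite_range S.iota).subset fun z hz => ?_
    obtain ⟨w, hw⟩ := hS.iota_range z hz
    exact ⟨w, hw⟩
  induction n with
  | zero =>
    refine (Set.finite_singleton (0 : V)).subset fun z hz => ?_
    have h1 : (2 : ℕ) ^ 0 • z = 0 := hz
    rwa [pow_zero, one_smul] at h1
  | succ n ih =>
    refine Set.Finite.of_finite_fibers (fun z => (2 : ℕ) • z) (ih.subset ?_) ?_
    · rintro _ ⟨z, hz, rfl⟩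
      change (2 : ℕ) ^ n • ((2 : ℕ) • z) = 0
      rw [smul_smul, ← pow_succ]
      exact hz
    · rintro _ ⟨z0, -, rfl⟩
      refine (h2.image (fun z => z + z0)).subset ?_
      rintro z ⟨-, hz⟩
      refine ⟨z - z0, ?_, sub_add_cancel _ _⟩
      change (2 : ℕ) • (z - z0) = 0
      rw [smul_sub, sub_eq_zero]
      exact hz

end abs

variable {G V V1 Pl M : Type} [Group G] [AddCommGroup V] [DistribMulAction G V]
  [AddCommGroup V1] [Module (ZMod 2) V1] [AddCommGroup M] [DistribMulAction G M]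
  {S : Sys G V V1 Pl} {X : PSys} {cd : CData S X} {H : HData V M Pl}

/-- The labels. -/
private abbrev Few17N_Lab (A B N s : ℕ) (VV : Type) (MM : Type) : Type :=
  Set (Fin A) × Set (Fin A × Fin A × Fin A) × Set (Fin B × Fin A) × Set (VV × Fin A) ×
    Set (Fin N × Fin A) × Set (Fin B × Fin s × Fin A) × Set (Fin s × Fin A) × Set (MM × Fin A)

/-- The label of the vector `p'`. -/
private def Few17N_lab (cd : CData S X) (H : HData V M Pl) {J : Type} [Fintype J]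
    (p p' : J → cd.Mk) (j jp : ℕ) {A N s : ℕ} {e0 : ℕ}
    (e : (G → V) × (Pl → V) → Fin A) (ep : (G → V) × (Pl → V) → Fin N)
    (sg : cd.CodeN J → Fin s) :
    Few17N_Lab A (j + 1) N s {z : V // (2 : ℕ) ^ j • z = 0} {m : M // (2 : ℕ) ^ e0 • m = 0} :=
  ({u | ∃ y, IsPr S (cd.chiN p') j y ∧ u = e y},
   {u | ∃ a b, IsPr S (cd.chiN p') j a ∧ IsPr S (cd.chiN p') j b ∧ u = (e a, e b, e (a + b))},
   {u | ∃ y, IsPr S (cd.chiN p') u.1.1 y ∧ u.2 = e y},
   {u | u.2 = e (tor S (cd.chiN p') u.1.1)},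
   {u | ∃ w : Pl → V, IsLoc S (cd.chiN p') w ∧ u = (ep (0, w), e (0, w))},
   {u | ∃ y a, a ∈ cd.SelpN p ∧ AbvH cd p' u.1.1 a y ∧ u.2 = (sg a, e y)},
   {u | ∃ y b, IsPr S (cd.chiN p') jp y ∧ b ∈ cd.SelpN p ∧
      CTr S (cd.chiN p') y (cd.homN p' b) = 0 ∧ u = (sg b, e y)},
   {u | ∃ y, IsPr S (cd.chiN p') j y ∧ q S H (cd.chiN p') j y = u.1.1 ∧ u.2 = e y})

/-- The code of an element of positive level is a Selmer code. -/
private theorem Few17N_top (hS : S.Ok) {J : Type} [Fintype J] {p : J → cd.Mk} {i : ℕ}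
    (hi : 1 ≤ i) {a : cd.CodeN J} {y : (G → V) × (Pl → V)} (h : AbvH cd p i a y) :
    a ∈ cd.SelpN p := by
  refine fn_sub_selpN p ⟨h.val, ?_⟩
  obtain ⟨b, rfl⟩ : ∃ b, i = b + 1 := ⟨i - 1, by omega⟩
  have h1 := (h.1.nsmul hS (2 ^ b)).sel
  have h2 : ((2 ^ b : ℕ) • y).1 = fun s => S.iota (cd.homN p a s) := by
    funext s
    have := h.2 s
    rw [Nat.add_sub_cancel] at this
    exact this
  rw [h2] at h1
  exact Sys.isSel1_of hS (h1.of_lev fun s => by rw [pow_one]; exact Sys.two_iota S _)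

/-- Points with the same label are related. -/
private theorem Few17N_key (hS : S.Ok) (hH : HOk S H) (hc : cd.Ok) {j jp : ℕ} (hjp : jp ≤ j)
    {t0 : ℕ} (ht0 : ∀ chi, S.HomG chi → ∀ v, v ∉ S.good → ∀ Q : V,
      (∀ s ∈ S.D v, dl chi Q s = 0) → (2 : ℕ) ^ t0 • Q = 0)
    {J : Type} [Fintype J] {p p' p'' : J → cd.Mk} {A N s : ℕ}
    {e' e'' : (G → V) × (Pl → V) → Fin A} {ep : (G → V) × (Pl → V) → Fin N}
    {sg : cd.CodeN J → Fin s}
    (hinj : Set.InjOn e' {y | IsPr S (cd.chiN p') j y})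
    (hinj' : Set.InjOn e'' {y | IsPr S (cd.chiN p'') j y})
    (hinjp : Set.InjOn ep {y | IsPr S (cd.chiN p) j y})
    (hsg : Set.InjOn sg (cd.SelpN p))
    (hs' : cd.SelpN p' = cd.SelpN p) (hs'' : cd.SelpN p'' = cd.SelpN p)
    (hl1 : ∀ w : Pl → V, IsLoc S (cd.chiN p') w → IsLoc S (cd.chiN p) w)
    (hl2 : ∀ w : Pl → V, IsLoc S (cd.chiN p') w → IsLoc S (cd.chiN p'') w)
    (hl3 : ∀ w : Pl → V, IsLoc S (cd.chiN p'') w → IsLoc S (cd.chiN p) w)
    (hL : Few17N_lab cd H p p' j jp (e0 := 2 * (j + t0)) e' ep sg =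
      Few17N_lab cd H p p'' j jp (e0 := 2 * (j + t0)) e'' ep sg) :
    ∃ Th, IsoH cd H j jp p' p'' Th := by
  have hchi' := CData.chiN_hom hS hc p'
  have hchi'' := CData.chiN_hom hS hc p''
  -- the components of the label
  have L0 : ∀ u, (∃ y, IsPr S (cd.chiN p') j y ∧ u = e' y) ↔
      ∃ y, IsPr S (cd.chiN p'') j y ∧ u = e'' y :=
    fun u => Set.ext_iff.mp (congrArg (fun x : Few17N_Lab A (j + 1) N s
      {z : V // (2 : ℕ) ^ j • z = 0} {m : M // (2 : ℕ) ^ (2 * (j + t0)) • m = 0} => x.1) hL) u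
  have L1 : ∀ u, (∃ a b, IsPr S (cd.chiN p') j a ∧ IsPr S (cd.chiN p') j b ∧
        u = (e' a, e' b, e' (a + b))) ↔
      ∃ a b, IsPr S (cd.chiN p'') j a ∧ IsPr S (cd.chiN p'') j b ∧
        u = (e'' a, e'' b, e'' (a + b)) :=
    fun u => Set.ext_iff.mp (congrArg (fun x : Few17N_Lab A (j + 1) N s
      {z : V // (2 : ℕ) ^ j • z = 0} {m : M // (2 : ℕ) ^ (2 * (j + t0)) • m = 0} => x.2.1) hL) u
  have L2 : ∀ (i : Fin (j + 1)) u, (∃ y, IsPr S (cd.chiN p') i.1 y ∧ u = e' y) ↔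
      ∃ y, IsPr S (cd.chiN p'') i.1 y ∧ u = e'' y :=
    fun i u => Set.ext_iff.mp (congrArg (fun x : Few17N_Lab A (j + 1) N s
      {z : V // (2 : ℕ) ^ j • z = 0} {m : M // (2 : ℕ) ^ (2 * (j + t0)) • m = 0} => x.2.2.1) hL)
      (i, u)
  have L3 : ∀ (z : {z : V // (2 : ℕ) ^ j • z = 0}) u,
      u = e' (tor S (cd.chiN p') z.1) ↔ u = e'' (tor S (cd.chiN p'') z.1) :=
    fun z u => Set.ext_iff.mp (congrArg (fun x : Few17N_Lab A (j + 1) N s
      {z : V // (2 : ℕ) ^ j • z = 0} {m : M // (2 : ℕ) ^ (2 * (j + t0)) • m = 0} => x.2.2.2.1) hL)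
      (z, u)
  have L4 : ∀ u, (∃ w : Pl → V, IsLoc S (cd.chiN p') w ∧ u = (ep (0, w), e' (0, w))) ↔
      ∃ w : Pl → V, IsLoc S (cd.chiN p'') w ∧ u = (ep (0, w), e'' (0, w)) :=
    fun u => Set.ext_iff.mp (congrArg (fun x : Few17N_Lab A (j + 1) N s
      {z : V // (2 : ℕ) ^ j • z = 0} {m : M // (2 : ℕ) ^ (2 * (j + t0)) • m = 0} =>
        x.2.2.2.2.1) hL) u
  have L5 : ∀ (i : Fin (j + 1)) u, (∃ y a, a ∈ cd.SelpN p ∧ AbvH cd p' i.1 a y ∧
        u = (sg a, e' y)) ↔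
      ∃ y a, a ∈ cd.SelpN p ∧ AbvH cd p'' i.1 a y ∧ u = (sg a, e'' y) :=
    fun i u => Set.ext_iff.mp (congrArg (fun x : Few17N_Lab A (j + 1) N s
      {z : V // (2 : ℕ) ^ j • z = 0} {m : M // (2 : ℕ) ^ (2 * (j + t0)) • m = 0} =>
        x.2.2.2.2.2.1) hL) (i, u)
  have L6 : ∀ u, (∃ y b, IsPr S (cd.chiN p') jp y ∧ b ∈ cd.SelpN p ∧
        CTr S (cd.chiN p') y (cd.homN p' b) = 0 ∧ u = (sg b, e' y)) ↔
      ∃ y b, IsPr S (cd.chiN p'') jp y ∧ b ∈ cd.SelpN p ∧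
        CTr S (cd.chiN p'') y (cd.homN p'' b) = 0 ∧ u = (sg b, e'' y) :=
    fun u => Set.ext_iff.mp (congrArg (fun x : Few17N_Lab A (j + 1) N s
      {z : V // (2 : ℕ) ^ j • z = 0} {m : M // (2 : ℕ) ^ (2 * (j + t0)) • m = 0} =>
        x.2.2.2.2.2.2.1) hL) u
  have L7 : ∀ (m : {m : M // (2 : ℕ) ^ (2 * (j + t0)) • m = 0}) u,
      (∃ y, IsPr S (cd.chiN p') j y ∧ q S H (cd.chiN p') j y = m.1 ∧ u = e' y) ↔
      ∃ y, IsPr S (cd.chiN p'') j y ∧ q S H (cd.chiN p'') j y = m.1 ∧ u = e'' y :=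
    fun m u => Set.ext_iff.mp (congrArg (fun x : Few17N_Lab A (j + 1) N s
      {z : V // (2 : ℕ) ^ j • z = 0} {m : M // (2 : ℕ) ^ (2 * (j + t0)) • m = 0} =>
        x.2.2.2.2.2.2.2) hL) (m, u)
  refine ⟨fun y y' => IsPr S (cd.chiN p') j y ∧ IsPr S (cd.chiN p'') j y' ∧
    e' y = e'' y', ?_, fun y hy => ?_, fun y hy => ?_, ?_, fun z hz => ?_,
    fun y hy h0 => ?_, ?_, ?_, ?_⟩
  · rintro y y' ⟨hy, hy', hyy⟩ i hi
    have h1 := L2 ⟨i, by omega⟩ (e' y)
    constructor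
    · intro h2
      obtain ⟨u, hu, hu2⟩ := h1.1 ⟨y, h2, rfl⟩
      rw [hyy] at hu2
      rw [hinj' hy' (hu.mono hi) hu2]
      exact hu
    · intro h2
      obtain ⟨u, hu, hu2⟩ := h1.2 ⟨y', h2, hyy⟩
      rw [hinj hy (hu.mono hi) hu2]
      exact hu
  · obtain ⟨u, hu, hu2⟩ := (L0 (e' y)).1 ⟨y, hy, rfl⟩
    exact ⟨u, hy, hu, hu2⟩
  · obtain ⟨u, hu, hu2⟩ := (L0 (e'' y)).2 ⟨y, hy, rfl⟩
    exact ⟨u, hu, hy, hu2.symm⟩
  · rintro y1 y1' y2 y2' ⟨h1, h1', e1⟩ ⟨h2, h2', e2⟩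
    obtain ⟨a, b, ha, hb, hab⟩ := (L1 (e' y1, e' y2, e' (y1 + y2))).1
      ⟨y1, y2, h1, h2, rfl⟩
    simp only [Prod.mk.injEq] at hab
    obtain ⟨e3, e4, e5⟩ := hab
    have e6 : y1' = a := hinj' h1' ha (e1.symm.trans e3)
    have e7 : y2' = b := hinj' h2' hb (e2.symm.trans e4)
    refine ⟨h1.add hS h2, h1'.add hS h2', ?_⟩
    rw [e5, e6, e7]
  · exact ⟨isPr_tor hS hchi' hz, isPr_tor hS hchi'' hz, (L3 ⟨z, hz⟩ _).1 rfl⟩
  · have hw : IsLoc S (cd.chiN p') y.2 := by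
      refine ⟨hy.off, fun v hv s hs' => ?_⟩
      rw [← hy.loc v hv s hs', h0, Pi.zero_apply]
    have hy0 : y = (0, y.2) := Prod.ext h0 rfl
    have hwp := hl1 _ hw
    have hw'' := hl2 _ hw
    obtain ⟨w, hw1, hw2⟩ := (L4 (ep (0, y.2), e' (0, y.2))).1 ⟨y.2, hw, rfl⟩
    simp only [Prod.mk.injEq] at hw2
    obtain ⟨e1, e2⟩ := hw2
    have hwp' := hl3 _ hw1
    have e3 := hinjp (isPr_loc hS hwp j) (isPr_loc hS hwp' j) e1
    rw [hy0]
    refine ⟨isPr_loc hS hw j, isPr_loc hS hw'' j, ?_⟩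
    change e' (0, y.2) = e'' (0, y.2)
    rw [e2, ← e3]
  · rintro y y' ⟨hy, hy', hyy⟩ i hi hij a
    have h1 := L5 ⟨i, by omega⟩ (sg a, e' y)
    constructor
    · intro h2
      have ha : a ∈ cd.SelpN p := by
        rw [← hs']
        exact Few17N_top hS hi h2
      obtain ⟨u, b, hb, hu, hu2⟩ := h1.1 ⟨y, a, ha, h2, rfl⟩
      simp only [Prod.mk.injEq] at hu2
      have e1 := hsg ha hb hu2.1
      have e2 := hinj' hy' (hu.1.mono hij) (hyy.symm.trans hu2.2)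
      rw [e1, e2]
      exact hu
    · intro h2
      have ha : a ∈ cd.SelpN p := by
        rw [← hs'']
        exact Few17N_top hS hi h2
      obtain ⟨u, b, hb, hu, hu2⟩ := h1.2 ⟨y', a, ha, h2, by rw [hyy]⟩
      simp only [Prod.mk.injEq] at hu2
      have e1 := hsg ha hb hu2.1
      have e2 := hinj hy (hu.1.mono hij) hu2.2
      rw [e1, e2]
      exact hu
  · rintro y y' ⟨hy, hy', hyy⟩ hyp b hb
    rw [hs'] at hb
    have hlev : IsPr S (cd.chiN p'') jp y' := by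
      obtain ⟨u, hu, hu2⟩ := (L2 ⟨jp, by omega⟩ (e' y)).1 ⟨y, hyp, rfl⟩
      rw [hyy] at hu2
      rw [hinj' hy' (hu.mono hjp) hu2]
      exact hu
    have h1 := L6 (sg b, e' y)
    have h2 : CTr S (cd.chiN p'') y' (cd.homN p'' b) = 0 ↔
        CTr S (cd.chiN p') y (cd.homN p' b) = 0 := by
      constructor
      · intro h2
        obtain ⟨u, c, hu, hc', h3, hu2⟩ := h1.2 ⟨y', b, hlev, hb, h2, by rw [hyy]⟩
        simp only [Prod.mk.injEq] at hu2
        rw [hsg hb hc' hu2.1, hinj hy (hu.mono hjp) hu2.2]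
        exact h3
      · intro h2
        obtain ⟨u, c, hu, hc', h3, hu2⟩ := h1.1 ⟨y, b, hyp, hb, h2, rfl⟩
        simp only [Prod.mk.injEq] at hu2
        rw [hsg hb hc' hu2.1, hinj' hy' (hu.mono hjp) (hyy.symm.trans hu2.2)]
        exact h3
    revert h2
    generalize CTr S (cd.chiN p'') y' (cd.homN p'' b) = α
    generalize CTr S (cd.chiN p') y (cd.homN p' b) = β
    revert α β
    decide
  · rintro y y' ⟨hy, hy', hyy⟩ -
    have hval : (2 : ℕ) ^ (2 * (j + t0)) • q S H (cd.chiN p') j y = 0 :=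
      q_values hS hH ht0 hchi' hy
    obtain ⟨u, hu, h3, hu2⟩ := (L7 ⟨q S H (cd.chiN p') j y, hval⟩ (e' y)).1 ⟨y, hy, rfl, rfl⟩
    rw [hinj' hy' hu (hyy.symm.trans hu2)]
    exact h3

/-- `FewTyp`: the number of classes in a big block is bounded. -/
theorem fewTyp (hS : S.Ok) (hH : HOk S H) (hc : cd.Ok) {j jp : ℕ}
    (hjp : jp ≤ j) : FewTyp cd H j jp := by
  classical
  intro R
  have := hS.fin1
  obtain ⟨C1, hC1⟩ := card_RS_le hS hc
  obtain ⟨t0, ht0⟩ := exists_t0 hS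
  set R' : ℕ := (Nat.card V1 * Nat.card V1) ^ (j + 2) * 2 ^ R with hR'
  set Nb : ℕ := C1 * R' ^ j with hNb
  have hfV : Finite {z : V // (2 : ℕ) ^ j • z = 0} := (Few17N_fin_V hS j).to_subtype
  have hfM : Finite {m : M // (2 : ℕ) ^ (2 * (j + t0)) • m = 0} :=
    (fin_tors hH (2 * (j + t0))).to_subtype
  let Lab : Type := DirD j V1 × Few17N_Lab (Nb + 1) (j + 1) (Nb + 1) (R' + 1)
    {z : V // (2 : ℕ) ^ j • z = 0} {m : M // (2 : ℕ) ^ (2 * (j + t0)) • m = 0}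
  have hfin : Finite Lab := inferInstance
  refine ⟨Nat.card Lab, fun J _ p dir hd hR => ?_⟩
  have hJ : Nonempty J := ⟨dir none⟩
  -- sizes
  have hcard : ∀ x : ∀ i, cd.XB p dir i, Nat.card (cd.SelpN (rxN p dir x)) ≤ R' := fun x =>
    (card_selpN_rxN hS hc hd x).trans (Nat.mul_le_mul le_rfl hR)
  have hRS : ∀ x : ∀ i, cd.XB p dir i, ∃ e : (G → V) × (Pl → V) → Fin (Nb + 1),
      Set.InjOn e {y | IsPr S (cd.chiN (rxN p dir x)) j y} := by
    intro x
    obtain ⟨h1, h2⟩ := hC1 J _ hJ (rxN p dir x) (pvec_rxN hd x) R' (hcard x) j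
    exact Few17N_inj _ Nb (Set.finite_coe_iff.1 h1) h2
  choose e he using hRS
  have hsg : ∀ x : ∀ i, cd.XB p dir i, ∃ sg : cd.CodeN J → Fin (R' + 1),
      Set.InjOn sg (cd.SelpN (rxN p dir x)) := fun x =>
    Few17N_inj (cd.SelpN (rxN p dir x)) R' (Set.toFinite _) (hcard x)
  choose sg hsg using hsg
  -- base points
  have hbase : ∀ δ : DirD j V1, ∃ b : ∀ i, cd.XB p dir i,
      ∀ x : ∀ i, cd.XB p dir i, cd.dirD dir (rxN p dir x) = δ → cd.dirD dir (rxN p dir b) = δ := by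
    intro δ
    by_cases h : ∃ x : ∀ i, cd.XB p dir i, cd.dirD dir (rxN p dir x) = δ
    · obtain ⟨x, hx⟩ := h
      exact ⟨x, fun _ _ => hx⟩
    · push Not at h
      exact ⟨xpN p dir, fun x hx => absurd hx (h x)⟩
  choose b hb using hbase
  let lab : (∀ i, cd.XB p dir i) → Lab := fun x =>
    (cd.dirD dir (rxN p dir x), Few17N_lab cd H (rxN p dir (b (cd.dirD dir (rxN p dir x))))
      (rxN p dir x) j jp (e0 := 2 * (j + t0)) (e x) (e (b (cd.dirD dir (rxN p dir x))))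
      (sg (b (cd.dirD dir (rxN p dir x)))))
  have key : ∀ x x' : ∀ i, cd.XB p dir i, lab x = lab x' →
      ∃ Th, IsoH cd H j jp (rxN p dir x) (rxN p dir x') Th := by
    intro x x' hL
    have hL1 : cd.dirD dir (rxN p dir x) = cd.dirD dir (rxN p dir x') := congrArg Prod.fst hL
    have hL2 := congrArg Prod.snd hL
    change Few17N_lab cd H (rxN p dir (b (cd.dirD dir (rxN p dir x))))
      (rxN p dir x) j jp (e0 := 2 * (j + t0)) (e x) (e (b (cd.dirD dir (rxN p dir x))))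
      (sg (b (cd.dirD dir (rxN p dir x)))) = Few17N_lab cd H
      (rxN p dir (b (cd.dirD dir (rxN p dir x')))) (rxN p dir x') j jp (e0 := 2 * (j + t0))
      (e x') (e (b (cd.dirD dir (rxN p dir x')))) (sg (b (cd.dirD dir (rxN p dir x')))) at hL2
    rw [← hL1] at hL2
    have hsel : ∀ z : ∀ i, cd.XB p dir i, cd.dirD dir (rxN p dir z) =
        cd.dirD dir (rxN p dir x) → cd.SelpN (rxN p dir z) =
          cd.SelpN (rxN p dir (b (cd.dirD dir (rxN p dir x)))) := by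
      intro z hz
      refine (frameRThm hS hc J _ j p dir hd z _ ?_).1
      change cd.DirEq dir (rxN p dir z) (rxN p dir (b (cd.dirD dir (rxN p dir x))))
      rw [dirEq_iff, hz, hb _ x rfl]
    exact Few17N_key hS hH hc hjp ht0 (he x) (he x') (he _) (hsg _) (hsel x rfl)
      (hsel x' hL1.symm) (fun w hw => isLoc_rxN hc x _ hw) (fun w hw => isLoc_rxN hc x _ hw)
      (fun w hw => isLoc_rxN hc x' _ hw) hL2
  refine ⟨fun x => Finite.equivFin Lab (lab x), fun x x' hlab => ?_⟩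
  have hL : lab x = lab x' := (Finite.equivFin Lab).injective hlab
  refine ⟨?_, key x x' hL, key x' x hL.symm⟩
  rw [dirEq_iff]
  exact congrArg Prod.fst hL

end Pool.Agent.SmNH
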