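import Pool.Agent.Lib.SmN.I.FrC
import Pool.Agent.Lib.SmN.I.CodeN
import Pool.Agent.Lib.SmNH.StmtI

/-!
# HEIGHTS over SMITH-U, block I: `FrameRThm`

The codes of the relaxed Selmer group and the solutions of the inhomogeneous systems are constant
along the points of a big block with the same direction symbols.
-/

set_option autoImplicit false

open Finset

namespace Pool.Agent.SmNH

open Pool.Agent.SmN Pool.Agent.SmN.IT Pool.Agent.SmN.FrN

variable {G V V1 Pl : Type} [Group G] [AddCommGroup V] [DistribMulAction G V]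
  [AddCommGroup V1] [Module (ZMod 2) V1] {S : Sys G V V1 Pl} {X : PSys} {cd : CData S X}

/-- The condition at a split marked place, with an offset. -/
theorem cond_splitO (hS : S.Ok) (hc : cd.Ok) {chi : G → ZMod 2} (hchi : S.HomG chi) {x : cd.Mk}
    (hx : cd.Split x) (h1 : chi (S.sg (cd.pl x.1)) = 1) {b : G → V1} (hb : S.CocG b) {w : V1}
    (hw : b (S.sg (cd.pl x.1)) = S.ac x.2.1⁻¹ w) {z : V} (hz : (2 : ℕ) • z = S.iota w) (t : V1) :
    S.loc (cd.pl x.1) b - (0, S.ac x.2.1⁻¹ t) ∈ S.Wl chi (cd.pl x.1) ↔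
      dl chi z (cd.phx x) = S.iota (b (cd.phx x) - t) := by
  set v := cd.pl x.1 with hv
  set g : Pl → G := fun _ => x.2.1 with hg
  have hS' := hS.conj g
  have e1 : (S.conj g).loc v b - (0, t) ∈ (S.conj g).Wl chi v ↔
      S.loc v b - (0, S.ac x.2.1⁻¹ t) ∈ S.Wl chi v := by
    have e2 : S.ac2 (g v)⁻¹ ((S.conj g).loc v b - (0, t)) =
        (S.loc v b - (0, S.ac x.2.1⁻¹ t)) + S.cob v (S.ac (g v)⁻¹ (b (g v))) := by
      have e3 : S.ac2 (g v)⁻¹ ((0 : V1), t) = (0, S.ac x.2.1⁻¹ t) :=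
        Prod.ext (map_zero (S.ac (g v)⁻¹)) rfl
      rw [map_sub, Sys.conj_loc hb, e3]
      abel
    rw [Sys.mem_conj_Wl hS hchi, e2, wl_add_cob hS]
  rw [← e1]
  have hsg : b (x.2.1 * S.sg v * x.2.1⁻¹) = w := by
    rw [cocG_conj hb.2 _ (Sys.ac_sg hS (hc.pl_good _)), hw, Sys.ac_inv_cancel]
  refine Sys.mem_Wl_ram hS' (hc.pl_good _) hx ?_ _ (z := z) ?_
  · change chi (x.2.1 * S.sg v * x.2.1⁻¹) = 1
    rw [homG_conj hchi.2]
    exact h1
  · change (2 : ℕ) • z = S.iota (b (x.2.1 * S.sg v * x.2.1⁻¹) - 0)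
    rw [hsg, hz, sub_zero]

theorem iota_move (S : Sys G V V1 Pl) {A B : V} {c c' : V1} :
    A + S.iota c = B + S.iota c' + S.iota c ↔ A + S.iota c' = B := by
  constructor
  · intro h
    have h2 : A = B + S.iota c' := add_right_cancel h
    rw [h2, add_assoc, ← two_nsmul, Sys.two_iota, add_zero]
  · intro h
    rw [← h, add_assoc A, ← two_nsmul, Sys.two_iota, add_zero]

/-- The local conditions at two split marked places with the same symbols, with an offset. -/
theorem cond_congrO (hS : S.Ok) (hc : cd.Ok) {chi chi' : G → ZMod 2} (hchi : S.HomG chi)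
    (hchi' : S.HomG chi') {x y : cd.Mk} (hx : cd.Split x) (hy : cd.Split y)
    (hkf : cd.kf (cd.phx x) = cd.kf (cd.phx y))
    (h1 : chi (S.sg (cd.pl x.1)) = 1) (h1' : chi' (S.sg (cd.pl y.1)) = 1)
    {b b' : G → V1} (hb : S.CocG b) (hb' : S.CocG b') {w : V1}
    (hw : b (S.sg (cd.pl x.1)) = S.ac x.2.1⁻¹ w) (hw' : b' (S.sg (cd.pl y.1)) = S.ac y.2.1⁻¹ w)
    (hsym : b (cd.phx x) + chi (cd.phx x) • w = b' (cd.phx y) + chi' (cd.phx y) • w) (t : V1) :
    S.loc (cd.pl x.1) b - (0, S.ac x.2.1⁻¹ t) ∈ S.Wl chi (cd.pl x.1) ↔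
      S.loc (cd.pl y.1) b' - (0, S.ac y.2.1⁻¹ t) ∈ S.Wl chi' (cd.pl y.1) := by
  obtain ⟨z, hz⟩ := hS.half (S.iota w)
  rw [cond_splitO hS hc hchi hx h1 hb hw hz, cond_splitO hS hc hchi' hy h1' hb' hw' hz,
    dl_fix hS (split_fx hx w) hz, dl_fix hS (split_fx hy w) hz]
  -- the action on `z`
  have h4 : (4 : ℕ) • z = 0 := by
    rw [show (4 : ℕ) = 2 * 2 from rfl, mul_nsmul, hz, Sys.two_iota]
  obtain ⟨u, hu⟩ := hc.kf_four _ _ hkf z h4 (by
    rw [hz, hS.iota_ac]
    exact congrArg S.iota (split_fx hx w))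
  have hu0 : S.ac (cd.phx x) u - u = 0 := by
    rw [split_ac hx]
    exact sub_self _
  rw [hu0, map_zero, sub_eq_zero] at hu
  rw [hu]
  have e1 : b (cd.phx x) - t = (b' (cd.phx y) - t) + chi' (cd.phx y) • w + chi (cd.phx x) • w := by
    have e2 : b (cd.phx x) = b' (cd.phx y) + chi' (cd.phx y) • w + chi (cd.phx x) • w := by
      rw [← hsym, v1_add_cancel]
    rw [e2]
    abel
  rw [e1, map_add, map_add]
  exact iota_move S

variable {J : Type} [Fintype J] {m : ℕ} {p p' : J → cd.Mk} {dir : Dir m ↪ J}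

/-- The local conditions at the primes of the vector, with an offset. -/
theorem Cmp.locO (hS : S.Ok) (hc : cd.Ok) (h : Cmp p p' dir) {c : cd.CodeN J}
    (hv : cd.ValidN p c) (j : J) (t : V1)
    (hl : S.loc (cd.pl (p j).1) (cd.homN p c) - (0, S.ac (p j).2.1⁻¹ t) ∈
      S.Wl (cd.chiN p) (cd.pl (p j).1)) :
    S.loc (cd.pl (p' j).1) (cd.homN p' c) - (0, S.ac (p' j).2.1⁻¹ t) ∈
      S.Wl (cd.chiN p') (cd.pl (p' j).1) := by
  have hv' := h.valid hv
  have hchi := CData.chiN_hom hS hc p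
  have hchi' := CData.chiN_hom hS hc p'
  by_cases hj : ∃ i, dir i = j
  · -- a direction
    obtain ⟨i, rfl⟩ := hj
    refine (cond_congrO hS hc hchi hchi' (h.split i) (h.split' i) (h.kf i)
      (CData.chiN_ram hc h.vec _) (CData.chiN_ram hc h.vec' _) (CData.homN_coc hS hc hv)
      (CData.homN_coc hS hc hv') (CData.homN_ram hc h.vec hv _)
      (CData.homN_ram hc h.vec' hv' _) ?_ t).1 hl
    -- the symbols
    have key : ∀ (q : J → cd.Mk) (s : G) (w : V1), cd.homN q c s + cd.chiN q s • w =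
        (cd.hb c.1 s + cd.chi0 s • w) +
          ∑ l, (cd.bex (q l) (c.2 l) s + cd.ch (q l).1 s • w) := by
      intro q s w
      rw [CData.homN, CData.chiN, sum_add_distrib, add_smul, sum_smul]
      abel
    rw [key, key]
    congr 1
    · congr 1
      · obtain ⟨z, hz⟩ := hc.kf_coc _ (CData.hb_coc hc c.1) (CData.hb_unr hc c.1) _ _ (h.kf i)
        rw [split_ac (h.split i)] at hz
        change cd.hb c.1 (cd.phx (p (dir i))) - cd.hb c.1 (cd.phx (p' (dir i))) = z - z at hz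
        rw [sub_self, sub_eq_zero] at hz
        exact hz
      · rw [hc.kf_hom _ hc.chi0_hom hc.chi0_unr _ _ (h.kf i)]
    · refine sum_congr rfl fun l _ => ?_
      by_cases hl : ∃ i', dir i' = l
      · obtain ⟨i', rfl⟩ := hl
        by_cases hii : i' = i
        · subst hii
          exact h.eq.self i' _
        · rw [h.eq.be i' i hii, h.eq.ch i' i hii]
      · push Not at hl
        rw [h.off l hl, h.ch i l hl, h.be i l hl _ (hv l)]
  · -- off the directions
    push Not at hj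
    rw [h.off j hj]
    have h1 : ∀ s ∈ S.D (cd.pl (p j).1), cd.chiN p s = cd.chiN p' s := by
      have hd : S.HomG (fun s => cd.chiN p s - cd.chiN p' s) := homG_sub hS hchi hchi'
      have h1 := homG_D hS hd (cd.pl (p j).1) (by
        have e2 := CData.chiN_ram hc h.vec' j
        rw [h.off j hj] at e2
        rw [CData.chiN_ram hc h.vec j, e2, sub_self]) (by
        have e3 : ∀ q : J → cd.Mk, cd.chiN q (S.phi (cd.pl (p j).1)) =
            cd.chiN q (cd.phx (p j)) := fun q => by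
          rw [CData.phx, homG_conj (CData.chiN_hom hS hc q).2]
        rw [e3, e3, CData.chiN, CData.chiN, add_sub_add_left_eq_sub, ← sum_sub_distrib]
        exact sum_eq_zero fun l _ => by rw [h.ch_off hc hj l, sub_self])
      exact fun s hs => sub_eq_zero.1 (h1 s hs)
    obtain ⟨u, hu⟩ := loc_homN_sub (p := p) (p' := p') (c := c) (cd.pl (p j).1) fun l => by
      by_cases hl : ∃ i', dir i' = l
      · obtain ⟨i', rfl⟩ := hl
        refine rec_off hS hc (h.split i') (h.split' i') ?_ ?_ (h.kf i')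
          (fun w' hw' => h.be i' j hj w' hw') _
        · exact fun he => hj i' (h.vec he.symm)
        · intro he
          rw [← h.off j hj] at he
          exact hj i' (h.vec' he.symm)
      · push Not at hl
        refine ⟨0, ?_⟩
        rw [h.off l hl, sub_self]
        refine Prod.ext ?_ ?_
        · change (0 : V1) = S.ac _ 0 - 0
          rw [map_zero, sub_zero]
        · change (0 : V1) = S.ac _ 0 - 0
          rw [map_zero, sub_zero]
    refine wl_congr hS h1 ?_
    rw [← wl_add_cob hS _ _ u, ← hu]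
    have e1 : S.loc (cd.pl (p j).1) (cd.homN p' c) - (0, S.ac (p j).2.1⁻¹ t) +
        (S.loc (cd.pl (p j).1) (cd.homN p c) - S.loc (cd.pl (p j).1) (cd.homN p' c)) =
        S.loc (cd.pl (p j).1) (cd.homN p c) - (0, S.ac (p j).2.1⁻¹ t) := by abel
    rw [e1]
    exact hl

theorem Cmp.mem_SelpN (hS : S.Ok) (hc : cd.Ok) (h : Cmp p p' dir) {c : cd.CodeN J}
    (hcS : c ∈ cd.SelpN p) : c ∈ cd.SelpN p' := by
  refine ⟨h.valid hcS.1, fun j => ?_⟩
  have e : ∀ (x : cd.Mk), ((0 : V1), S.ac x.2.1⁻¹ (0 : V1)) = 0 := fun x =>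
    Prod.ext rfl (map_zero _)
  have h1 := Cmp.locO hS hc h hcS.1 j 0 (by
    rw [e, sub_zero]
    exact hcS.2 j)
  rwa [e, sub_zero] at h1

/-- The inhomogeneous condition with the code of the right hand side. -/
theorem inhN_iff (hc : cd.Ok) (hp : cd.PVecN p) {w c : cd.CodeN J} (hv : cd.ValidN p c) (j : J) :
    cd.InhN p w c j ↔ S.loc (cd.pl (p j).1) (cd.homN p w) -
      (0, S.ac (p j).2.1⁻¹ ((X.deg (p j).1 : ZMod 2) • c.2 j)) ∈
        S.Wl (cd.chiN p) (cd.pl (p j).1) := by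
  rw [CData.InhN, CData.homN_ram hc hp hv, map_smul]

theorem Cmp.inh (hS : S.Ok) (hc : cd.Ok) (h : Cmp p p' dir)
    (hdeg : ∀ j, X.deg (p' j).1 = X.deg (p j).1) {c w : cd.CodeN J} (hcv : cd.ValidN p c)
    (hw : cd.ValidN p w ∧ ∀ l, cd.InhN p w c l) : cd.ValidN p' w ∧ ∀ l, cd.InhN p' w c l := by
  refine ⟨h.valid hw.1, fun j => ?_⟩
  rw [inhN_iff hc h.vec' (h.valid hcv), hdeg]
  exact Cmp.locO hS hc h hw.1 j _ ((inhN_iff hc h.vec hcv j).1 (hw.2 j))

/-- **The relaxed frame theorem.** -/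
theorem frameRThm (hS : S.Ok) (hc : cd.Ok) : FrameRThm cd := by
  intro J _ m p dir h x y hxy
  have hC := cmp_repl hc h x y hxy
  have hdeg : ∀ j, X.deg (cd.replN p dir (fun i => (y i).1) j).1 =
      X.deg (cd.replN p dir (fun i => (x i).1) j).1 := fun j => by
    rw [deg_repl, deg_repl]
  refine ⟨Set.Subset.antisymm (fun _ hc' => Cmp.mem_SelpN hS hc hC hc')
    (fun _ hc' => Cmp.mem_SelpN hS hc hC.symm hc'), hC.FN_eq hS hc, fun a ha w => ?_⟩
  exact ⟨fun hw => Cmp.inh hS hc hC hdeg ha.1 hw,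
    fun hw => Cmp.inh hS hc hC.symm (fun j => (hdeg j).symm) (hC.valid ha.1) hw⟩

end Pool.Agent.SmNH
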