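import Pool.Agent.Lib.SmNH.I.ClaimQ

/-!
# SmNH, block I5: claim A (port of `Lib/SmH/I/ClaimA.lean`)

`kk = k`. If `x` is good for `x0` then `x` is a point of the type, and the sum over the cube `(x0, x)`
of the values of the rigid pairing of the tower of `a` with the code `b` (supported in the direction
`ib`) is a symbol of `Th`.
-/

set_option autoImplicit false

open Finset

namespace Pool.Agent.SmNH

open Pool.Agent.SmN

namespace IC

open Pool.Agent.SmN.IT Pool.Agent.SmA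
open Pool.Agent.SmN.IC (exists_notMem subset_erase ch_congr phiC_congr)

variable {G V V1 Pl M : Type*} [Group G] [AddCommGroup V] [DistribMulAction G V]
  [AddCommGroup V1] [Module (ZMod 2) V1] [AddCommGroup M] [DistribMulAction G M]
variable {S : Sys G V V1 Pl} {H : HData V M Pl}
variable {ι : Type*} [Fintype ι] [DecidableEq ι] {X : ι → Type*} {r k kk : ℕ} {Γ : Grid S X}
  {τ : TwH G V V1 Pl M ι r} {x0 x : ∀ i, X i}

/-- The last values of the completed families are towers at `x`, up to the values of level `k`. -/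
theorem good_tow (hS : S.Ok) (hΓ : Γ.Ok) (hτ : τ.Ok Γ k) (hk : 1 ≤ k)
    (hI : Fintype.card ι = k + 2) (h : τ.GoodH H Γ k kk x0 x) (l : Fin (r + 1))
    (hval : τ.jl l = k → k < kk → ∀ d ∈ FR Γ,
      CTr S (Γ.chi x) (lst τ H Γ k kk x0 x l univ) (Γ.ch d x) = τ.fl l d) :
    τ.IsTow Γ kk x l (lst τ H Γ k kk x0 x l univ) where
  pr := by
    have h1 := good_pr hS hΓ hτ hk hI h l univ
    rwa [← Grid.chi_mix, Grid.mix_univ] at h1
  base := good_base hS hΓ hτ hk hI h l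
  val := fun hl d hd => by
    rcases (hτ.jl_le l).lt_or_eq with h1 | h1
    · exact good_val hS hΓ hτ hk hI h l hl h1 hd
    · exact hval h1 (h1 ▸ hl) d hd

/-- The last values of the completed families are a system of towers at `x`. -/
theorem good_sys (hS : S.Ok) (hH : HOk S H) (hΓ : Γ.Ok) (hτ : τ.Ok Γ k) (hk : 1 ≤ k)
    (hI : Fintype.card ι = k + 2) (h : τ.GoodH H Γ k kk x0 x)
    (hval : k < kk → ∀ l, τ.jl l = k → ∀ d ∈ FR Γ,
      CTr S (Γ.chi x) (lst τ H Γ k kk x0 x l univ) (Γ.ch d x) = τ.fl l d) :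
    τ.IsSys H Γ k kk x (fun l => lst τ H Γ k kk x0 x l univ) where
  tow := fun l => good_tow hS hΓ hτ hk hI h l fun h1 h2 => hval h2 l h1
  qdat := fun n _ hw => good_qdat hS hH hΓ hτ hk hI h n hw

/-- The claim, first part. -/
theorem good_YH (hS : S.Ok) (hH : HOk S H) (hΓ : Γ.Ok) (hτ : τ.Ok Γ k) (hk : 1 ≤ k)
    (hI : Fintype.card ι = k + 2) (h : τ.GoodH H Γ k kk x0 x)
    (hval : k < kk → ∀ l, τ.jl l = k → ∀ d ∈ FR Γ,
      CTr S (Γ.chi x) (lst τ H Γ k kk x0 x l univ) (Γ.ch d x) = τ.fl l d) :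
    x ∈ τ.YH H Γ k kk := by
  refine ⟨?_, _, good_sys hS hH hΓ hτ hk hI h hval⟩
  have h1 := good_mem_Xs (by omega) h univ
  rwa [Grid.mix_univ] at h1

theorem lst_phiC (l : Fin (r + 1)) {R : Finset ι} (hR : R ≠ univ) (j : ℕ) :
    PhiC S j (fun T => (lst τ H Γ k kk x0 x l T).1) R =
      PhiC S j (ps τ H Γ k kk x0 x l) R := by
  apply phiC_congr
  intro T hT
  apply lst_fst_of_ne
  intro he
  apply hR
  rw [he] at hT
  exact eq_univ_iff_forall.2 fun a => hT (mem_univ a)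

theorem lst_thRel {ib : ι} {Th : G → V1}
    (hrel : ThRel S k (Γ.del x0 x) (ps τ H Γ k kk x0 x 0) (univ.erase ib) Th) (g : Pl → G) :
    ThRel (S.conj g) k (Γ.del x0 x) (fun T => (lst τ H Γ k kk x0 x 0 T).1) (univ.erase ib) Th := by
  intro s t
  have h0 := hrel s t
  have h3 : ∀ T ∈ (univ.erase ib).powerset.erase ∅,
      pdel (Γ.del x0 x) T s • PhiC S k (ps τ H Γ k kk x0 x 0) (univ.erase ib \ T) t =
      pdel (Γ.del x0 x) T s •
        PhiC S k (fun T => (lst τ H Γ k kk x0 x 0 T).1) (univ.erase ib \ T) t := by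
    intro T _
    rw [lst_phiC 0 _ k]
    intro he
    have h1 : ib ∈ univ.erase ib \ T := by rw [he]; exact mem_univ ib
    exact notMem_erase ib univ (mem_sdiff.1 h1).1
  rw [sum_congr rfl h3] at h0
  exact h0

/-- The values of the height form determine the pairing of the tower of `a` with `b`. -/
def Wd (τ : TwH G V V1 Pl M ι r) (H : HData V M Pl) (Γ : Grid S X) (k kk : ℕ)
    (b : GCode G V1 ι) : Prop :=
  ∀ x ∈ τ.YH H Γ k kk, ∀ y y', τ.IsSys H Γ k kk x y → τ.IsSys H Γ k kk x y' →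
    CTr S (Γ.chi x) (y 0) (Γ.ch b x) = CTr S (Γ.chi x) (y' 0) (Γ.ch b x)

/-- The claim, second part: the sum of `FA` over the cube (`kk = k`). -/
theorem good_sumA (hS : S.Ok) (hH : HOk S H) (hΓ : Γ.Ok) (hτ : τ.Ok Γ k) (hk : 1 ≤ k)
    (hI : Fintype.card ι = k + 2) (h : τ.GoodH H Γ k k x0 x) {b : GCode G V1 ι}
    (hbF : b ∈ FR Γ) (hwd : Wd τ H Γ k k b) (ib : ι) (hb : ∀ i, i ≠ ib → b.2 i = 0)
    {Th : G → V1} (htf : S.TF Th)
    (hrel : ThRel S k (Γ.del x0 x) (ps τ H Γ k k x0 x 0) (univ.erase ib) Th)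
    (hunr : ∀ v ∈ S.good, Th ((S.conj (Γ.cg x0 x)).sg v) = 0) :
    ∑ T : Finset ι, τ.FA H Γ k k b (mix T x0 x) =
      S.e (Th (Γ.phx ib (x0 ib)) + Th (Γ.phx ib (x ib))) (b.2 ib) := by
  have hval : k < k → ∀ l, τ.jl l = k → ∀ d ∈ FR Γ,
      CTr S (Γ.chi x) (lst τ H Γ k k x0 x l univ) (Γ.ch d x) = τ.fl l d :=
    fun h1 => absurd h1 (lt_irrefl k)
  have hst := good_star hS hΓ hτ hk hI h 0
  have hpr := good_pr hS hΓ hτ hk hI h 0
  have hne := good_ne (by omega) h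
  rw [hτ.jl_zero] at hst hpr
  have h1 := top_sum_CTr (hS.conj (Γ.cg x0 x)) (good_cubeOk hS hΓ (by omega) h)
    (Grid.betOk hS hΓ b.2 (good_symOk (by omega) h)) hst
    (fun T => (conj_pr hS hΓ x0 x T _ _).2 (hpr T))
    (fun v _ T T' => congrFun (lst_snd 0 T T') v) hI (Γ.ch b x0)
    (fun T => good_b hS hΓ (by omega) h hbF _ T) ib
    (fun i hi s => by
      unfold Grid.dbe
      rw [hb i hi, Grid.be_zero hΓ, Grid.be_zero hΓ, add_zero]) htf
    (lst_thRel hrel (Γ.cg x0 x)) hunr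
  have h2 : ∀ T : Finset ι, τ.FA H Γ k k b (mix T x0 x) =
      CTr (S.conj (Γ.cg x0 x)) (chiC (Γ.chi x0) (Γ.del x0 x) T) (lst τ H Γ k k x0 x 0 T)
        (bC (Γ.ch b x0) (Γ.dbe b.2 x0 x) T) := by
    intro T
    rw [conj_ctr hS hΓ (by omega) h hbF (hpr T)]
    by_cases hT : T = univ
    · subst hT
      rw [Grid.mix_univ]
      have hx := good_YH hS hH hΓ hτ hk hI h hval
      exact hwd x hx _ _ (yy_spec hx) (good_sys hS hH hΓ hτ hk hI h hval)
    · rw [lst_of_ne h 0 hT]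
      rfl
  rw [sum_congr rfl fun T _ => h2 T, h1, Grid.cg_phi hΓ (Grid.Sep.of_ne hne),
    Grid.cg_phi hΓ (Grid.Sep.of_ne hne), Grid.cg_sg hΓ (Grid.Sep.of_ne hne),
    Grid.cg_sg hΓ (Grid.Sep.of_ne hne), Grid.dbe_sgx hS hΓ _ (hne ib), Grid.dbe_sgx hS hΓ _ (hne ib)]
  change S.e _ _ + S.e _ _ = _
  rw [map_add, LinearMap.add_apply]
  rfl

end IC

end Pool.Agent.SmNH
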