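import Pool.Agent.Lib.SmNH.I.TypeH
import Pool.Agent.Lib.SmNH.I.ClaimA

/-!
# HEIGHTS over SMITH-U, block I: the interface between the generation part and the theorems A and T

`GenA`, `GenT`: what is needed from the generation of the rigid Selmer elements by the towers.
-/

set_option autoImplicit false

open Finset

namespace Pool.Agent.SmNH

open Pool.Agent.SmN Pool.Agent.SmN.IT Pool.Agent.SmN.CData

variable {G V V1 Pl M : Type} [Group G] [AddCommGroup V] [DistribMulAction G V]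
  [AddCommGroup V1] [Module (ZMod 2) V1] [AddCommGroup M] [DistribMulAction G M]
  {S : Sys G V V1 Pl} {X : PSys}

/-- The sign of `q (k + 1)` of the lifts of the tower of `a` does not depend on the choices. -/
def WdT {ι : Type} [Fintype ι] {Y : ι → Type} {r : ℕ}
    (τ : TwH G V V1 Pl M ι r) (H : HData V M Pl) (Γ : Grid S Y) (k : ℕ) : Prop :=
  ∀ x ∈ τ.YH H Γ k (k + 1), ∀ y y', τ.IsSys H Γ k (k + 1) x y →
    τ.IsSys H Γ k (k + 1) x y' → ∀ yp yp', TwH.IsUp S (Γ.chi x) k (y 0) yp →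
    TwH.IsUp S (Γ.chi x) k (y' 0) yp' →
    (q S H (Γ.chi x) (k + 1) yp = 0 ↔ q S H (Γ.chi x) (k + 1) yp' = 0)

/-- The generation part for theorem A, as a statement. -/
def GenA (cd : CData S X) (hS : S.Ok) (hc : cd.Ok) (H : HData V M Pl) (m : ℕ) : Prop :=
  ∀ (J : Type) (_ : Fintype J) (p : J → cd.Mk) (dir : Dir m ↪ J), cd.DirOk p dir →
    ∀ (n : ℕ) (cc : Fin (n + 1) → cd.VF p) (jl : Fin (n + 1) → ℕ)
      (sig : Fin (n + 1) → Finset (Dir m)) (y : Fin (n + 1) → (G → V) × (Pl → V)),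
      AdpH cd hS hc p m cc jl → (∀ l, (cc l).1 ∈ cd.FN p) →
      (∀ l, AbvH cd p (jl l) (cc l).1 (y l)) → ∀ b ∈ cd.SelpN p,
      (∀ x, x ∈ (mkTwH H p dir (fun l => (cc l).1) jl sig y).YH H (cd.gridN p dir) m m ↔
        TypEqH cd H dir m (m - 1) p (rxN p dir x)) ∧
      ∃ N0 : ℝ,
        (∀ x ∈ (mkTwH H p dir (fun l => (cc l).1) jl sig y).YH H (cd.gridN p dir) m m,
          NAH cd H (rxN p dir x) m (cc 0).1 b =
            (-1) ^ ((mkTwH H p dir (fun l => (cc l).1) jl sig y).FA H (cd.gridN p dir) m m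
              (gcodeN p dir b) x).val * N0) ∧
        (N0 ≠ 0 → IC.Wd (mkTwH H p dir (fun l => (cc l).1) jl sig y) H (cd.gridN p dir) m m
          (gcodeN p dir b))

/-- The generation part for theorem T, as a statement. -/
def GenT (cd : CData S X) (hS : S.Ok) (hc : cd.Ok) (H : HData V M Pl) (m : ℕ) : Prop :=
  ∀ (J : Type) (_ : Fintype J) (p : J → cd.Mk) (dir : Dir m ↪ J), cd.DirOk p dir →
    ∀ (n : ℕ) (cc : Fin (n + 1) → cd.VF p) (jl : Fin (n + 1) → ℕ)
      (sig : Fin (n + 1) → Finset (Dir m)) (y : Fin (n + 1) → (G → V) × (Pl → V)),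
      AdpH cd hS hc p m cc jl → (∀ l, (cc l).1 ∈ cd.FN p) →
      (∀ l, AbvH cd p (jl l) (cc l).1 (y l)) →
      (∃ yp, IsPr S (cd.chiN p) (m + 1) yp ∧ (2 : ℕ) • yp = y 0) →
      q S H (cd.chiN p) m (y 0) = 0 →
      (∀ x, x ∈ (mkTwH H p dir (fun l => (cc l).1) jl sig y).YH H (cd.gridN p dir) m (m + 1) ↔
        TypEqH cd H dir m m p (rxN p dir x)) ∧
      ∃ N0 : ℝ,
        (∀ x ∈ (mkTwH H p dir (fun l => (cc l).1) jl sig y).YH H (cd.gridN p dir) m (m + 1),
          NTH cd H (rxN p dir x) m (cc 0).1 =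
            (-1) ^ ((mkTwH H p dir (fun l => (cc l).1) jl sig y).FT H (cd.gridN p dir) m
              (m + 1) x).val * N0) ∧
        (N0 ≠ 0 → WdT (mkTwH H p dir (fun l => (cc l).1) jl sig y) H (cd.gridN p dir) m)

end Pool.Agent.SmNH
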