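import Pool.Agent.Lib.SmNH.I.Core.GridEnd
import Pool.Agent.Lib.SmN.I.GridThmF

/-!
SmNH, block I: the generic grid theorem over the grid of a vector of marked primes, with the choice
of the parameters.
-/

set_option autoImplicit false

open Finset

namespace Pool.Agent.SmNH

open Pool.Agent.SmN Pool.Agent.SmN.FrN

variable {G V V1 Pl : Type} [Group G] [AddCommGroup V] [DistribMulAction G V]
  [AddCommGroup V1] [Module (ZMod 2) V1] {S : Sys G V V1 Pl} {X : PSys} {cd : CData S X}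

/-- The generic grid theorem over the grid of a vector of marked primes, from the data of the last
direction. -/
theorem grid_thm_core_of (hS : S.Ok) (hc : cd.Ok) (hX : ∀ d, Finite (X.Of d)) {q a C : ℕ}
    (hq : 2 ≤ q)
    (hC : ChebU S.NN S.ac.ker cd.R X.deg (fun P => S.sg (cd.pl P)) (fun P => S.phi (cd.pl P))
      q a C) {m K1 B1 : ℕ} (hm : 1 ≤ m) (hL : HasLast cd m K1 B1) (R Kc : ℕ) (hKc : 0 < Kc)
    (η : ℝ) (hη : 0 < η) :
    ∃ n₀ : ℕ, ∀ (J : Type) (_ : Fintype J) (p : J → cd.Mk) (dir : Dir m ↪ J), cd.DirOk p dir →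
    n₀ ≤ cd.degN p → Nat.card (cd.FN p) ≤ 2 ^ R →
    (∀ i, (q : ℝ) ^ (9 * X.deg (p (dir i)).1 / 10) ≤ Nat.card (cd.XB p dir i)) →
    ∀ (κ : Type) (r : ℕ) (τ : Cor G V V1 (cd.XB p dir) κ r), r ≤ R →
    τ.Ok (cd.gridN p dir) m → τ.sig 0 = {some none} →
    ∀ (Fn : (∀ i, cd.XB p dir i) → ZMod 2) (be : V1), S.e ((τ.c 0).2 (some none)) be = 1 →
    τ.Claim (cd.gridN p dir) Fn be →
    ∀ Co : Finset κ, #Co ≤ Kc → (∀ x ∈ τ.Y, τ.col x ∈ Co) →
    ∀ Y : Finset (∀ i, cd.XB p dir i), (∀ x, x ∈ Y ↔ x ∈ τ.Y) →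
    |∑ x ∈ Y, (if Fn x = 0 then (1 : ℝ) else -1)| ≤
      η * ∏ i, (Nat.card (cd.XB p dir i) : ℝ) := by
  classical
  have hV : Finite V1 := hS.fin1
  have hV0 : 0 < Nat.card V1 := Nat.card_pos
  have hR0 : 0 < cd.R.card := by
    obtain ⟨h, h1, -⟩ := hc.rep 1
    exact card_pos.2 ⟨h, h1.1⟩
  set g0 := cd.R.card with hg0
  obtain ⟨n₀, N, γ, δ, c, ε, hγ0, hδ0, hcN, hcf, hδγ, hε1, hε2, hn⟩ :=
    INum.grid_num B1 a C (K1 * (2 ^ m * Nat.card V1 ^ 2 ^ m) ^ 2 ^ (m + 1)) 4 q m R g0 hq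
      (fun r δ => cGrH (Nat.card V1) g0 m r (2 ^ R) Kc δ) (fun r δ hδ => by
        unfold cGrH nCls
        positivity) η hη
  refine ⟨n₀, fun J _ p dir hd hn0 hF hXB κ r τ hrR hτ hσ Fn be hee hcl Co hCo hCo' Y hY => ?_⟩
  obtain ⟨hn3, hN4, hbig⟩ := hn _ hn0
  obtain ⟨M, K0, Q, E, B0, rr, hK0, hrr, hLO⟩ := hL J _ p dir hd
  have hfin : ∀ i, Finite (cd.XB p dir i) := finite_XB hX p dir
  let _ : ∀ i, Fintype (cd.XB p dir i) := fun i => Fintype.ofFinite _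
  -- the lower bounds
  have hb1 : ∀ i, 0 < (Fintype.card (cd.XB p dir i) : ℝ) ∧
      1 / (Fintype.card (cd.XB p dir i) : ℝ) ≤ ε ∧ ∀ rr : ℕ, rr ≤ 4 * cd.degN p →
        (C * ((2 : ℝ) ^ (B1 * Nat.card J) *
          ((K1 * (2 ^ m * Nat.card V1 ^ 2 ^ m) ^ 2 ^ (m + 1) : ℕ) : ℝ) * (rr + 1)) ^ a *
          √((q : ℝ) ^ X.deg (p (dir i)).1)) ^ 2 / (Fintype.card (cd.XB p dir i) : ℝ) ^ 2 ≤ ε :=
    fun i => hbig (Nat.card J) hd.few _ le_rfl _ (hd.large i) _ (by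
      have h1 := hXB i
      rwa [Nat.card_eq_fintype_card] at h1)
  have hneX : ∀ i, Nonempty (cd.XB p dir i) := fun i => by
    have h1 := (hb1 i).1
    exact Fintype.card_pos_iff.1 (by exact_mod_cast h1)
  have hprod : (∏ i, (Nat.card (cd.XB p dir i) : ℝ)) =
      Fintype.card (∀ i, cd.XB p dir i) := by
    rw [Fintype.card_pi]
    push_cast
    exact prod_congr rfl fun i _ => by rw [Nat.card_eq_fintype_card]
  rw [hprod]
  have hcr := hcf r hrR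
  have hend := core_grid_end hS (gridN_ok hS hc hd) hτ hm hσ hcl hee
    (2 ^ R) (by positivity) (fun x hx =>
      ⟨(CData.sel_cardN hS hc hd (hτ.Y_sub x hx)).1,
        (CData.sel_cardN hS hc hd (hτ.Y_sub x hx)).2.le.trans hF⟩) Co Kc hKc hCo hCo' hR0
    cd.pl X.deg
    hC (fun _ x => x.1.1) M K0 Q (X.deg (p (dir none)).1) E B0 rr hLO Y hY γ hγ0 (by
      refine le_trans (add_le_add ?_ ?_) hε1
      · refine le_trans ?_ ((hb1 none).2.2 rr hrr)
        have hK0' : (K0 : ℝ) ≤ K1 * 2 ^ (B1 * Nat.card J) := by exact_mod_cast hK0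
        have hkey : (K0 : ℝ) * (2 ^ m * (Nat.card V1 : ℝ) ^ 2 ^ m) ^ 2 ^ (m + 1) ≤
            2 ^ (B1 * Nat.card J) *
              ((K1 * (2 ^ m * Nat.card V1 ^ 2 ^ m) ^ 2 ^ (m + 1) : ℕ) : ℝ) := by
          push_cast
          calc (K0 : ℝ) * (2 ^ m * (Nat.card V1 : ℝ) ^ 2 ^ m) ^ 2 ^ (m + 1)
              ≤ (K1 * 2 ^ (B1 * Nat.card J)) *
                  (2 ^ m * (Nat.card V1 : ℝ) ^ 2 ^ m) ^ 2 ^ (m + 1) := by gcongr
            _ = 2 ^ (B1 * Nat.card J) *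
                (K1 * (2 ^ m * (Nat.card V1 : ℝ) ^ 2 ^ m) ^ 2 ^ (m + 1)) := by ring
        have hb0 : 0 ≤ bGr (Nat.card V1) m K0 rr a q C (X.deg (p (dir none)).1) := by
          unfold bGr
          positivity
        refine div_le_div_of_nonneg_right (pow_le_pow_left₀ hb0 ?_ 2) (by positivity)
        unfold bGr
        exact mul_le_mul_of_nonneg_right (mul_le_mul_of_nonneg_left (pow_le_pow_left₀
          (by positivity) (mul_le_mul_of_nonneg_right hkey (by positivity)) a) (by positivity))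
          (by positivity)
      · have h1 : (((cd.gridN p dir).R.card : ℕ) : ℝ) = g0 := rfl
        rw [h1]
        gcongr
        calc ∑ i : Option (Fin m), 1 / (Fintype.card (cd.XB p dir (some i)) : ℝ)
            ≤ ∑ i : Option (Fin m), ε := sum_le_sum fun i _ => (hb1 (some i)).2.1
          _ = (m + 1 : ℕ) * ε := by
              rw [sum_const, card_univ, Fintype.card_option, Fintype.card_fin, nsmul_eq_mul])
    δ hδ0 (by
      refine le_trans (le_trans ?_ hε2)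
        (div_le_div_of_nonneg_right hcr (by norm_num : (0 : ℝ) ≤ 2))
      calc ∑ i : Dir m, 1 / (Fintype.card (cd.XB p dir i) : ℝ)
          ≤ ∑ i : Dir m, ε := sum_le_sum fun i _ => (hb1 i).2.1
        _ = (m + 2 : ℕ) * ε := by
            rw [sum_const, card_univ, Fintype.card_option, Fintype.card_option,
              Fintype.card_fin, nsmul_eq_mul]) N
      (hcN.trans (mul_le_mul_of_nonneg_right hcr (Nat.cast_nonneg _)))
  refine hend.trans ?_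
  gcongr

/-- The generic grid theorem over the grid of a vector of marked primes. -/
theorem grid_thm_core (hS : S.Ok) (hc : cd.Ok) {q : ℕ} (hX : X.Ok q)
    (hNf : ∀ N ∈ S.NN, N.index ≠ 0) {Geo : Subgroup G} {fr : G} (hG : CData.GeoOk (S := S) Geo fr)
    {a C : ℕ} (hC : cd.Cheb Geo fr q a C) {m : ℕ} (hm : 1 ≤ m) (R Kc : ℕ) (hKc : 0 < Kc)
    (η : ℝ) (hη : 0 < η) :
    ∃ n₀ : ℕ, ∀ (J : Type) (_ : Fintype J) (p : J → cd.Mk) (dir : Dir m ↪ J), cd.DirOk p dir →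
    n₀ ≤ cd.degN p → Nat.card (cd.FN p) ≤ 2 ^ R →
    (∀ i, (q : ℝ) ^ (9 * X.deg (p (dir i)).1 / 10) ≤ Nat.card (cd.XB p dir i)) →
    ∀ (κ : Type) (r : ℕ) (τ : Cor G V V1 (cd.XB p dir) κ r), r ≤ R →
    τ.Ok (cd.gridN p dir) m → τ.sig 0 = {some none} →
    ∀ (Fn : (∀ i, cd.XB p dir i) → ZMod 2) (be : V1), S.e ((τ.c 0).2 (some none)) be = 1 →
    τ.Claim (cd.gridN p dir) Fn be →
    ∀ Co : Finset κ, #Co ≤ Kc → (∀ x ∈ τ.Y, τ.col x ∈ Co) →
    ∀ Y : Finset (∀ i, cd.XB p dir i), (∀ x, x ∈ Y ↔ x ∈ τ.Y) →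
    |∑ x ∈ Y, (if Fn x = 0 then (1 : ℝ) else -1)| ≤
      η * ∏ i, (Nat.card (cd.XB p dir i) : ℝ) := by
  obtain ⟨K1, B1, hL⟩ := exists_hasLast hS hc hX.fin hX.pos hNf m
  exact grid_thm_core_of hS hc hX.fin hX.two_le (CData.chebU cd hS hc hX.fin hNf hG hC) hm hL
    R Kc hKc η hη

end Pool.Agent.SmNH
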