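import Pool.Agent.Lib.SmNH.I.FinS
import Pool.Agent.Lib.SmNH.I.GenS
import Pool.Agent.Lib.SmNH.I.NumH
import Pool.Agent.Lib.SmNH.I.Core.InvB

/-!
# HEIGHTS over SMITH-U, block I: Theorem A over a vector of marked primes
-/

set_option autoImplicit false

open Finset

namespace Pool.Agent.SmNH

open Pool.Agent.SmN Pool.Agent.SmN.IT Pool.Agent.SmN.CData Pool.Agent.SmN.FrN

variable {G V V1 Pl M : Type} [Group G] [AddCommGroup V] [DistribMulAction G V]
  [AddCommGroup V1] [Module (ZMod 2) V1] [AddCommGroup M] [DistribMulAction G M]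

/-- The claim A for the generic grid theorem. -/
private theorem ThmA_claim {k r : ℕ} {S : Sys G V V1 Pl} {H : HData V M Pl}
    {X : Option (Option (Fin k)) → Type*} {Γ : Grid S X}
    {τ : TwH G V V1 Pl M (Option (Option (Fin k))) r}
    (hS : S.Ok) (hH : HOk S H) (hΓ : Γ.Ok) (hτ : τ.Ok Γ k)
    (hk : 1 ≤ k) {b : GCode G V1 (Option (Option (Fin k)))} (hbF : b ∈ FR Γ)
    (hwd : IC.Wd τ H Γ k k b) (hb : ∀ i, i ≠ none → b.2 i = 0) :
    (τ.cor H Γ k k).Claim Γ (τ.FA H Γ k k b) (b.2 none) := by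
  intro x0 x h
  have h' : τ.GoodH H Γ k k x0 x := cor_good.1 h
  have hI : Fintype.card (Option (Option (Fin k))) = k + 2 := by simp
  exact ⟨IC.good_YH hS hH hΓ hτ hk hI h' fun h1 => absurd h1 (lt_irrefl k),
    fun Th hTh => IC.good_sumA hS hH hΓ hτ hk hI h' hbF hwd none hb hTh.1 hTh.2.1 hTh.2.2⟩

/-- **Theorem A** over a vector of marked primes, from the generation part. -/
theorem gridThmA_of {S : Sys G V V1 Pl} {H : HData V M Pl} {X : PSys} {cd : CData S X}
    (hS : S.Ok) (hH : HOk S H) (hc : cd.Ok) (hg : S.good = Set.range cd.pl) {q : ℕ}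
    (hX : X.Ok q) (hNf : ∀ N ∈ S.NN, N.index ≠ 0) {Geo : Subgroup G} {fr : G}
    (hG : CData.GeoOk (S := S) Geo fr) {a0 C : ℕ} (hC : cd.Cheb Geo fr q a0 C) (m : ℕ)
    (hm : 1 ≤ m) (hGen : GenA cd hS hc H m) : GridThmA cd H q m := by
  classical
  intro R η hη
  have := hS.fin1
  have hcV : 0 < Nat.card V1 := Nat.card_pos
  obtain ⟨C1, hC1⟩ := card_RS_le (cd := cd) hS hc
  obtain ⟨L, hL0, hL⟩ := exists_L hS m
  -- the number of colours
  set K : ℕ := (Nat.card V1 ^ m) ^ ((R + 1) * (m + 2)) * L ^ (R + 1) with hK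
  have hK0 : 0 < K := by positivity
  -- the bound for `NAH`
  set Bd : ℕ := C1 * (2 ^ R) ^ m + 1 with hBd
  have hBd0 : (0 : ℝ) < Bd := by positivity
  obtain ⟨n₀, hn₀⟩ := grid_thm_core hS hc hX hNf hG hC hm R K hK0 (η / Bd) (by positivity)
  refine ⟨n₀, fun J _ p a b dir hd hn hF ha hsu hbig => ?_⟩
  obtain ⟨su⟩ := hsu
  have hne : Nonempty J := ⟨dir none⟩
  have hF' : Nat.card (cd.FN p) ≤ 2 ^ R :=
    (Nat.card_mono (Set.toFinite _) (fn_sub_selpN p)).trans hF
  have hmain := hn₀ J _ p dir hd hn hF' hbig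
  obtain ⟨n, cc, jl, sig, hn1, hA, hcc0, hccF, hs1, hs0, hs2⟩ := exists_bas hS hc hd.vec hm
    (fn_sub_selpN p) (BasH.ofSupp su) ha
  have hnR : n + 1 ≤ R := (Nat.pow_le_pow_iff_right (by norm_num)).1 (hn1.trans hF)
  have hmem : ∀ l, ∃ y, AbvH cd p (jl l) (cc l).1 y := fun l =>
    exists_abvH hS hc hd.vec (hA.pos l)
      ((mem_LflN_iff_tw hS hc (hUp p) hd.vec (hA.pos l) _).2 (hA.mem l))
  choose y hy using hmem
  -- the right code
  have hbdir : ∀ i, b.2 (dir i) = ∑ l, su.β l • (su.c l).2 (dir i) := by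
    intro i
    conv_lhs => rw [su.b_eq]
    rw [Prod.snd_sum, Finset.sum_apply]
    rfl
  have hbS : b ∈ cd.SelpN p := by
    rw [su.b_eq]
    exact Submodule.sum_mem (selpNM hS hc p) fun l _ => Submodule.smul_mem _ _ (su.mem l)
  have hb0 : ∀ i, i ≠ none → (gcodeN p dir b).2 i = 0 := by
    intro i hi
    change b.2 (dir i) = 0
    rw [hbdir]
    rcases i with _ | _ | i
    · exact absurd rfl hi
    · rw [sum_eq_single su.l1]
      · rw [su.β_l1, zero_smul]
      · intro l _ hl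
        rw [su.suppa, if_neg hl, smul_zero]
      · exact fun hh => absurd (mem_univ _) hh
    · exact sum_eq_zero fun l _ => by rw [su.supp0, smul_zero]
  have hbe : (gcodeN p dir b).2 none = su.e' := by
    change b.2 (dir none) = su.e'
    rw [hbdir, sum_eq_single su.l0]
    · rw [su.β_l0, one_smul, su.suppb, if_pos rfl]
    · intro l _ hl
      rw [su.suppb, if_neg hl, smul_zero]
    · exact fun hh => absurd (mem_univ _) hh
  set Γ := cd.gridN p dir with hΓdef
  have hΓ : Γ.Ok := gridN_ok hS hc hd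
  set τ := mkTwH H p dir (fun l => (cc l).1) jl sig y with hτdef
  have hτ : τ.Ok Γ m := mkTwH_ok hS hc hd y hA hccF hs1 hs2
  obtain ⟨hY, N0', hN0, hwd⟩ := hGen J _ p dir hd n cc jl sig y hA hccF hy b hbS
  have hfin : ∀ i, Finite (cd.XB p dir i) := finite_XB hX.fin p dir
  let _ : ∀ i, Fintype (cd.XB p dir i) := fun i => Fintype.ofFinite _
  -- the sum over the grid
  have hL1 : ∑ᶠ x : (i : Dir m) → cd.XB p dir i,
      (if TypEqH cd H dir m (m - 1) p (cd.replN p dir fun i => (x i).1) then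
        NAH cd H (cd.replN p dir fun i => (x i).1) m a b else 0) =
      N0' * ∑ x ∈ univ with x ∈ τ.YH H Γ m m,
        (if τ.FA H Γ m m (gcodeN p dir b) x = 0 then (1 : ℝ) else -1) := by
    rw [finsum_eq_sum_of_fintype, mul_sum, ← sum_filter]
    refine sum_congr (filter_congr fun x _ => (hY x).symm) fun x hx => ?_
    have h1 := hN0 x (mem_filter.1 hx).2
    rw [hcc0] at h1
    change NAH cd H (rxN p dir x) m a b = _
    rw [h1, sign_eq', mul_comm]
  have hN0le : |N0'| ≤ Bd := by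
    have h1 := hN0 _ (mkTwH_mem (H := H) hy m)
    rw [rxN_xp] at h1
    obtain ⟨g1, g2⟩ := hC1 J _ hne p hd.vec (2 ^ R) hF m
    have h2 := nah_le (H := H) m (cc 0).1 b g1
    rw [h1, abs_mul, abs_pow, abs_neg, abs_one, one_pow, one_mul] at h2
    refine h2.trans ?_
    rw [hBd]
    push_cast
    have h3 : (Nat.card {y : (G → V) × (Pl → V) // IsPr S (cd.chiN p) m y} : ℝ) ≤
        ((C1 * (2 ^ R) ^ m : ℕ) : ℝ) := by exact_mod_cast g2
    push_cast at h3
    linarith
  rw [hL1]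
  by_cases hN : N0' = 0
  · rw [hN, zero_mul, abs_zero]
    positivity
  -- the number of colours
  obtain ⟨Co, hCo, hCo'⟩ := card_colH (H := H) (kk := m) hS hΓ hτ (xpN p dir)
  have hCoK : #Co ≤ K := by
    refine hCo.trans ?_
    have h1 := hL _ (Grid.chi_hom hS hΓ (xpN p dir))
    have hcard : Fintype.card (Dir m) = m + 2 := by simp
    rw [hcard, hK]
    refine Nat.mul_le_mul (Nat.pow_le_pow_right (by positivity) (Nat.mul_le_mul_right _
      (by omega))) ((Nat.pow_le_pow_left h1 _).trans (Nat.pow_le_pow_right hL0 (by omega)))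
  have hcl := ThmA_claim hS hH hΓ hτ hm
    ((gcodeN_mem_FR hS hc hg hd xpN_mem hbS.1).2 hbS) (hwd hN) hb0
  have hend := hmain _ n (τ.cor H Γ m m) (by omega) (cor_ok hτ) hs0 _ _ (by
    rw [hbe]
    change S.e ((cc 0).1.2 (dir (some none))) su.e' = 1
    rw [hcc0, (BasH.ofSupp su).suppa]
    exact su.pair) hcl Co hCoK hCo' (univ.filter fun x => x ∈ τ.YH H Γ m m) (fun x => by
      rw [mem_filter]
      exact ⟨fun hx => hx.2, fun hx => ⟨mem_univ x, hx⟩⟩)
  rw [abs_mul]
  calc |N0'| * |∑ x ∈ univ with x ∈ τ.YH H Γ m m,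
        (if τ.FA H Γ m m (gcodeN p dir b) x = 0 then (1 : ℝ) else -1)|
      ≤ Bd * (η / Bd * ∏ i, (Nat.card (cd.XB p dir i) : ℝ)) :=
        mul_le_mul hN0le hend (abs_nonneg _) hBd0.le
    _ = η * ∏ i, (Nat.card (cd.XB p dir i) : ℝ) := by field_simp

end Pool.Agent.SmNH
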