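import Pool.Agent.Lib.SmNH.I.FrR

/-!
# HEIGHTS over SMITH-U, block I: the relaxed Selmer group in terms of codes

`IsRel S (chiN p) b` (no condition at the bad places) iff `b` is coded by an element of `SelpN p`.
The good places are the places of the primes: `S.good = Set.range cd.pl`.
-/

set_option autoImplicit false

open Finset

namespace Pool.Agent.SmNH

open Pool.Agent.SmN Pool.Agent.SmN.IT

variable {G V V1 Pl : Type} [Group G] [AddCommGroup V] [DistribMulAction G V]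
  [AddCommGroup V1] [Module (ZMod 2) V1] {S : Sys G V V1 Pl} {X : PSys} {cd : CData S X}
  {J : Type} [Fintype J] {p : J → cd.Mk}

/-- The relaxed Selmer group is the set of the cocycles of the codes in `SelpN`. -/
theorem isRel_homN_iff (hS : S.Ok) (hc : cd.Ok) (hg : S.good = Set.range cd.pl)
    {c : cd.CodeN J} (hv : cd.ValidN p c) :
    IsRel S (cd.chiN p) (cd.homN p c) ↔ c ∈ cd.SelpN p := by
  constructor
  · rintro ⟨-, h2⟩
    exact ⟨hv, fun j => h2 _ (hc.pl_good _)⟩
  · intro hcS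
    refine ⟨CData.homN_coc hS hc hv, fun v hvg => ?_⟩
    rw [hg] at hvg
    obtain ⟨Q, rfl⟩ := hvg
    by_cases hQ : ∃ j, (p j).1 = Q
    · obtain ⟨j, rfl⟩ := hQ
      exact hcS.2 j
    · push Not at hQ
      rw [Sys.mem_Wl_good hS (CData.chiN_hom hS hc p) (hc.pl_good _) (CData.chiN_unr hc hQ)]
      exact CData.homN_unr hc hv hQ

/-- Every element of the relaxed Selmer group has a code. -/
theorem exists_code_of_isRel (hS : S.Ok) (hc : cd.Ok) (hg : S.good = Set.range cd.pl)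
    (hp : cd.PVecN p) {b : G → V1} (hb : IsRel S (cd.chiN p) b) :
    ∃ c ∈ cd.SelpN p, cd.homN p c = b := by
  obtain ⟨c, hv, hcc⟩ := CData.homN_surj_of hS hc hp hb.1 fun Q hQ => by
    have h1 := hb.2 (cd.pl Q) (hc.pl_good Q)
    rw [Sys.mem_Wl_good hS (CData.chiN_hom hS hc p) (hc.pl_good Q) (CData.chiN_unr hc hQ)] at h1
    exact h1
  refine ⟨c, ?_, hcc⟩
  rw [← isRel_homN_iff hS hc hg hv, hcc]
  exact hb

/-- `c ↦ homN p c` is a bijection from `SelpN p` to the relaxed Selmer group. -/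
theorem bijOn_homN_isRel (hS : S.Ok) (hc : cd.Ok) (hg : S.good = Set.range cd.pl)
    (hp : cd.PVecN p) : Set.BijOn (cd.homN p) (cd.SelpN p) {b | IsRel S (cd.chiN p) b} := by
  refine ⟨fun c hcS => (isRel_homN_iff hS hc hg hcS.1).mpr hcS,
    fun c hcS c' hcS' hcc => CData.homN_inj hc hp hcS.1 hcS'.1 hcc, fun b hb => ?_⟩
  obtain ⟨c, h1, h2⟩ := exists_code_of_isRel hS hc hg hp hb
  exact ⟨c, h1, h2⟩

/-- The relaxed Selmer group is finite, of the size of `SelpN`. -/
theorem card_isRelN (hS : S.Ok) (hc : cd.Ok) (hg : S.good = Set.range cd.pl) (hp : cd.PVecN p) :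
    {b | IsRel S (cd.chiN p) b}.Finite ∧
      {b | IsRel S (cd.chiN p) b}.ncard = Nat.card (cd.SelpN p) := by
  have := hS.fin1
  have h1 := bijOn_homN_isRel hS hc hg hp
  have hfin : (cd.SelpN p).Finite := Set.toFinite _
  refine ⟨h1.finite_iff_finite.1 hfin, ?_⟩
  rw [← h1.image_eq, h1.injOn.ncard_image, ← Nat.card_coe_set_eq]

theorem fn_sub_selpN (p : J → cd.Mk) : cd.FN p ⊆ cd.SelpN p :=
  fun _ hc => ⟨hc.1, fun j => hc.2.2 (cd.pl (p j).1)⟩

section grid

variable {m : ℕ} {dir : Dir m ↪ J}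

open Pool.Agent.SmN.CData

/-- The codes of the relaxed Selmer group do not depend on the point of `X^*`. -/
theorem selpN_rx (hS : S.Ok) (hc : cd.Ok) (hd : cd.DirOk p dir)
    {x : ∀ i, cd.XB p dir i} (hx : x ∈ (cd.gridN p dir).Xs) :
    cd.SelpN (rxN p dir x) = cd.SelpN p := by
  have h := frameRThm hS hc J _ m p dir hd x (xpN p dir) (by
    have := (mem_XsN x).1 hx
    change cd.DirEq dir (rxN p dir x) (rxN p dir (xpN p dir))
    rw [rxN_xp]
    exact this)
  have h1 : cd.SelpN (rxN p dir x) = cd.SelpN (rxN p dir (xpN p dir)) := h.1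
  rwa [rxN_xp] at h1

/-- The solutions of the inhomogeneous system do not depend on the point of `X^*`. -/
theorem inhN_rx (hS : S.Ok) (hc : cd.Ok) (hd : cd.DirOk p dir)
    {x : ∀ i, cd.XB p dir i} (hx : x ∈ (cd.gridN p dir).Xs) {a : cd.CodeN J}
    (ha : a ∈ cd.SelpN p) (w : cd.CodeN J) :
    (cd.ValidN (rxN p dir x) w ∧ ∀ l, cd.InhN (rxN p dir x) w a l) ↔
      (cd.ValidN p w ∧ ∀ l, cd.InhN p w a l) := by
  have h := frameRThm hS hc J _ m p dir hd x (xpN p dir) (by
    have := (mem_XsN x).1 hx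
    change cd.DirEq dir (rxN p dir x) (rxN p dir (xpN p dir))
    rw [rxN_xp]
    exact this)
  have ha' : a ∈ cd.SelpN (rxN p dir x) := by
    rw [selpN_rx hS hc hd hx]
    exact ha
  have h1 : (cd.ValidN (rxN p dir x) w ∧ ∀ l, cd.InhN (rxN p dir x) w a l) ↔
      (cd.ValidN (rxN p dir (xpN p dir)) w ∧ ∀ l, cd.InhN (rxN p dir (xpN p dir)) w a l) :=
    h.2.2 a ha' w
  rwa [rxN_xp] at h1

end grid

end Pool.Agent.SmNH
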