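import Pool.Agent.Lib.SmNH.I.DefsH
import Pool.Agent.Lib.SmNH.I.CodeR
import Pool.Agent.Lib.SmN.I.GridOkN

/-!
# HEIGHTS over SMITH-U, block I: the relaxed frame `FR`

The same as `SmN/I/Frame` (section frame theorem) for the relaxed Selmer groups, and the relaxed
frame of the grid `gridN` of a vector of marked primes: it is the set of the codes of `SelpN p`.
-/

set_option autoImplicit false

open Finset

namespace Pool.Agent.SmNH

open Pool.Agent.SmN Pool.Agent.SmN.IT Pool.Agent.SmN.Grid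

section abstract

variable {G V V1 Pl : Type*} [Group G] [AddCommGroup V] [DistribMulAction G V]
  [AddCommGroup V1] [Module (ZMod 2) V1] {S : Sys G V V1 Pl}
variable {ι : Type*} [Fintype ι] {X : ι → Type*} {Γ : Grid S X}

/-- The relaxed condition at all points of `X^*` follows from the one at one point. -/
theorem rel_transfer (hS : S.Ok) (hΓ : Γ.Ok) {c : GCode G V1 ι} (hc : Γ.IsC c) {x y : ∀ i, X i}
    (hx : x ∈ Γ.Xs) (hy : y ∈ Γ.Xs) (h : IsRel S (Γ.chi x) (Γ.ch c x)) :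
    IsRel S (Γ.chi y) (Γ.ch c y) := by
  refine ⟨ch_coc hS hΓ hc y, fun v hg => ?_⟩
  by_cases hv : v ∈ Γ.bad
  · have h1 := h.2 v hg
    rw [wl_congr_iff hS (chi_bad hΓ x y hv)] at h1
    obtain ⟨z, hz⟩ := ch_bad hΓ c y x hv
    have h2 : S.loc v (Γ.ch c y) = S.loc v (Γ.ch c x) + S.cob v z := by
      apply Prod.ext
      · change Γ.ch c y (S.sg v) = Γ.ch c x (S.sg v) + (S.ac (S.sg v) z - z)
        rw [← hz _ (hS.sg_mem v), add_sub_cancel]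
      · change Γ.ch c y (S.phi v) = Γ.ch c x (S.phi v) + (S.ac (S.phi v) z - z)
        rw [← hz _ (hS.phi_mem v), add_sub_cancel]
    rw [h2]
    exact (S.W (Γ.chi y) v).add_mem h1 (Sys.cob_mem_Wl hS (Γ.chi y) v z)
  · by_cases hvi : ∃ i, v = Γ.pl i (y i)
    · obtain ⟨i, rfl⟩ := hvi
      exact cond_pl hS hΓ hc hx hy i (h.2 _ (hΓ.bad_good _ (hΓ.pl_bad i (x i))))
    · have hvi' : ∀ i, v ≠ Γ.pl i (y i) := fun i hi => hvi ⟨i, hi⟩
      rw [Sys.mem_Wl_good hS (chi_hom hS hΓ y) (hΓ.bad_good v hv) (chi_sg_off hΓ y hv hvi')]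
      exact ch_sg_off hΓ hc y hv hvi'

theorem mem_FR (hS : S.Ok) (hΓ : Γ.Ok) {x : ∀ i, X i} (hx : x ∈ Γ.Xs) (c : GCode G V1 ι) :
    c ∈ FR Γ ↔ Γ.IsC c ∧ IsRel S (Γ.chi x) (Γ.ch c x) :=
  ⟨fun h => ⟨h.1, h.2 x hx⟩, fun h => ⟨h.1, fun _ hy => rel_transfer hS hΓ h.1 hx hy h.2⟩⟩

omit [Fintype ι] in
/-- A true Selmer element is in the relaxed group. -/
theorem isRel_of_sel1 {chi : G → ZMod 2} {b : G → V1} (hb : S.IsSel1 chi b) : IsRel S chi b :=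
  ⟨hb.1, fun v _ => hb.2 v⟩

theorem FF_sub_FR : Γ.FF ⊆ FR Γ := fun _ hc => ⟨hc.1, fun x hx => isRel_of_sel1 (hc.2 x hx)⟩

/-- The elements of the relaxed group are unramified outside of the bad places and of the places of
the point. -/
theorem rel_unr (hS : S.Ok) (hΓ : Γ.Ok) {x : ∀ i, X i} {b : G → V1}
    (hb : IsRel S (Γ.chi x) b) : ∀ v, v ∉ Γ.bad → (∀ i, v ≠ Γ.pl i (x i)) → b (S.sg v) = 0 := by
  intro v hv hvi
  have h1 := hb.2 v (hΓ.bad_good v hv)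
  rw [Sys.mem_Wl_good hS (chi_hom hS hΓ x) (hΓ.bad_good v hv) (chi_sg_off hΓ x hv hvi)] at h1
  exact h1

/-- `c ↦ c (x)` is a bijection from the relaxed frame to the relaxed Selmer group of the point `x` of
`X^*`. -/
theorem bijOn_ch_FR (hS : S.Ok) (hΓ : Γ.Ok) {x : ∀ i, X i} (hx : x ∈ Γ.Xs) :
    Set.BijOn (fun c => Γ.ch c x) (FR Γ) {b | IsRel S (Γ.chi x) b} := by
  refine ⟨fun c hc => hc.2 x hx, fun c hc d hd h => ch_inj hS hΓ x hc.1 hd.1 h, fun b hb => ?_⟩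
  obtain ⟨c, hc, hcb⟩ := code_exists hS hΓ x hb.1 (rel_unr hS hΓ hb)
  refine ⟨c, (mem_FR hS hΓ hx c).2 ⟨hc, ?_⟩, hcb⟩
  rw [hcb]
  exact hb

theorem ncard_FR (hS : S.Ok) (hΓ : Γ.Ok) {x : ∀ i, X i} (hx : x ∈ Γ.Xs) :
    Set.ncard {b | IsRel S (Γ.chi x) b} = Set.ncard (FR Γ) := by
  rw [← (bijOn_ch_FR hS hΓ hx).image_eq, (bijOn_ch_FR hS hΓ hx).injOn.ncard_image]

omit [Fintype ι] in
/-- The sum of two codes. -/
theorem isC_add (hS : S.Ok) {c c' : GCode G V1 ι} (hc : Γ.IsC c) (hc' : Γ.IsC c') :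
    Γ.IsC (c + c') :=
  ⟨cocG_add hS hc.1 hc'.1, fun v hv => by
    change c.1 (S.sg v) + c'.1 (S.sg v) = 0
    rw [hc.2 v hv, hc'.2 v hv, add_zero]⟩

theorem ch_add (hΓ : Γ.Ok) (c c' : GCode G V1 ι) (x : ∀ i, X i) :
    Γ.ch (c + c') x = Γ.ch c x + Γ.ch c' x := by
  funext s
  unfold Grid.ch
  simp only [Prod.fst_add, Prod.snd_add, Pi.add_apply, hΓ.be_add, sum_add_distrib]
  abel

theorem isRel_add (hS : S.Ok) {chi : G → ZMod 2} {b b' : G → V1}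
    (hb : IsRel S chi b) (hb' : IsRel S chi b') : IsRel S chi (b + b') :=
  ⟨cocG_add hS hb.1 hb'.1, fun v hv => (S.W chi v).add_mem (hb.2 v hv) (hb'.2 v hv)⟩

theorem FR_add (hS : S.Ok) (hΓ : Γ.Ok) {c c' : GCode G V1 ι} (hc : c ∈ FR Γ) (hc' : c' ∈ FR Γ) :
    c + c' ∈ FR Γ :=
  ⟨isC_add hS hc.1 hc'.1, fun x hx => by
    rw [ch_add hΓ]
    exact isRel_add hS (hc.2 x hx) (hc'.2 x hx)⟩

end abstract

section grid

open Pool.Agent.SmN.CData Pool.Agent.SmN.FrN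

variable {G V V1 Pl : Type} [Group G] [AddCommGroup V] [DistribMulAction G V]
  [AddCommGroup V1] [Module (ZMod 2) V1] {S : Sys G V V1 Pl} {X : PSys} {cd : CData S X}
  {J : Type} [Fintype J] {m : ℕ} {p : J → cd.Mk} {dir : Dir m ↪ J}

/-- The relaxed frame in terms of the codes over `J`. -/
theorem gcodeN_mem_FR (hS : S.Ok) (hc : cd.Ok) (hg : S.good = Set.range cd.pl)
    (hd : cd.DirOk p dir) {x : ∀ i, cd.XB p dir i} (hx : x ∈ (cd.gridN p dir).Xs)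
    {c : cd.CodeN J} (hv : cd.ValidN p c) :
    gcodeN p dir c ∈ FR (cd.gridN p dir) ↔ c ∈ cd.SelpN p := by
  rw [mem_FR hS (gridN_ok hS hc hd) hx, chi_gridN, ch_gridN,
    isRel_homN_iff hS hc hg ((valid_rxN hc hd x c).2 hv), selpN_rx hS hc hd hx]
  exact ⟨fun h1 => h1.2, fun h1 => ⟨gcodeN_isC hS hc hv, h1⟩⟩

/-- The relaxed frame is the image of `SelpN`. -/
theorem FR_eq_image (hS : S.Ok) (hc : cd.Ok) (hg : S.good = Set.range cd.pl)
    (hd : cd.DirOk p dir) {x : ∀ i, cd.XB p dir i} (hx : x ∈ (cd.gridN p dir).Xs) :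
    FR (cd.gridN p dir) = gcodeN p dir '' cd.SelpN p := by
  ext c
  constructor
  · intro hcF
    obtain ⟨c', hv, rfl⟩ := exists_gcodeN hS hc hd (gridN_ok hS hc hd) hcF.1
    exact ⟨c', (gcodeN_mem_FR hS hc hg hd hx hv).1 hcF, rfl⟩
  · rintro ⟨c', hc', rfl⟩
    exact (gcodeN_mem_FR hS hc hg hd hx hc'.1).2 hc'

end grid

end Pool.Agent.SmNH
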