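import Pool.Agent.Lib.SmNH.I.FrameR
import Pool.Agent.Lib.SmNH.G.ExW

/-!
# HEIGHTS over SMITH-U, block I: the code `w` of theorem T over the grid

If the code `w` satisfies the inhomogeneous conditions `InhN p w a` at the primes of the vector `p`,
then the local conditions of 4.2 hold at all the points of `X^*`.
-/

set_option autoImplicit false

open Finset

namespace Pool.Agent.SmNH

open Pool.Agent.SmN Pool.Agent.SmN.IT Pool.Agent.SmN.CData

variable {G V V1 Pl : Type} [Group G] [AddCommGroup V] [DistribMulAction G V]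
  [AddCommGroup V1] [Module (ZMod 2) V1] {S : Sys G V V1 Pl} {X : PSys} {cd : CData S X}
  {J : Type} [Fintype J] {m : ℕ} {p : J → cd.Mk} {dir : Dir m ↪ J}

/-- The local conditions of the code `w` at all the points of `X^*`. -/
theorem wcode_grid (hS : S.Ok) (hc : cd.Ok) (hg : S.good = Set.range cd.pl)
    (hd : cd.DirOk p dir) {deg : Pl → ℕ} (hdeg : ∀ P, deg (cd.pl P) = X.deg P)
    {a w : cd.CodeN J} (ha : a ∈ cd.SelpN p) (hwv : cd.ValidN p w)
    (hw : ∀ l, cd.InhN p w a l) {x : ∀ i, cd.XB p dir i} (hx : x ∈ (cd.gridN p dir).Xs) :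
    ∀ v ∈ S.good, S.loc v ((cd.gridN p dir).ch (gcodeN p dir w) x) -
      (0, (deg v : ZMod 2) • (cd.gridN p dir).ch (gcodeN p dir a) x (S.sg v)) ∈
        S.Wl ((cd.gridN p dir).chi x) v := by
  rw [chi_gridN, ch_gridN, ch_gridN]
  obtain ⟨h1, h2⟩ := (inhN_rx hS hc hd hx ha w).2 ⟨hwv, hw⟩
  exact ExW.wcode_loc hS hc hg hdeg h1 h2

end Pool.Agent.SmNH
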