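import Pool.Agent.Lib.SmNH.I.FinH
import Pool.Agent.Lib.SmNH.I.GenS
import Pool.Agent.Lib.SmNH.I.ClaimT
import Pool.Agent.Lib.SmNH.I.WGrid

/-!
# HEIGHTS over SMITH-U, block I: Theorem T over a vector of marked primes

`nth_zero_of_typ`: if no element `yp` of level `m + 1` above `a` has `q m (2 yp) = 0`, then
`NTH = 0` on the whole class. `gridThmT_of`: Theorem T, from the generation part `GenT`.
-/

set_option autoImplicit false

open Finset

namespace Pool.Agent.SmNH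

open Pool.Agent.SmN Pool.Agent.SmN.IT Pool.Agent.SmN.CData Pool.Agent.SmN.FrN

variable {G V V1 Pl M : Type} [Group G] [AddCommGroup V] [DistribMulAction G V]
  [AddCommGroup V1] [Module (ZMod 2) V1] [AddCommGroup M] [DistribMulAction G M]
  {S : Sys G V V1 Pl} {H : HData V M Pl} {X : PSys} {cd : CData S X}

/-- If at `p` no element `yp` of level `m + 1` above `a` has `q m (2 yp) = 0`, then `NTH = 0` at all
the vectors of the class. -/
theorem nth_zero_of_typ {J : Type} [Fintype J] {m : ℕ} {p p' : J → cd.Mk} {dir : Dir m ↪ J}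
    (hS : S.Ok) (hB : BadOk S) (hc : cd.Ok) (hg : S.good = Set.range cd.pl) (hp : cd.PVecN p)
    (hSel : cd.SelpN p' = cd.SelpN p) (hm : 1 ≤ m) (hT : TypEqH cd H dir m m p p')
    {a : cd.CodeN J}
    (hno : ¬ ∃ yp, AbvH cd p (m + 1) a yp ∧ q S H (cd.chiN p) m ((2 : ℕ) • yp) = 0) :
    NTH cd H p' m a = 0 := by
  have : IsEmpty {y : (G → V) × (Pl → V) // AbvH cd p' (m + 1) a y ∧
      q S H (cd.chiN p') m ((2 : ℕ) • y) = 0} := by
    refine ⟨fun ⟨y', hy', hq'⟩ => hno ?_⟩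
    obtain ⟨-, ⟨Th, hTh⟩, -⟩ := hT
    have hchi : S.HomG (cd.chiN p) := CData.chiN_hom hS hc p
    have hchi' : S.HomG (cd.chiN p') := CData.chiN_hom hS hc p'
    have hm1 : 2 ^ (m + 1 - 1) = 2 ^ (m - 1) * 2 := by
      obtain ⟨m, rfl⟩ := Nat.exists_eq_add_of_le' hm
      rw [Nat.add_sub_cancel, Nat.add_sub_cancel, pow_succ]
    have h2 : IsPr S (cd.chiN p') m ((2 : ℕ) • y') := hy'.pr.two
    obtain ⟨y, hy⟩ := hTh.right _ h2
    have h3 : IsPr S (cd.chiN p) m y := (hTh.lev _ _ hy m le_rfl).2 h2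
    have h4 : AbvH cd p' m a ((2 : ℕ) • y') := ⟨h2, fun s => by
      rw [← hy'.top s, hm1, mul_smul]
      rfl, hy'.val⟩
    have h5 : AbvH cd p m a y := (hTh.top _ _ hy m hm le_rfl a).2 h4
    obtain ⟨yp, h6, h7⟩ := (ctr_crit hS hB hchi h3).2 fun b hb => by
      obtain ⟨c, hcS, rfl⟩ := exists_code_of_isRel hS hc hg hp hb
      rw [← hTh.pair _ _ hy h3 c hcS]
      have hcS' : c ∈ cd.SelpN p' := by
        rw [hSel]
        exact hcS
      exact (ctr_crit hS hB hchi' h2).1 ⟨y', hy'.pr, rfl⟩ _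
        ((isRel_homN_iff hS hc hg hcS'.1).2 hcS')
    refine ⟨yp, ⟨h6, fun s => ?_, h5.val⟩, ?_⟩
    · rw [← h5.top s, ← h7, hm1, mul_smul]
      rfl
    · rw [h7, ← hTh.qq _ _ hy h3, hq']
  unfold NTH
  exact finsum_of_isEmpty _

/-- **Theorem T** over a vector of marked primes, from the generation part. -/
theorem gridThmT_of (hS : S.Ok) (hB : BadOk S) (hH : HOk S H) (hc : cd.Ok)
    (hg : S.good = Set.range cd.pl) (hdeg : ∀ P, H.deg (cd.pl P) = X.deg P) {Q : ℕ}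
    (hX : X.Ok Q) (hNf : ∀ N ∈ S.NN, N.index ≠ 0) {Geo : Subgroup G} {fr : G}
    (hG : CData.GeoOk (S := S) Geo fr) {a0 C : ℕ} (hC : cd.Cheb Geo fr Q a0 C) (m : ℕ)
    (hm : 1 ≤ m) (hGen : GenT cd hS hc H m) : GridThmT cd H Q m := by
  classical
  intro R η hη
  have := hS.fin1
  obtain ⟨C1, hC1⟩ := card_RS_le (cd := cd) hS hc
  -- the bound for `NTH`
  set Bd : ℕ := C1 * (2 ^ R) ^ (m + 1) with hBd
  obtain ⟨n₀, hn₀⟩ := fin_core (H := H) hS hc hX hNf hG hC m hm R Bd (Nat.cast_nonneg _) η hη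
  refine ⟨n₀, fun J _ p a w dir hd hn hF hwv hw ha hsu hbig => ?_⟩
  obtain ⟨su⟩ := hsu
  have hne : Nonempty J := ⟨dir none⟩
  have hmain := hn₀ J _ p dir hd hn hF hbig
  have hp : cd.PVecN p := hd.vec
  have hchi : S.HomG (cd.chiN p) := CData.chiN_hom hS hc p
  have hfin : ∀ i, Finite (cd.XB p dir i) := finite_XB hX.fin p dir
  let _ : ∀ i, Fintype (cd.XB p dir i) := fun i => Fintype.ofFinite _
  -- no lift with `q m (2 yp) = 0`
  by_cases hex : ∃ yp, AbvH cd p (m + 1) a yp ∧ q S H (cd.chiN p) m ((2 : ℕ) • yp) = 0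
  swap
  · rw [finsum_gridN (fun q => TypEqH cd H dir m m p q) (fun q => NTH cd H q m a),
      sum_eq_zero, abs_zero]
    · positivity
    · intro x hx
      have hT : TypEqH cd H dir m m p (rxN p dir x) := (mem_filter.1 hx).2
      have hxs : x ∈ (cd.gridN p dir).Xs := (mem_XsN x).2
        ⟨fun i l h => (hT.1.ch i l h).symm, fun i l h w => (hT.1.be i l h w).symm,
          fun i w => (hT.1.self i w).symm⟩
      exact nth_zero_of_typ hS hB hc hg hp (selpN_rx hS hc hd hxs) hm hT hex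
  obtain ⟨yp, hyp, hq0⟩ := hex
  have hm1 : 2 ^ (m + 1 - 1) = 2 ^ (m - 1) * 2 := by
    obtain ⟨m, rfl⟩ := Nat.exists_eq_add_of_le' hm
    rw [Nat.add_sub_cancel, Nat.add_sub_cancel, pow_succ]
  have htop : ∀ s, (2 : ℕ) ^ (m - 1) • ((2 : ℕ) • yp).1 s = S.iota (cd.homN p a s) := fun s => by
    rw [← hyp.top s, hm1, mul_smul]
    rfl
  have haM : a ∈ LH cd p m :=
    (mem_LflN_iff hS hc (hUp p) hp hm ⟨a, hyp.val⟩).2 ⟨_, hyp.pr.two.sel, htop⟩
  obtain ⟨n, cc, jl, sig, hn1, hA, hcc0, hccF, hs1, -, hs2⟩ := exists_bas hS hc hp hm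
    (fn_sub_selpN p) (BasH.ofSuppT su) haM
  have hnR : n + 1 ≤ R := (Nat.pow_le_pow_iff_right (by norm_num)).1 (hn1.trans hF)
  -- the codes of the relaxed group
  have hfr : ∀ x ∈ cd.SelpN p, ∀ i, i ≠ some none → x.2 (dir i) = 0 := by
    intro x hx i hi
    obtain ⟨α, z, hv⟩ := su.span x hx
    have h0 : ∀ l, (su.c l).2 (dir i) = 0 := by
      intro l
      rcases i with _ | _ | i
      · exact su.suppb l
      · exact absurd rfl hi
      · exact su.supp0 l i
    rw [hv]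
    have e1 : (cd.kapN J z + ∑ l, α l • su.c l).2 (dir i) =
        (cd.kapN J z).2 (dir i) + ∑ l, α l • (su.c l).2 (dir i) := by
      rw [Prod.snd_add, Pi.add_apply, Prod.snd_sum, Finset.sum_apply]
      rfl
    rw [e1, sum_eq_zero fun l _ => by rw [h0 l, smul_zero], add_zero]
    rfl
  have haS : a ∈ cd.SelpN p := fn_sub_selpN p (by
    have := hccF 0
    rwa [hcc0] at this)
  have hs2' : ∀ l i, i ∉ ({some none} : Finset (Dir m)) → (cc l).1.2 (dir i) = 0 := by
    intro l i hi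
    exact hfr (cc l).1 (fn_sub_selpN p (hccF l)) i fun hc' => hi (mem_singleton.2 hc')
  -- the towers
  have hy0 : AbvH cd p (jl 0) (cc 0).1 ((2 : ℕ) • yp) := by
    rw [hA.zero, hcc0]
    exact ⟨hyp.pr.two, htop, hyp.val⟩
  have hmem : ∀ l, ∃ y, AbvH cd p (jl l) (cc l).1 y ∧ (l = 0 → y = (2 : ℕ) • yp) := by
    intro l
    by_cases hl : l = 0
    · subst hl
      exact ⟨_, hy0, fun _ => rfl⟩
    · obtain ⟨y, hy⟩ := exists_abvH hS hc hp (hA.pos l)
        ((mem_LflN_iff_tw hS hc (hUp p) hp (hA.pos l) _).2 (hA.mem l))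
      exact ⟨y, hy, fun hh => absurd hh hl⟩
  choose y hy hyz using hmem
  have hy00 : y 0 = (2 : ℕ) • yp := hyz 0 rfl
  set Γ := cd.gridN p dir with hΓdef
  have hΓ : Γ.Ok := gridN_ok hS hc hd
  set τ := mkTwH H p dir (fun l => (cc l).1) jl (fun _ => {some none}) y with hτdef
  have hτ : τ.Ok Γ m := mkTwH_ok hS hc hd y hA hccF (fun l => (card_singleton _).le) hs2'
  obtain ⟨hY, N0', hN0, hwd⟩ := hGen J _ p dir hd n cc jl (fun _ => {some none}) y hA hccF hy
    ⟨yp, hyp.pr, hy00.symm⟩ (by rw [hy00]; exact hq0)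
  -- the bound for `N0'`
  have hN0le : |N0'| ≤ Bd := by
    have h1 := hN0 _ (mkTwH_mem (H := H) hy (m + 1))
    rw [rxN_xp] at h1
    obtain ⟨g1, g2⟩ := hC1 J _ hne p hp (2 ^ R) hF (m + 1)
    have h2 := nth_le (H := H) m (cc 0).1 g1
    rw [h1, abs_mul, abs_pow, abs_neg, abs_one, one_pow, one_mul] at h2
    refine h2.trans ?_
    rw [hBd]
    exact_mod_cast g2
  have hwe : (gcodeN p dir w).2 none = su.e' := su.wb
  refine hmain n τ (m + 1) (by omega) hτ rfl (τ.FT H Γ m (m + 1)) su.e' ?_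
    (fun q => TypEqH cd H dir m m p q) (fun q => NTH cd H q m a) N0' hN0le (fun hN => ?_) hY
    (fun x hx => ?_)
  · change S.e ((cc 0).1.2 (dir (some none))) su.e' = 1
    rw [hcc0, (BasH.ofSuppT su).suppa]
    exact su.pair
  · rw [← hwe]
    refine IC.claimT hS hB hH hΓ (wc := gcodeN p dir w) ?_ hm
    refine ⟨hτ, fun l => Subset.refl _, fun c hc' i hi => ?_, fun c hc' => ?_, ?_,
      gcodeN_isC hS hc hwv, fun i hi => ?_, fun x hx => ?_, hwd hN⟩
    · obtain ⟨c', hv, rfl⟩ := exists_gcodeN hS hc hd hΓ hc'.1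
      exact hfr c' ((gcodeN_mem_FR hS hc hg hd xpN_mem hv).1 hc') i hi
    · change CTr S (cd.chiN p) (y 0) (Γ.ch c (xpN p dir)) = 0
      have h1 : IsRel S (Γ.chi (xpN p dir)) (Γ.ch c (xpN p dir)) := hc'.2 _ xpN_mem
      rw [hΓdef, chi_gridN, rxN_xp] at h1
      have h2 := (hy 0).pr
      rw [hA.zero] at h2
      exact (ctr_crit hS hB hchi h2).1 ⟨yp, hyp.pr, hy00.symm⟩ _ h1
    · change q S H (cd.chiN p) m (comb y (Pi.single 0 1) 0) = 0
      have h2 : comb y (Pi.single 0 1) 0 = y 0 := by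
        unfold comb
        rw [sum_eq_single (0 : Fin (n + 1))]
        · rw [Pi.single_eq_same, one_smul]
          exact add_zero _
        · intro l _ hl
          rw [Pi.single_eq_of_ne hl, zero_smul]
        · intro hn
          exact absurd (mem_univ _) hn
      rw [h2, hy00]
      exact hq0
    · change w.2 (dir i) = 0
      rcases i with _ | _ | i
      · exact absurd rfl hi
      · exact su.wa
      · exact su.w0 i
    · change ∀ v ∈ S.good, S.loc v (Γ.ch (gcodeN p dir w) x) -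
        (0, (H.deg v : ZMod 2) • Γ.ch (gcodeN p dir (cc 0).1) x (S.sg v)) ∈ S.Wl (Γ.chi x) v
      rw [hcc0]
      exact wcode_grid hS hc hg hd hdeg haS hwv hw hx
  · rw [← hcc0]
    exact hN0 x hx

end Pool.Agent.SmNH
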