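import Pool.Agent.Lib.SmNH.I.GenA
import Pool.Agent.Lib.SmNH.I.ThmA
import Pool.Agent.Lib.SmNH.I.ThmT

/-!
# HEIGHTS over SMITH-U, block I: theorems A and T on the grid
-/

set_option autoImplicit false

namespace Pool.Agent.SmNH

open Pool.Agent.SmN

variable {G V V1 Pl M : Type} [Group G] [AddCommGroup V] [DistribMulAction G V]
  [AddCommGroup V1] [Module (ZMod 2) V1] [AddCommGroup M] [DistribMulAction G M]

/-- **Theorem A** (grid form). -/
theorem gridThmA {S : Sys G V V1 Pl} {H : HData V M Pl} {X : PSys} {cd : CData S X}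
    (hS : S.Ok) (hB : BadOk S) (hH : HOk S H) (hc : cd.Ok) (hg : S.good = Set.range cd.pl)
    {q : ℕ} (hX : X.Ok q) (hNf : ∀ N ∈ S.NN, N.index ≠ 0) {Geo : Subgroup G} {fr : G}
    (hG : CData.GeoOk (S := S) Geo fr) {a0 C : ℕ} (hC : cd.Cheb Geo fr q a0 C) (m : ℕ)
    (hm : 1 ≤ m) : GridThmA cd H q m :=
  gridThmA_of hS hH hc hg hX hNf hG hC m hm (genA hS hB hH hc hg hm)

/-- **Theorem T** (grid form). -/
theorem gridThmT {S : Sys G V V1 Pl} {H : HData V M Pl} {X : PSys} {cd : CData S X}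
    (hS : S.Ok) (hB : BadOk S) (hH : HOk S H) (hc : cd.Ok) (hg : S.good = Set.range cd.pl)
    (hdeg : ∀ P, H.deg (cd.pl P) = X.deg P) {Q : ℕ} (hX : X.Ok Q)
    (hNf : ∀ N ∈ S.NN, N.index ≠ 0) {Geo : Subgroup G} {fr : G}
    (hG : CData.GeoOk (S := S) Geo fr) {a0 C : ℕ} (hC : cd.Cheb Geo fr Q a0 C) (m : ℕ)
    (hm : 1 ≤ m) : GridThmT cd H Q m :=
  gridThmT_of hS hB hH hc hg hdeg hX hNf hG hC m hm (genT hS hB hH hc hg hm)

end Pool.Agent.SmNH
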