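import Pool.Agent.Lib.SmNH.I.FinS
import Pool.Agent.Lib.SmNH.I.DefsH
import Pool.Agent.Lib.SmN.L.Key

/-!
# HEIGHTS over SMITH-U, block I: two points of a big block

Two points of a big block (any direction symbols): the characters agree on the decomposition groups of
the bad places (`chiN_bad`, `isLoc_rxN`), the conditions at the primes off the directions are the same
(`loc_off_rxN`), and the relaxed Selmer groups have comparable sizes (`card_selpN_rxN`).
-/

set_option autoImplicit false

open Finset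

namespace Pool.Agent.SmNH

open Pool.Agent.SmN Pool.Agent.SmN.IT Pool.Agent.SmN.CData Pool.Agent.SmN.FrN

variable {G V V1 Pl : Type} [Group G] [AddCommGroup V] [DistribMulAction G V]
  [AddCommGroup V1] [Module (ZMod 2) V1] {S : Sys G V V1 Pl} {X : PSys} {cd : CData S X}
  {J : Type} [Fintype J] {m : ℕ} {p : J → cd.Mk} {dir : Dir m ↪ J}

/-- The characters of two points of a big block agree at the bad places. -/
theorem chiN_bad (hc : cd.Ok) (x y : ∀ i, cd.XB p dir i) {v : Pl} (hv : v ∉ S.good) :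
    ∀ s ∈ S.D v, cd.chiN (rxN p dir x) s = cd.chiN (rxN p dir y) s := by
  have hvr : v ∉ Set.range cd.pl := by
    rintro ⟨P, rfl⟩
    exact hv (hc.pl_good P)
  intro s hs
  rw [CData.chiN, CData.chiN]
  congr 1
  refine sum_congr rfl fun l _ => ?_
  by_cases hl : ∃ i', dir i' = l
  · obtain ⟨i', rfl⟩ := hl
    rw [rxN_dir, rxN_dir]
    exact (hc.kf_bad _ _ ((x i').2.2.1.trans (y i').2.2.1.symm) v hvr).1 s hs
  · push Not at hl
    rw [rxN_off _ hl, rxN_off _ hl]

theorem isLoc_rxN (hc : cd.Ok) (x y : ∀ i, cd.XB p dir i) {w : Pl → V}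
    (hw : IsLoc S (cd.chiN (rxN p dir x)) w) : IsLoc S (cd.chiN (rxN p dir y)) w := by
  refine ⟨hw.1, fun v hv s hs => ?_⟩
  have h1 := hw.2 v hv s hs
  rw [dl, tw, chiN_bad hc x y hv s hs] at h1
  exact h1

/-- The symbols at a prime off the directions. -/
theorem ch_off_rxN (hc : cd.Ok) (hd : cd.DirOk p dir) (x y : ∀ i, cd.XB p dir i) {j : J}
    (hj : ∀ i, dir i ≠ j) (l : J) :
    cd.ch (rxN p dir x l).1 (cd.phx (p j)) = cd.ch (rxN p dir y l).1 (cd.phx (p j)) := by
  by_cases hl : ∃ i, dir i = l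
  · obtain ⟨i, rfl⟩ := hl
    obtain ⟨Rr, hR⟩ := hc.ch_rec
    have hne : ∀ z : ∀ i, cd.XB p dir i, (rxN p dir z (dir i)).1 ≠ (p j).1 := fun z he => by
      rw [← rxN_off z hj] at he
      exact hj i (pvec_rxN hd z he)
    have e1 := hR _ _ (hne x)
    have e2 := hR _ _ (hne y)
    have e3 : cd.kf (cd.phx (rxN p dir x (dir i))) = cd.kf (cd.phx (rxN p dir y (dir i))) := by
      rw [rxN_dir, rxN_dir]
      exact (x i).2.2.1.trans (y i).2.2.1.symm
    have e4 : cd.ch (p j).1 (cd.phx (rxN p dir x (dir i))) =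
        cd.ch (p j).1 (cd.phx (rxN p dir y (dir i))) := by
      rw [rxN_dir, rxN_dir]
      exact ((x i).2.2.2 j hj).1.trans ((y i).2.2.2 j hj).1.symm
    rw [e3, ← e2, e4] at e1
    exact add_right_cancel e1
  · push Not at hl
    rw [rxN_off _ hl, rxN_off _ hl]

/-- The conditions at the primes off the directions are the same at all points of a big block. -/
theorem loc_off_rxN (hS : S.Ok) (hc : cd.Ok) (hd : cd.DirOk p dir) (x y : ∀ i, cd.XB p dir i)
    {c : cd.CodeN J} {j : J} (hj : ∀ i, dir i ≠ j)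
    (h : S.loc (cd.pl (rxN p dir x j).1) (cd.homN (rxN p dir x) c) ∈
      S.Wl (cd.chiN (rxN p dir x)) (cd.pl (rxN p dir x j).1)) :
    S.loc (cd.pl (rxN p dir y j).1) (cd.homN (rxN p dir y) c) ∈
      S.Wl (cd.chiN (rxN p dir y)) (cd.pl (rxN p dir y j).1) := by
  have hchi := CData.chiN_hom hS hc (rxN p dir x)
  have hchi' := CData.chiN_hom hS hc (rxN p dir y)
  rw [rxN_off _ hj] at h ⊢
  refine wl_transfer hS ?_ (loc_homN_sub _ fun l => ?_) h
  · have hd' : S.HomG (fun s => cd.chiN (rxN p dir x) s - cd.chiN (rxN p dir y) s) :=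
      homG_sub hS hchi hchi'
    have hram : ∀ z : ∀ i, cd.XB p dir i, cd.chiN (rxN p dir z) (S.sg (cd.pl (p j).1)) = 1 := by
      intro z
      have e2 := CData.chiN_ram hc (pvec_rxN hd z) j
      rwa [rxN_off _ hj] at e2
    have h1 := homG_D hS hd' (cd.pl (p j).1) (by rw [hram x, hram y, sub_self]) (by
      have e3 : ∀ q : J → cd.Mk, cd.chiN q (S.phi (cd.pl (p j).1)) =
          cd.chiN q (cd.phx (p j)) := fun q => by
        rw [CData.phx, homG_conj (CData.chiN_hom hS hc q).2]
      rw [e3, e3, CData.chiN, CData.chiN, add_sub_add_left_eq_sub, ← sum_sub_distrib]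
      exact sum_eq_zero fun l _ => by rw [ch_off_rxN hc hd x y hj l, sub_self])
    exact fun s hs => sub_eq_zero.1 (h1 s hs)
  · by_cases hl : ∃ i', dir i' = l
    · obtain ⟨i', rfl⟩ := hl
      have hne : ∀ z : ∀ i, cd.XB p dir i, (p j).1 ≠ (rxN p dir z (dir i')).1 := fun z he => by
        rw [← rxN_off z hj] at he
        exact hj i' (pvec_rxN hd z he.symm)
      refine rec_off hS hc (split_rxN hc hd x i') (split_rxN hc hd y i') (hne x) (hne y) ?_
        (fun w' hw' => ?_) _
      · rw [rxN_dir, rxN_dir]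
        exact (x i').2.2.1.trans (y i').2.2.1.symm
      · rw [rxN_dir, rxN_dir]
        exact (((x i').2.2.2 j hj).2 w' hw').trans (((y i').2.2.2 j hj).2 w' hw').symm
    · push Not at hl
      refine ⟨0, ?_⟩
      rw [rxN_off _ hl, rxN_off _ hl, sub_self]
      refine Prod.ext ?_ ?_
      · change (0 : V1) = S.ac _ 0 - 0
        rw [map_zero, sub_zero]
      · change (0 : V1) = S.ac _ 0 - 0
        rw [map_zero, sub_zero]

/-- The sizes of the relaxed Selmer groups at the points of a big block. -/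
theorem card_selpN_rxN (hS : S.Ok) (hc : cd.Ok) (hd : cd.DirOk p dir)
    (x : ∀ i, cd.XB p dir i) :
    Nat.card (cd.SelpN (rxN p dir x)) ≤
      (Nat.card V1 * Nat.card V1) ^ (m + 2) * Nat.card (cd.SelpN p) := by
  have := hS.fin1
  let f : cd.SelpN (rxN p dir x) → Dir m → V1 × V1 := fun c i =>
    S.loc (cd.pl (p (dir i)).1) (cd.homN p c.1)
  have h1 := card_le_fibres f (Nat.card (cd.SelpN p)) fun b => ?_
  · rw [Nat.card_fun, Nat.card_prod] at h1
    have h2 : Nat.card (Dir m) = m + 2 := by
      rw [Nat.card_eq_fintype_card]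
      simp [Dir]
    rwa [h2] at h1
  · by_cases hne : Nonempty {a // f a = b}
    · obtain ⟨a0⟩ := hne
      have hval : ∀ a : cd.SelpN (rxN p dir x), cd.ValidN p a.1 := fun a =>
        (valid_rxN hc hd x a.1).1 a.2.1
      let g : {a // f a = b} → cd.SelpN p := fun a => ⟨a.1.1 + a0.1.1, by
        have hv := (cd.VF p).add_mem (hval a.1) (hval a0.1)
        refine ⟨hv, fun j => ?_⟩
        by_cases hj : ∃ i, dir i = j
        · obtain ⟨i, rfl⟩ := hj
          have e1 : S.loc (cd.pl (p (dir i)).1) (cd.homN p a.1.1) =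
              S.loc (cd.pl (p (dir i)).1) (cd.homN p a0.1.1) :=
            (congrFun a.2 i).trans (congrFun a0.2 i).symm
          have e2 : S.loc (cd.pl (p (dir i)).1) (cd.homN p (a.1.1 + a0.1.1)) = 0 := by
            rw [homN_add hc (hval a.1) (hval a0.1), Sys.loc_add, e1]
            exact Prod.ext (V1_add_self _) (V1_add_self _)
          rw [e2]
          exact (S.W (cd.chiN p) (cd.pl (p (dir i)).1)).zero_mem
        · push Not at hj
          have h3 := selpN_add hc a.1.2 a0.1.2
          have h4 := loc_off_rxN hS hc hd x (xpN p dir) hj (h3.2 j)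
          rwa [rxN_xp] at h4⟩
      have hg : Function.Injective g := by
        intro a a' h
        have e1 : a.1.1 + a0.1.1 = a'.1.1 + a0.1.1 := congrArg Subtype.val h
        exact Subtype.ext (Subtype.ext (add_right_cancel e1))
      exact Nat.card_le_card_of_injective g hg
    · rw [not_nonempty_iff] at hne
      rw [Nat.card_of_isEmpty]
      exact Nat.zero_le _

end Pool.Agent.SmNH
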