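import Pool.Agent.Lib.SmNH.I.DefsH
import Pool.Agent.Lib.SmNH.G.ConjR
import Pool.Agent.Lib.SmN.I.Claim

/-!
# SmNH, block I5, common part of the claims A and T (port of `Lib/SmH/I/Claim0.lean`)

The completed rigid family `lst` over the cube `(x0, x)` of a good point `x`: all its values are rigid
Selmer elements of level `jl l`, the faces are minimal, the last value is a tower at the point `x`.
-/

set_option autoImplicit false

open Finset

namespace Pool.Agent.SmNH.IC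

open Pool.Agent.SmN Pool.Agent.SmN.IT Pool.Agent.SmA
open Pool.Agent.SmN.IC (exists_notMem subset_erase ch_congr phiC_congr)

variable {G V V1 Pl M : Type*} [Group G] [AddCommGroup V] [DistribMulAction G V]
  [AddCommGroup V1] [Module (ZMod 2) V1] [AddCommGroup M] [DistribMulAction G M]
variable {S : Sys G V V1 Pl} {H : HData V M Pl}
variable {ι : Type*} [Fintype ι] [DecidableEq ι] {X : ι → Type*} {r k kk : ℕ} {Γ : Grid S X}
  {τ : TwH G V V1 Pl M ι r} {x0 x : ∀ i, X i}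

omit [DecidableEq ι] in
theorem yy_spec (h : x ∈ τ.YH H Γ k kk) : τ.IsSys H Γ k kk x (τ.yy H Γ k kk x) := by
  unfold TwH.yy
  rw [dif_pos h.2]
  exact h.2.choose_spec

/-- All the vertices but the last one are points of the type with the colour of `x0`. -/
theorem good_vertex (h : τ.GoodH H Γ k kk x0 x) {T : Finset ι} (hT : T ≠ univ) :
    mix T x0 x ∈ τ.YH H Γ k kk ∧ τ.colH H Γ k kk (mix T x0 x) = τ.colH H Γ k kk x0 := by
  obtain ⟨i, hi⟩ := exists_notMem hT
  exact (h i).2.1 T (subset_erase hi)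

theorem good_ne (hcard : 2 ≤ Fintype.card ι) (h : τ.GoodH H Γ k kk x0 x) (i : ι) :
    Γ.pl i (x0 i) ≠ Γ.pl i (x i) := by
  have h1 : 1 < Fintype.card ι := hcard
  obtain ⟨j, hj⟩ := Fintype.exists_ne_of_one_lt_card h1 i
  exact (h j).1 i (mem_erase.2 ⟨hj.symm, mem_univ i⟩)

theorem good_symOk (hcard : 3 ≤ Fintype.card ι) (h : τ.GoodH H Γ k kk x0 x) : Γ.SymOk x0 x :=
  Grid.symOk_of_mix hcard fun _ hT => (good_vertex h hT).1.1

theorem good_mem_Xs (hcard : 3 ≤ Fintype.card ι) (h : τ.GoodH H Γ k kk x0 x) (T : Finset ι) :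
    mix T x0 x ∈ Γ.Xs :=
  Grid.mem_Xs_of_symOk (good_symOk hcard h) T

theorem good_cubeOk (hS : S.Ok) (hΓ : Γ.Ok) (hcard : 3 ≤ Fintype.card ι)
    (h : τ.GoodH H Γ k kk x0 x) :
    CubeOk (S.conj (Γ.cg x0 x)) (Γ.chi x0) (Γ.del x0 x) (Γ.plc x0 x) :=
  Grid.cubeOk hS hΓ (good_ne (by omega) h) (good_symOk hcard h)

omit [Fintype ι] [DecidableEq ι] in
/-- There is no conjugation at the bad places. -/
theorem cg_bad (hΓ : Γ.Ok) (x0 x : ∀ i, X i) : ∀ v, v ∉ S.good → Γ.cg x0 x v = 1 :=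
  fun _ hv => Grid.cg_off fun i e he => hv (he ▸ Grid.plc_good hΓ x0 x i e)

theorem chiC_homG (hS : S.Ok) (hΓ : Γ.Ok) (x0 x : ∀ i, X i) (P : Finset ι) :
    S.HomG (chiC (Γ.chi x0) (Γ.del x0 x) P) :=
  chiC_hom hS (Grid.chi_hom hS hΓ x0) (Grid.del_hom hS hΓ x0 x) P

/-- Rigid Selmer elements of the conjugated system. -/
theorem conj_pr (hS : S.Ok) (hΓ : Γ.Ok) (x0 x : ∀ i, X i) (P : Finset ι) (j : ℕ)
    (y : (G → V) × (Pl → V)) :
    IsPr (S.conj (Γ.cg x0 x)) (chiC (Γ.chi x0) (Γ.del x0 x) P) j y ↔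
      IsPr S (chiC (Γ.chi x0) (Γ.del x0 x) P) j y :=
  conj_isPr (cg_bad hΓ x0 x) (chiC_homG hS hΓ x0 x P)

/-- The relaxed Selmer group of the conjugated system. -/
theorem conj_rel (hS : S.Ok) (hΓ : Γ.Ok) (x0 x : ∀ i, X i) (P : Finset ι) (b : G → V1)
    (g : Pl → G) : IsRel (S.conj g) (chiC (Γ.chi x0) (Γ.del x0 x) P) b ↔
      IsRel S (chiC (Γ.chi x0) (Γ.del x0 x) P) b :=
  conj_isRel hS (chiC_homG hS hΓ x0 x P)

/-- The tower of the vertex `T ≠ univ`. -/
theorem good_fam (h : τ.GoodH H Γ k kk x0 x) (l : Fin (r + 1)) {T : Finset ι} (hT : T ≠ univ) :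
    τ.IsTow Γ kk (mix T x0 x) l (τ.fam H Γ k kk x0 x l T) :=
  (yy_spec (good_vertex h hT).1).tow l

/-- The Selmer cocycles of the towers. -/
noncomputable abbrev ps (τ : TwH G V V1 Pl M ι r) (H : HData V M Pl) (Γ : Grid S X) (k kk : ℕ)
    (x0 x : ∀ i, X i) (l : Fin (r + 1)) : Finset ι → G → V :=
  fun T => (τ.fam H Γ k kk x0 x l T).1

theorem good_mn (h : τ.GoodH H Γ k kk x0 x) (l : Fin (r + 1)) {U P : Finset ι}
    (hUP : Disjoint U P) (hσ : Disjoint U (τ.sig l)) (h0 : U.Nonempty) (hj : U.card ≤ τ.jl l)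
    (hne : P ∪ U ≠ univ) : Mn (τ.jl l) (ps τ H Γ k kk x0 x l) U P := by
  obtain ⟨i, hi⟩ := exists_notMem hne
  rw [mem_union, not_or] at hi
  refine (h i).2.2 l U (subset_erase hi.2) h0 hj hσ P ?_
  intro a ha
  rw [mem_sdiff]
  exact ⟨subset_erase hi.1 ha, fun hc => disjoint_left.1 hUP hc ha⟩

/-- The completed family. -/
noncomputable def lst (τ : TwH G V V1 Pl M ι r) (H : HData V M Pl) (Γ : Grid S X) (k kk : ℕ)
    (x0 x : ∀ i, X i) (l : Fin (r + 1)) (T : Finset ι) : (G → V) × (Pl → V) :=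
  (lastFam (univ \ τ.sig l) (ps τ H Γ k kk x0 x l) T, (τ.yy H Γ k kk x0 l).2)

theorem lst_of_ne (h : τ.GoodH H Γ k kk x0 x) (l : Fin (r + 1)) {T : Finset ι} (hT : T ≠ univ) :
    lst τ H Γ k kk x0 x l T = τ.fam H Γ k kk x0 x l T := by
  unfold lst
  rw [lastFam_of_ne _ _ hT]
  refine Prod.ext rfl ?_
  exact (congrFun (congrArg Prod.snd (good_vertex h hT).2) l).symm

theorem lst_fst_of_ne (l : Fin (r + 1)) {T : Finset ι} (hT : T ≠ univ) :
    (lst τ H Γ k kk x0 x l T).1 = (τ.fam H Γ k kk x0 x l T).1 :=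
  lastFam_of_ne _ _ hT

/-- H5 for the grid. -/
theorem good_last (hS : S.Ok) (hΓ : Γ.Ok) (hτ : τ.Ok Γ k) (hk : 1 ≤ k)
    (hI : Fintype.card ι = k + 2) (h : τ.GoodH H Γ k kk x0 x) (l : Fin (r + 1)) :
    (∀ P, S.IsSel (chiC (Γ.chi x0) (Γ.del x0 x) P) (τ.jl l) (lst τ H Γ k kk x0 x l P).1) ∧
    (∀ U P, Disjoint U P → Disjoint U (τ.sig l) → U.Nonempty → U.card ≤ τ.jl l →
      Mn (τ.jl l) (fun T => (lst τ H Γ k kk x0 x l T).1) U P) := by
  have key := last_vertex (hS.conj (Γ.cg x0 x)) (good_cubeOk hS hΓ (by omega) h) (hτ.jl_le l) hI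
    (hτ.sig_card l) (Psi := ps τ H Γ k kk x0 x l) ?_ ?_
  · exact ⟨fun P => (SmN.IC.conj_sel hS hΓ x0 x P _ _ _).1 (key.1 P), key.2⟩
  · intro P hP
    have h1 := (good_fam h l hP).pr.sel
    rw [Grid.chi_mix] at h1
    exact (SmN.IC.conj_sel hS hΓ x0 x P _ _ _).2 h1
  · intro U P hUP hσ h0 hj hne
    exact good_mn h l hUP hσ h0 hj hne

theorem good_star (hS : S.Ok) (hΓ : Γ.Ok) (hτ : τ.Ok Γ k) (hk : 1 ≤ k)
    (hI : Fintype.card ι = k + 2) (h : τ.GoodH H Γ k kk x0 x) (l : Fin (r + 1)) :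
    Star univ (τ.jl l) (fun T => (lst τ H Γ k kk x0 x l T).1) := by
  have h1 := good_last hS hΓ hτ hk hI h l
  exact star_of_min (hτ.sig_card l) (fun P _ s => (h1.1 P).lev s)
    (fun U P _ _ h2 h3 h4 h5 => h1.2 U P h2 h3 h4 h5)

/-- Rigid H5: the values of the completed family are rigid Selmer elements. -/
theorem good_pr (hS : S.Ok) (hΓ : Γ.Ok) (hτ : τ.Ok Γ k) (hk : 1 ≤ k)
    (hI : Fintype.card ι = k + 2) (h : τ.GoodH H Γ k kk x0 x) (l : Fin (r + 1)) (P : Finset ι) :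
    IsPr S (chiC (Γ.chi x0) (Γ.del x0 x) P) (τ.jl l) (lst τ H Γ k kk x0 x l P) := by
  have hne0 : (∅ : Finset ι) ≠ univ := by
    intro he
    have := congrArg Finset.card he
    rw [card_empty, card_univ] at this
    omega
  by_cases hP : P = univ
  · subst hP
    refine ⟨(good_last hS hΓ hτ hk hI h l).1 univ, fun v hv s hs => ?_, fun v hv => ?_⟩
    · -- all the twists agree at the bad places
      have hdel : ∀ i, Γ.del x0 x i s = 0 := fun i => Grid.del_bad hΓ x0 x i (by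
        by_contra hc
        exact hv (hΓ.bad_good v hc)) s hs
      have hchi : ∀ T : Finset ι, chiC (Γ.chi x0) (Γ.del x0 x) T s = Γ.chi x0 s := fun T => by
        unfold chiC
        rw [sum_eq_zero fun i _ => hdel i, add_zero]
      set c : V := dl (Γ.chi x0) ((τ.yy H Γ k kk x0 l).2 v) s with hc
      have hval : ∀ T, T ≠ univ → lastFam (univ \ τ.sig l) (ps τ H Γ k kk x0 x l) T s = c := by
        intro T hT
        rw [lastFam_of_ne _ _ hT]
        have h1 := (good_fam h l hT).pr.loc v hv s hs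
        change (τ.fam H Γ k kk x0 x l T).1 s = c
        rw [h1, Grid.chi_mix, dl_congr (hchi T), hc]
        congr 1
        exact congrFun (congrFun (congrArg Prod.snd (good_vertex h hT).2) l) v
      change lastFam (univ \ τ.sig l) (ps τ H Γ k kk x0 x l) univ s = dl _ _ s
      rw [dl_congr (hchi univ)]
      set R : Finset ι := univ \ τ.sig l with hR
      have hRne : R.Nonempty := by
        rw [← Finset.card_pos]
        have h1 : (univ : Finset ι).card - (τ.sig l).card ≤ R.card :=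
          Finset.le_card_sdiff (τ.sig l) univ
        have h2 := hτ.sig_card l
        rw [card_univ, hI] at h1
        omega
      have h2 := alt_lastFam_top R (ps τ H Γ k kk x0 x l) s
      have h3 : alt R (fun T => lastFam R (ps τ H Γ k kk x0 x l) T s - c) (univ \ R) = 0 := by
        have e : (fun T => lastFam R (ps τ H Γ k kk x0 x l) T s - c) =
          (fun T => (fun T => lastFam R (ps τ H Γ k kk x0 x l) T s) T - (fun _ => c) T) := rfl
        rw [e, alt_sub, h2, alt_const hRne, sub_zero]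
      have h4 := last_eq_zero R (fun T => lastFam R (ps τ H Γ k kk x0 x l) T s - c)
        (fun T hT hne => by
          beta_reduce
          rw [hval _ (ne_univ_of_ne hT hne), sub_self]) h3
      exact sub_eq_zero.1 h4
    · exact (yy_spec (by
        have h1 := (good_vertex h hne0).1
        rwa [show mix ∅ x0 x = x0 from by funext j; simp [mix]] at h1)).tow l |>.pr.off v hv
  · rw [lst_of_ne h l hP, ← Grid.chi_mix]
    exact (good_fam h l hP).pr

theorem good_base (hS : S.Ok) (hΓ : Γ.Ok) (hτ : τ.Ok Γ k) (hk : 1 ≤ k)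
    (hI : Fintype.card ι = k + 2) (h : τ.GoodH H Γ k kk x0 x) (l : Fin (r + 1)) (s : G) :
    (2 : ℕ) ^ (τ.jl l - 1) • (lst τ H Γ k kk x0 x l univ).1 s = S.iota (Γ.ch (τ.c l) x s) := by
  -- a direction outside of the support
  obtain ⟨i, hi⟩ : ∃ i, i ∉ τ.sig l := by
    apply Pool.Agent.SmN.IC.exists_notMem
    intro he
    have h1 := hτ.sig_card l
    rw [he, card_univ] at h1
    omega
  have h1 := (good_last hS hΓ hτ hk hI h l).2 {i} (univ.erase i) (by simp)
    (disjoint_singleton_left.2 hi) (singleton_nonempty i) (by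
      rw [card_singleton]
      exact hτ.jl_pos l) s
  rw [alt_singleton, card_singleton, insert_erase (mem_univ i)] at h1
  beta_reduce at h1
  have hne : (univ.erase i : Finset ι) ≠ univ := fun he => by
    have := notMem_erase i (univ : Finset ι)
    rw [he] at this
    exact this (mem_univ i)
  rw [lst_fst_of_ne l hne] at h1
  rw [← sub_eq_zero.1 h1, (good_fam h l hne).base]
  congr 1
  refine ch_congr hΓ (fun j => ?_) s
  by_cases hj : j = i
  · subst hj
    exact Or.inr (hτ.supp l j hi)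
  · left
    exact mix_mem x0 x (mem_erase.2 ⟨hj, mem_univ j⟩)

/-- The Q-parts of the completed family do not depend on the vertex. -/
theorem lst_snd (l : Fin (r + 1)) (T T' : Finset ι) :
    (lst τ H Γ k kk x0 x l T).2 = (lst τ H Γ k kk x0 x l T').2 := rfl

/-- The relaxed code `d` at the vertices. -/
theorem good_b (hS : S.Ok) (hΓ : Γ.Ok) (hcard : 3 ≤ Fintype.card ι)
    (h : τ.GoodH H Γ k kk x0 x) {d : GCode G V1 ι} (hd : d ∈ FR Γ) (g : Pl → G) (T : Finset ι) :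
    IsRel (S.conj g) (chiC (Γ.chi x0) (Γ.del x0 x) T) (bC (Γ.ch d x0) (Γ.dbe d.2 x0 x) T) := by
  rw [conj_rel hS hΓ, ← Grid.chi_mix, ← Grid.ch_mix]
  exact hd.2 _ (good_mem_Xs hcard h T)

/-- The rigid pairing of the conjugated system at the vertices. -/
theorem conj_ctr (hS : S.Ok) (hΓ : Γ.Ok) (hcard : 3 ≤ Fintype.card ι)
    (h : τ.GoodH H Γ k kk x0 x) {d : GCode G V1 ι} (hd : d ∈ FR Γ) {j : ℕ} {T : Finset ι}
    {y : (G → V) × (Pl → V)} (hy : IsPr S (chiC (Γ.chi x0) (Γ.del x0 x) T) j y) :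
    CTr (S.conj (Γ.cg x0 x)) (chiC (Γ.chi x0) (Γ.del x0 x) T) y
        (bC (Γ.ch d x0) (Γ.dbe d.2 x0 x) T) =
      CTr S (Γ.chi (mix T x0 x)) y (Γ.ch d (mix T x0 x)) := by
  rw [conj_CTr (cg_bad hΓ x0 x) hS (chiC_homG hS hΓ x0 x T) hy
    ((conj_rel hS hΓ x0 x T _ _).1 (good_b hS hΓ hcard h hd (Γ.cg x0 x) T)), Grid.chi_mix,
    Grid.ch_mix]

/-- Values of the rigid pairing at the last vertex, levels `< k`. -/
theorem good_val (hS : S.Ok) (hΓ : Γ.Ok) (hτ : τ.Ok Γ k) (hk : 1 ≤ k)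
    (hI : Fintype.card ι = k + 2) (h : τ.GoodH H Γ k kk x0 x) (l : Fin (r + 1)) (hl : τ.jl l < kk)
    (hlk : τ.jl l < k) {d : GCode G V1 ι} (hd : d ∈ FR Γ) :
    CTr S (Γ.chi x) (lst τ H Γ k kk x0 x l univ) (Γ.ch d x) = τ.fl l d := by
  have hpr := good_pr hS hΓ hτ hk hI h l
  have h1 := value_const_CTr (hS.conj (Γ.cg x0 x)) (good_cubeOk hS hΓ (by omega) h)
    (Grid.betOk hS hΓ d.2 (good_symOk (by omega) h)) (good_star hS hΓ hτ hk hI h l)
    (fun T => (conj_pr hS hΓ x0 x T _ _).2 (hpr T))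
    (fun v _ T T' => congrFun (lst_snd l T T') v) (by omega)
    (Γ.ch d x0) (fun T => good_b hS hΓ (by omega) h hd _ T) (f := τ.fl l d) (fun T hT => by
      rw [conj_ctr hS hΓ (by omega) h hd (hpr T), lst_of_ne h l hT]
      exact (good_fam h l hT).val hl d hd)
  rwa [conj_ctr hS hΓ (by omega) h hd (hpr univ), Grid.mix_univ] at h1

end Pool.Agent.SmNH.IC
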