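import Pool.Agent.Lib.SmNH.I.TypeB
import Pool.Agent.Lib.SmNH.I.FrameR

/-!
# HEIGHTS over SMITH-U, block I: the type data of a grid

`mkTwH`: the type data of a system of rigid towers at the base point.
-/

set_option autoImplicit false

open Finset

namespace Pool.Agent.SmNH

open Pool.Agent.SmN Pool.Agent.SmN.IT Pool.Agent.SmN.CData Pool.Agent.SmN.FrN

variable {G V V1 Pl M : Type} [Group G] [AddCommGroup V] [DistribMulAction G V]
  [AddCommGroup V1] [Module (ZMod 2) V1] [AddCommGroup M] [DistribMulAction G M]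
  {S : Sys G V V1 Pl} {H : HData V M Pl} {X : PSys} {cd : CData S X}
  {J : Type} [Fintype J] {m : ℕ} {p : J → cd.Mk} {dir : Dir m ↪ J}

/-- The type data of the system `y` at the base point. -/
noncomputable def mkTwH (H : HData V M Pl) (p : J → cd.Mk) (dir : Dir m ↪ J) {n : ℕ}
    (cc : Fin (n + 1) → cd.CodeN J) (jl : Fin (n + 1) → ℕ) (sig : Fin (n + 1) → Finset (Dir m))
    (y : Fin (n + 1) → (G → V) × (Pl → V)) : TwH G V V1 Pl M (Dir m) n where
  c l := gcodeN p dir (cc l)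
  jl := jl
  fl l g := CTr S (cd.chiN p) (y l) ((cd.gridN p dir).ch g (xpN p dir))
  sig := sig
  qd n w := q S H (cd.chiN p) m (comb y n w)

/-- The base point is of the type of `mkTwH`. -/
theorem mkTwH_sys {n : ℕ} {cc : Fin (n + 1) → cd.CodeN J} {jl : Fin (n + 1) → ℕ}
    {sig : Fin (n + 1) → Finset (Dir m)} {y : Fin (n + 1) → (G → V) × (Pl → V)}
    (hy : ∀ l, AbvH cd p (jl l) (cc l) (y l)) (kk : ℕ) :
    (mkTwH H p dir cc jl sig y).IsSys H (cd.gridN p dir) m kk (xpN p dir) y where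
  tow l := by
    refine ⟨?_, fun s => ?_, fun _ g _ => ?_⟩
    · rw [chi_gridN, rxN_xp]
      exact (hy l).1
    · change _ = S.iota ((cd.gridN p dir).ch (gcodeN p dir (cc l)) _ s)
      rw [ch_gridN, rxN_xp]
      exact (hy l).2 s
    · rw [chi_gridN, rxN_xp]
      rfl
  qdat n w _ := by
    rw [chi_gridN, rxN_xp]
    rfl

theorem mkTwH_mem {n : ℕ} {cc : Fin (n + 1) → cd.CodeN J} {jl : Fin (n + 1) → ℕ}
    {sig : Fin (n + 1) → Finset (Dir m)} {y : Fin (n + 1) → (G → V) × (Pl → V)}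
    (hy : ∀ l, AbvH cd p (jl l) (cc l) (y l)) (kk : ℕ) :
    xpN p dir ∈ (mkTwH H p dir cc jl sig y).YH H (cd.gridN p dir) m kk :=
  ⟨xpN_mem, y, mkTwH_sys hy kk⟩

/-- `mkTwH` satisfies the hypotheses. -/
theorem mkTwH_ok (hS : S.Ok) (hc : cd.Ok) (hd : cd.DirOk p dir) {n : ℕ}
    {cc : Fin (n + 1) → cd.VF p} {jl : Fin (n + 1) → ℕ}
    {sig : Fin (n + 1) → Finset (Dir m)} (y : Fin (n + 1) → (G → V) × (Pl → V))
    (hA : AdpH cd hS hc p m cc jl) (hF : ∀ l, (cc l).1 ∈ cd.FN p)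
    (hs1 : ∀ l, (sig l).card ≤ 1) (hs2 : ∀ l i, i ∉ sig l → (cc l).1.2 (dir i) = 0) :
    (mkTwH H p dir (fun l => (cc l).1) jl sig y).Ok (cd.gridN p dir) m where
  c_mem l := by
    change gcodeN p dir (cc l).1 ∈ _
    rw [gcodeN_mem_FF hS hc (gridN_ok hS hc hd) hd xpN_mem (cc l).2, rxN_xp]
    exact hF l
  jl_pos := hA.pos
  jl_le := hA.le
  jl_zero := hA.zero
  sig_card := hs1
  supp := hs2

end Pool.Agent.SmNH
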