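import Pool.Agent.Lib.SmNH.HF.Fin
import Pool.Agent.Lib.SmNH.I.TypeH
import Pool.Agent.Lib.SmN.G6.LFactsOk
import Pool.Agent.Lib.SmN.L.Key

/-!
# HEIGHTS over SMITH-U, block I: bounds

`card_RS_le`: a uniform bound for the number of the rigid Selmer elements of level `i`. `nah_le`,
`nth_le`: trivial bounds for `NAH`, `NTH`.
-/

set_option autoImplicit false

open Finset

namespace Pool.Agent.SmNH

open Pool.Agent.SmN Pool.Agent.SmN.IT Pool.Agent.SmN.CData

variable {G V V1 Pl M : Type} [Group G] [AddCommGroup V] [DistribMulAction G V]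
  [AddCommGroup V1] [Module (ZMod 2) V1] [AddCommGroup M] [DistribMulAction G M]
  {S : Sys G V V1 Pl} {H : HData V M Pl} {X : PSys} {cd : CData S X}

/-- A uniform bound for the number of the rigid Selmer elements of level `i` of the twist by a
vector of marked primes with `#SelpN ≤ N`. -/
theorem card_RS_le (hS : S.Ok) (hc : cd.Ok) : ∃ C1 : ℕ, ∀ (J : Type) (_ : Fintype J)
    (_ : Nonempty J) (p : J → cd.Mk), cd.PVecN p → ∀ N : ℕ, Nat.card (cd.SelpN p) ≤ N → ∀ i,
    Finite {y : (G → V) × (Pl → V) // IsPr S (cd.chiN p) i y} ∧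
      Nat.card {y : (G → V) × (Pl → V) // IsPr S (cd.chiN p) i y} ≤ C1 * N ^ i := by
  obtain ⟨C1, hC1⟩ := locBound hS hc
  refine ⟨C1, fun J _ _ p hp N hN i => ⟨hf_fin hS hc hp i, ?_⟩⟩
  have := hS.fin1
  refine (hC1 J _ p hp i).trans (Nat.mul_le_mul le_rfl ?_)
  refine nZN_le cd (lfactsN hS hc hp) (le_trans ?_ hN) i
  exact Nat.card_mono (Set.toFinite _) (fn_sub_selpN p)

variable {J : Type} [Fintype J] {p : J → cd.Mk}

/-- A sum of signs over a finite type. -/
theorem abs_finsum_le' {α : Type} [Finite α] (f : α → ℝ) (hf : ∀ x, |f x| ≤ 1) :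
    |∑ᶠ x, f x| ≤ Nat.card α := by
  have := Fintype.ofFinite α
  rw [finsum_eq_sum_of_fintype, Nat.card_eq_fintype_card]
  refine (abs_sum_le_sum_abs _ _).trans ?_
  calc ∑ x, |f x| ≤ ∑ x : α, (1 : ℝ) := sum_le_sum fun x _ => hf x
    _ = Fintype.card α := by rw [sum_const, card_univ, nsmul_eq_mul, mul_one]

theorem nah_le (j : ℕ) (a b : cd.CodeN J)
    (hfin : Finite {y : (G → V) × (Pl → V) // IsPr S (cd.chiN p) j y}) :
    |NAH cd H p j a b| ≤ Nat.card {y : (G → V) × (Pl → V) // IsPr S (cd.chiN p) j y} := by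
  let f : {y : (G → V) × (Pl → V) // AbvH cd p j a y ∧ q S H (cd.chiN p) j y = 0} →
      {y : (G → V) × (Pl → V) // IsPr S (cd.chiN p) j y} := fun y => ⟨y.1, y.2.1.1⟩
  have hf : Function.Injective f := fun y y' h => Subtype.ext (congrArg (fun z => z.1) h)
  have : Finite {y : (G → V) × (Pl → V) // AbvH cd p j a y ∧
      q S H (cd.chiN p) j y = 0} := Finite.of_injective f hf
  unfold NAH
  refine (abs_finsum_le' _ fun y => ?_).trans (by exact_mod_cast Nat.card_le_card_of_injective f hf)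
  rw [abs_pow, abs_neg, abs_one, one_pow]

theorem nth_le (j : ℕ) (a : cd.CodeN J)
    (hfin : Finite {y : (G → V) × (Pl → V) // IsPr S (cd.chiN p) (j + 1) y}) :
    |NTH cd H p j a| ≤
      Nat.card {y : (G → V) × (Pl → V) // IsPr S (cd.chiN p) (j + 1) y} := by
  let f : {y : (G → V) × (Pl → V) // AbvH cd p (j + 1) a y ∧
      q S H (cd.chiN p) j ((2 : ℕ) • y) = 0} →
      {y : (G → V) × (Pl → V) // IsPr S (cd.chiN p) (j + 1) y} := fun y => ⟨y.1, y.2.1.1⟩
  have hf : Function.Injective f := fun y y' h => Subtype.ext (congrArg (fun z => z.1) h)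
  have : Finite {y : (G → V) × (Pl → V) // AbvH cd p (j + 1) a y ∧
      q S H (cd.chiN p) j ((2 : ℕ) • y) = 0} := Finite.of_injective f hf
  unfold NTH
  refine (abs_finsum_le' _ fun y => ?_).trans (by exact_mod_cast Nat.card_le_card_of_injective f hf)
  split_ifs <;> simp

theorem sign_eq' (x : ZMod 2) : (-1 : ℝ) ^ x.val = if x = 0 then 1 else -1 := by
  have key : x = 0 ∨ x = 1 := by
    revert x
    decide
  rcases key with rfl | rfl
  · simp
  · have : (1 : ZMod 2).val = 1 := rfl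
    rw [this, pow_one, if_neg (by decide)]

/-- `SelpN` is a subspace of the codes. -/
theorem selpN_zero (hS : S.Ok) (hc : cd.Ok) (p : J → cd.Mk) : (0 : cd.CodeN J) ∈ cd.SelpN p := by
  refine ⟨CData.valid_zero p, fun j => ?_⟩
  rw [CData.homN_zero hc]
  exact (S.W (cd.chiN p) (cd.pl (p j).1)).zero_mem

theorem selpN_add (hc : cd.Ok) {a b : cd.CodeN J} (ha : a ∈ cd.SelpN p) (hb : b ∈ cd.SelpN p) :
    a + b ∈ cd.SelpN p := by
  refine ⟨(cd.VF p).add_mem ha.1 hb.1, fun j => ?_⟩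
  rw [CData.homN_add hc ha.1 hb.1]
  exact (S.W (cd.chiN p) (cd.pl (p j).1)).add_mem (ha.2 j) (hb.2 j)

theorem selpN_smul (hS : S.Ok) (hc : cd.Ok) (x : ZMod 2) {a : cd.CodeN J}
    (ha : a ∈ cd.SelpN p) : x • a ∈ cd.SelpN p := by
  have key : x = 0 ∨ x = 1 := by
    revert x
    decide
  rcases key with rfl | rfl
  · rw [zero_smul]
    exact selpN_zero hS hc p
  · rw [one_smul]
    exact ha

/-- `SelpN` as a subspace. -/
def selpNM (hS : S.Ok) (hc : cd.Ok) (p : J → cd.Mk) : Submodule (ZMod 2) (cd.CodeN J) where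
  carrier := cd.SelpN p
  zero_mem' := selpN_zero hS hc p
  add_mem' := fun ha hb => selpN_add hc ha hb
  smul_mem' := fun x _ ha => selpN_smul hS hc x ha

end Pool.Agent.SmNH
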