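import Pool.Agent.Lib.SmNH.I.NumH
import Pool.Agent.Lib.SmNH.I.FinS
import Pool.Agent.Lib.SmNH.I.Core.InvB

/-!
# HEIGHTS over SMITH-U, block I: the common last step of the grid theorems A and T

`fin_core`: the generic grid theorem over a vector of marked primes (`NumH`), for the rigid towers of
a type `τ : TwH`, whose points are those of a predicate `Typ` on vectors of marked primes, and a
function `NN` on vectors which is `± N1` at these points.
-/

set_option autoImplicit false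

open Finset

namespace Pool.Agent.SmNH

open Pool.Agent.SmN Pool.Agent.SmN.IT Pool.Agent.SmN.CData Pool.Agent.SmN.FrN

variable {G V V1 Pl M : Type} [Group G] [AddCommGroup V] [DistribMulAction G V]
  [AddCommGroup V1] [Module (ZMod 2) V1] [AddCommGroup M] [DistribMulAction G M]
  {S : Sys G V V1 Pl} {H : HData V M Pl} {X : PSys} {cd : CData S X}

open Classical in
/-- The sum over a big block as a sum over the grid. -/
theorem finsum_gridN {J : Type} {m : ℕ} {p : J → cd.Mk} {dir : Dir m ↪ J}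
    [∀ i, Fintype (cd.XB p dir i)] (P : (J → cd.Mk) → Prop) (F : (J → cd.Mk) → ℝ) :
    ∑ᶠ x : (i : Dir m) → cd.XB p dir i,
        (if P (cd.replN p dir fun i => (x i).1) then F (cd.replN p dir fun i => (x i).1) else 0) =
      ∑ x : ∀ i, cd.XB p dir i with P (rxN p dir x), F (rxN p dir x) := by
  rw [finsum_eq_sum_of_fintype, ← sum_filter]
  rfl

open Classical in
/-- The common last step of the grid theorems A and T. -/
theorem fin_core (hS : S.Ok) (hc : cd.Ok) {q : ℕ} (hX : X.Ok q)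
    (hNf : ∀ N ∈ S.NN, N.index ≠ 0) {Geo : Subgroup G} {fr : G}
    (hG : CData.GeoOk (S := S) Geo fr) {a C : ℕ} (hC : cd.Cheb Geo fr q a C)
    (m : ℕ) (hm : 1 ≤ m) (R : ℕ) (B : ℝ) (hB : 0 ≤ B) (η : ℝ) (hη : 0 < η) :
    ∃ n₀ : ℕ, ∀ (J : Type) (_ : Fintype J) (p : J → cd.Mk) (dir : Dir m ↪ J), cd.DirOk p dir →
    n₀ ≤ cd.degN p → Nat.card (cd.SelpN p) ≤ 2 ^ R →
    (∀ i, (q : ℝ) ^ (9 * X.deg (p (dir i)).1 / 10) ≤ Nat.card (cd.XB p dir i)) →
    ∀ (r : ℕ) (τ : TwH G V V1 Pl M (Dir m) r) (kk : ℕ), r ≤ R →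
    τ.Ok (cd.gridN p dir) m → τ.sig 0 = {some none} →
    ∀ (Fn : (∀ i, cd.XB p dir i) → ZMod 2) (be : V1), S.e ((τ.c 0).2 (some none)) be = 1 →
    ∀ (Typ : (J → cd.Mk) → Prop) (NN : (J → cd.Mk) → ℝ) (N1 : ℝ), |N1| ≤ B →
    (N1 ≠ 0 → (τ.cor H (cd.gridN p dir) m kk).Claim (cd.gridN p dir) Fn be) →
    (∀ x, x ∈ τ.YH H (cd.gridN p dir) m kk ↔ Typ (rxN p dir x)) →
    (∀ x ∈ τ.YH H (cd.gridN p dir) m kk,
      NN (rxN p dir x) = (-1 : ℝ) ^ (Fn x).val * N1) →
    |∑ᶠ x : (i : Dir m) → cd.XB p dir i,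
        if Typ (cd.replN p dir fun i => (x i).1) then
          NN (cd.replN p dir fun i => (x i).1) else 0| ≤
      η * ∏ i, (Nat.card (cd.XB p dir i) : ℝ) := by
  have := hS.fin1
  have hV1 : 0 < Nat.card V1 := Nat.card_pos
  obtain ⟨L, hL0, hL⟩ := exists_L hS m
  set Kc : ℕ := (Nat.card V1 ^ m) ^ ((R + 1) * (m + 2)) * L ^ (R + 1) with hKc
  obtain ⟨n₀, hn₀⟩ := grid_thm_core hS hc hX hNf hG hC hm R Kc (by positivity)
    (η / (B + 1)) (by positivity)
  refine ⟨n₀, fun J _ p dir hd hn hF hXB r τ kk hr hτ hσ Fn be hee Typ NN N1 hN1 hcl hY hNN => ?_⟩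
  have hF' : Nat.card (cd.FN p) ≤ 2 ^ R :=
    (Nat.card_mono (Set.toFinite _) (fn_sub_selpN p)).trans hF
  have hmain := hn₀ J _ p dir hd hn hF' hXB
  set Γ := cd.gridN p dir with hΓdef
  have hΓ : Γ.Ok := gridN_ok hS hc hd
  have hfin : ∀ i, Finite (cd.XB p dir i) := finite_XB hX.fin p dir
  let _ : ∀ i, Fintype (cd.XB p dir i) := fun i => Fintype.ofFinite _
  rw [finsum_gridN Typ NN]
  set Y : Finset (∀ i, cd.XB p dir i) := univ.filter fun x => Typ (rxN p dir x) with hYdef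
  have hYm : ∀ x, x ∈ Y ↔ x ∈ τ.YH H Γ m kk := fun x => by
    rw [hYdef, mem_filter, hY x]
    simp
  have hsum : ∑ x ∈ Y, NN (rxN p dir x) =
      (∑ x ∈ Y, (if Fn x = 0 then (1 : ℝ) else -1)) * N1 := by
    rw [sum_mul]
    refine sum_congr rfl fun x hx => ?_
    rw [hNN x ((hYm x).1 hx), sign_eq']
  rw [hsum]
  have hP0 : 0 ≤ ∏ i, (Nat.card (cd.XB p dir i) : ℝ) := by positivity
  by_cases hN0 : N1 = 0
  · rw [hN0, mul_zero, abs_zero]
    positivity
  -- the colours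
  obtain ⟨Co, hCo1, hCo2⟩ := card_colH (H := H) (kk := kk) hS hΓ hτ (xpN p dir)
  have hcardD : Fintype.card (Dir m) = m + 2 := by simp [Dir]
  have hCo3 : #Co ≤ Kc := by
    refine hCo1.trans ?_
    rw [hcardD, hKc]
    refine Nat.mul_le_mul (Nat.pow_le_pow_right (by positivity) ?_) ?_
    · exact Nat.mul_le_mul (by omega) le_rfl
    · refine (Nat.pow_le_pow_left (hL _ (Grid.chi_hom hS hΓ _)) _).trans ?_
      exact Nat.pow_le_pow_right hL0 (by omega)
  have h1 := hmain _ r (τ.cor H Γ m kk) hr (cor_ok hτ) hσ Fn be hee (hcl hN0) Co hCo3 hCo2 Y hYm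
  rw [abs_mul]
  calc |∑ x ∈ Y, (if Fn x = 0 then (1 : ℝ) else -1)| * |N1|
      ≤ (η / (B + 1) * ∏ i, (Nat.card (cd.XB p dir i) : ℝ)) * (B + 1) := by
        refine mul_le_mul h1 (by linarith) (abs_nonneg _) (by positivity)
    _ = η * ∏ i, (Nat.card (cd.XB p dir i) : ℝ) := by
        field_simp

end Pool.Agent.SmNH
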