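import Pool.Agent.Lib.SmNH.I.GenM
import Pool.Agent.Lib.SmNH.I.FinS

/-!
# HEIGHTS over SMITH-U, block I_gen: `NAH` and `NTH` on the classes of `TypEqH` over the grid

`genA`: the generation part of theorem A (`GenA`). `genT`: the same for theorem T (`GenT`).
`nth_zero`.
-/

set_option autoImplicit false

open Finset

namespace Pool.Agent.SmNH

open Pool.Agent.Sm (Tower Adapted)
open Pool.Agent.SmN Pool.Agent.SmN.IT Pool.Agent.SmN.CData Pool.Agent.SmN.FrN
open Pool.Agent.SmH (RT)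

variable {G V V1 Pl M : Type} [Group G] [AddCommGroup V] [DistribMulAction G V]
  [AddCommGroup V1] [Module (ZMod 2) V1] [AddCommGroup M] [DistribMulAction G M]
  {S : Sys G V V1 Pl} {H : HData V M Pl} {X : PSys} {cd : CData S X}
  {J : Type} [Fintype J] {m : ℕ} {p : J → cd.Mk} {dir : Dir m ↪ J}

variable {n : ℕ} {cc : Fin (n + 1) → cd.VF p} {jl : Fin (n + 1) → ℕ}
  {sig : Fin (n + 1) → Finset (Dir m)} {y : Fin (n + 1) → (G → V) × (Pl → V)}
  {x : ∀ i, cd.XB p dir i}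

/-- `NAH` at a point of the class. -/
theorem NAH_of_isSys (hS : S.Ok) (hB : BadOk S) (hH : HOk S H) (hc : cd.Ok)
    (hg : S.good = Set.range cd.pl) (hd : cd.DirOk p dir) (hm : 1 ≤ m)
    (hA : AdpH cd hS hc p m cc jl) (hy : ∀ l, AbvH cd p (jl l) (cc l).1 (y l))
    {jp kk : ℕ} (hkk : kk = jp + 1) (hmj : m ≤ jp + 1) (hx : x ∈ (cd.gridN p dir).Xs)
    {u : Fin (n + 1) → (G → V) × (Pl → V)}
    (hu : (mkTwH H p dir (fun l => (cc l).1) jl sig y).IsSys H (cd.gridN p dir) m kk x u)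
    {b : cd.CodeN J} (hb : b ∈ cd.SelpN p) :
    (-1 : ℝ) ^ (CTr S (cd.chiN p) (y 0) (cd.homN p b)).val * NAH cd H p m (cc 0).1 b =
      (-1 : ℝ) ^ (CTr S ((cd.gridN p dir).chi x) (u 0)
        ((cd.gridN p dir).ch (gcodeN p dir b) x)).val *
      NAH cd H (rxN p dir x) m (cc 0).1 b := by
  have hne : Nonempty J := ⟨dir none⟩
  obtain ⟨Θ, hΘ, hl⟩ := exists_cor_of_isSys hS hB hH hc hg hd hm hA hy hkk hmj hx hu
  have hW := rtN_ok (H := H) hS hc (hUp p) hB hg hd.vec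
  have hW' := rtN_ok_rx (H := H) hS hB hc hg hd hx
  have := finite_rtN (H := H) hS hc (hUp p) hd.vec m
  have := finite_rtN (H := H) hS hc (hUx hc hd x) (pvec_rxN hd x) m
  have h0 := hy 0
  rw [hA.zero] at h0
  have e1 := NAH_eq_NA (H := H) hS hc (hUp p) m (cc 0) ⟨b, hb.1⟩
  have e2 := NAH_eq_NA (H := H) hS hc (hUx hc hd x) m (cc 0) ⟨b, hb.1⟩
  change NAH cd H p m (cc 0).1 b = _ at e1
  change NAH cd H (rxN p dir x) m (cc 0).1 b = _ at e2
  rw [e1, e2, chi_gridN, ch_gridN]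
  exact hΘ.NA_eq hW hW' hm hmj (show (⟨b, hb.1⟩ : cd.VF p) ∈ selU p (cd.VF p) from hb) (hl 0)
    h0.1 (funext h0.2)

/-- The generation part of theorem A. -/
theorem genA (hS : S.Ok) (hB : BadOk S) (hH : HOk S H) (hc : cd.Ok)
    (hg : S.good = Set.range cd.pl) {m : ℕ} (hm : 1 ≤ m) : GenA cd hS hc H m := by
  intro J _ p dir hd n cc jl sig y hA _ hy b hb
  refine ⟨fun x => yh_iff hS hB hH hc hg hd hm hA hy (by omega) (by omega) (by omega) x, ?_⟩
  refine ⟨(-1 : ℝ) ^ (CTr S (cd.chiN p) (y 0) (cd.homN p b)).val *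
    NAH cd H p m (cc 0).1 b, fun x hx => ?_, fun hN x hx u u' hu hu' => ?_⟩
  · have hu := IC.yy_spec hx
    have h1 := NAH_of_isSys hS hB hH hc hg hd hm hA hy (by omega : m = (m - 1) + 1) (by omega)
      hx.1 hu hb
    rw [h1, ← mul_assoc, TwH.FA, ← mul_pow]
    norm_num
  · have h1 := NAH_of_isSys hS hB hH hc hg hd hm hA hy (by omega : m = (m - 1) + 1) (by omega)
      hx.1 hu hb
    have h2 := NAH_of_isSys hS hB hH hc hg hd hm hA hy (by omega : m = (m - 1) + 1) (by omega)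
      hx.1 hu' hb
    have h3 : NAH cd H (rxN p dir x) m (cc 0).1 b ≠ 0 := by
      intro h4
      rw [h1, h4, mul_zero] at hN
      exact hN rfl
    have h4 := mul_right_cancel₀ h3 (h1.symm.trans h2)
    revert h4
    generalize CTr S _ (u 0) _ = α
    generalize CTr S _ (u' 0) _ = β
    intro h4
    rw [sign_eq', sign_eq'] at h4
    have h5 : ∀ a : ZMod 2, a = 0 ∨ a = 1 := by decide
    rcases h5 α with rfl | rfl <;> rcases h5 β with rfl | rfl
    · rfl
    · norm_num at h4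
    · norm_num at h4
    · rfl

/-! ### Theorem T -/

/-- `NTH` at a point of the class. -/
theorem NTH_of_isSys (hS : S.Ok) (hB : BadOk S) (hH : HOk S H) (hc : cd.Ok)
    (hg : S.good = Set.range cd.pl) (hd : cd.DirOk p dir) (hm : 1 ≤ m)
    (hA : AdpH cd hS hc p m cc jl) (hy : ∀ l, AbvH cd p (jl l) (cc l).1 (y l))
    {yp : (G → V) × (Pl → V)}
    (hyp : AbvH cd p (m + 1) (cc 0).1 yp) (hy0 : y 0 = (2 : ℕ) • yp)
    (hq0 : q S H (cd.chiN p) m (y 0) = 0) (hx : x ∈ (cd.gridN p dir).Xs)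
    {u : Fin (n + 1) → (G → V) × (Pl → V)}
    (hu : (mkTwH H p dir (fun l => (cc l).1) jl sig y).IsSys H (cd.gridN p dir) m (m + 1) x u)
    {up : (G → V) × (Pl → V)} (hup : TwH.IsUp S ((cd.gridN p dir).chi x) m (u 0) up) :
    RT.sg (q S H (cd.chiN p) (m + 1) yp) * NTH cd H p m (cc 0).1 =
      RT.sg (q S H ((cd.gridN p dir).chi x) (m + 1) up) *
      NTH cd H (rxN p dir x) m (cc 0).1 := by
  have hne : Nonempty J := ⟨dir none⟩
  obtain ⟨Θ, hΘ, hl⟩ := exists_cor_of_isSys hS hB hH hc hg hd hm hA hy rfl (by omega) hx hu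
  have hW := rtN_ok (H := H) hS hc (hUp p) hB hg hd.vec
  have hW' := rtN_ok_rx (H := H) hS hB hc hg hd hx
  have := finite_rtN (H := H) hS hc (hUp p) hd.vec m
  have := finite_rtN (H := H) hS hc (hUx hc hd x) (pvec_rxN hd x) m
  obtain ⟨hup1, hup2⟩ := hup
  rw [chi_gridN] at hup1 ⊢
  have h1 := (mkTwH_isSys_iff hS hc hg hd hx).1 hu
  have ht' : (2 : ℕ) ^ m • up.1 =
      (rtN hS H cd hc (rxN p dir x) (cd.VF p) (hUx hc hd x)).c (cc 0) := by
    rw [← h1.2.1 0, ← hup2, hA.zero, Prod.smul_fst, smul_smul, ← pow_succ,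
      Nat.sub_add_cancel hm]
  have hΘ0 := hl 0
  rw [hy0, ← hup2] at hΘ0
  rw [NTH_eq_NT hS hc (hUp p), NTH_eq_NT hS hc (hUx hc hd x)]
  exact hΘ.NT_eq hW hW' (rtN_okQ hS hH hc (hUp p) m) (rtN_okQ hS hH hc (hUx hc hd x) m) hΘ0
    hyp.1 hup1 (funext hyp.2) ht' (by rw [← hy0]; exact hq0)

/-- Every system at a point of the class has a lift. -/
theorem exists_up_of_isSys (hS : S.Ok) (hB : BadOk S) (hc : cd.Ok)
    (hg : S.good = Set.range cd.pl) (hd : cd.DirOk p dir)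
    (hA : AdpH cd hS hc p m cc jl) {yp : (G → V) × (Pl → V)}
    (hyp : AbvH cd p (m + 1) (cc 0).1 yp) (hy0 : y 0 = (2 : ℕ) • yp)
    (hx : x ∈ (cd.gridN p dir).Xs) {u : Fin (n + 1) → (G → V) × (Pl → V)}
    (hu : (mkTwH H p dir (fun l => (cc l).1) jl sig y).IsSys H (cd.gridN p dir) m (m + 1) x u) :
    ∃ up, TwH.IsUp S ((cd.gridN p dir).chi x) m (u 0) up := by
  have hW := rtN_ok (H := H) hS hc (hUp p) hB hg hd.vec
  have hW' := rtN_ok_rx (H := H) hS hB hc hg hd hx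
  have h1 := (mkTwH_isSys_iff hS hc hg hd hx).1 hu
  have h2 := h1.1 0
  rw [hA.zero] at h2
  obtain ⟨up, hup, hup2⟩ := hW'.crit m (u 0) h2 fun b hb => by
    rw [h1.2.2.1 0 (by rw [hA.zero]; omega) b hb, hy0]
    exact hW.Ptwo m yp hyp.1 b hb
  refine ⟨up, ?_, hup2⟩
  rw [chi_gridN]
  exact hup

/-- The generation part of theorem T, for one system. -/
theorem genT_of (hS : S.Ok) (hB : BadOk S) (hH : HOk S H) (hc : cd.Ok)
    (hg : S.good = Set.range cd.pl) (hd : cd.DirOk p dir) (hm : 1 ≤ m)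
    (hA : AdpH cd hS hc p m cc jl) (hy : ∀ l, AbvH cd p (jl l) (cc l).1 (y l))
    {yp : (G → V) × (Pl → V)}
    (hyp : AbvH cd p (m + 1) (cc 0).1 yp) (hy0 : y 0 = (2 : ℕ) • yp)
    (hq0 : q S H (cd.chiN p) m (y 0) = 0) :
    (∀ x, x ∈ (mkTwH H p dir (fun l => (cc l).1) jl sig y).YH H (cd.gridN p dir) m (m + 1) ↔
      TypEqH cd H dir m m p (rxN p dir x)) ∧
    ∃ N0 : ℝ, |N0| = |NTH cd H p m (cc 0).1| ∧
      (∀ x ∈ (mkTwH H p dir (fun l => (cc l).1) jl sig y).YH H (cd.gridN p dir) m (m + 1),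
        NTH cd H (rxN p dir x) m (cc 0).1 =
          (-1) ^ ((mkTwH H p dir (fun l => (cc l).1) jl sig y).FT H (cd.gridN p dir) m (m + 1)
            x).val * N0) ∧
      (N0 ≠ 0 → WdT (mkTwH H p dir (fun l => (cc l).1) jl sig y) H (cd.gridN p dir) m) := by
  have hsq : ∀ m : M, RT.sg m * RT.sg m = 1 := by
    intro m
    unfold RT.sg
    split_ifs <;> norm_num
  have hwd : RT.sg (q S H (cd.chiN p) (m + 1) yp) * NTH cd H p m (cc 0).1 ≠ 0 →
      WdT (mkTwH H p dir (fun l => (cc l).1) jl sig y) H (cd.gridN p dir) m := by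
    intro hN x hx u u' hu hu' up up' hup hup'
    have h1 := NTH_of_isSys hS hB hH hc hg hd hm hA hy hyp hy0 hq0 hx.1 hu hup
    have h2 := NTH_of_isSys hS hB hH hc hg hd hm hA hy hyp hy0 hq0 hx.1 hu' hup'
    have h3 : NTH cd H (rxN p dir x) m (cc 0).1 ≠ 0 := by
      intro h4
      rw [h1, h4, mul_zero] at hN
      exact hN rfl
    have h4 := mul_right_cancel₀ h3 (h1.symm.trans h2)
    unfold RT.sg at h4
    constructor
    · intro h5
      by_contra h6
      rw [if_pos h5, if_neg h6] at h4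
      norm_num at h4
    · intro h5
      by_contra h6
      rw [if_neg h6, if_pos h5] at h4
      norm_num at h4
  refine ⟨fun x => yh_iff hS hB hH hc hg hd hm hA hy rfl (by omega) le_rfl x, _, ?_,
    fun x hx => ?_, hwd⟩
  · rw [abs_mul]
    have : |RT.sg (q S H (cd.chiN p) (m + 1) yp)| = 1 := by
      unfold RT.sg
      split_ifs <;> norm_num
    rw [this, one_mul]
  · have hu := IC.yy_spec hx
    obtain ⟨up, hup⟩ := exists_up_of_isSys hS hB hc hg hd hA hyp hy0 hx.1 hu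
    have h1 := NTH_of_isSys hS hB hH hc hg hd hm hA hy hyp hy0 hq0 hx.1 hu hup
    by_cases hN : RT.sg (q S H (cd.chiN p) (m + 1) yp) * NTH cd H p m (cc 0).1 = 0
    · rw [hN, mul_zero]
      rw [hN] at h1
      rcases mul_eq_zero.1 h1.symm with h2 | h2
      · have h3 := hsq (q S H ((cd.gridN p dir).chi x) (m + 1) up)
        rw [h2, mul_zero] at h3
        exact absurd h3 (by norm_num)
      · exact h2
    · have h2 : (-1 : ℝ) ^ ((mkTwH H p dir (fun l => (cc l).1) jl sig y).FT H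
          (cd.gridN p dir) m (m + 1) x).val =
          RT.sg (q S H ((cd.gridN p dir).chi x) (m + 1) up) := by
        by_cases h3 : q S H ((cd.gridN p dir).chi x) (m + 1) up = 0
        · have hFT : (mkTwH H p dir (fun l => (cc l).1) jl sig y).FT H (cd.gridN p dir) m
              (m + 1) x = 0 := by
            refine if_neg ?_
            rintro ⟨up', hup', h4⟩
            exact h4 ((hwd hN x hx _ _ hu hu up up' hup hup').1 h3)
          rw [hFT, RT.sg, if_pos h3, sign_eq', if_pos rfl]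
        · have hFT : (mkTwH H p dir (fun l => (cc l).1) jl sig y).FT H (cd.gridN p dir) m
              (m + 1) x = 1 := if_pos ⟨up, hup, h3⟩
          rw [hFT, RT.sg, if_neg h3, sign_eq', if_neg (by decide)]
      rw [h2, h1, ← mul_assoc, hsq, one_mul]

/-- The generation part of theorem T. -/
theorem genT (hS : S.Ok) (hB : BadOk S) (hH : HOk S H) (hc : cd.Ok)
    (hg : S.good = Set.range cd.pl) {m : ℕ} (hm : 1 ≤ m) : GenT cd hS hc H m := by
  intro J _ p dir hd n cc jl sig y hA _ hy hyp hq0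
  obtain ⟨yp, hyp1, hyp2⟩ := hyp
  have hyp' : AbvH cd p (m + 1) (cc 0).1 yp := by
    refine ⟨hyp1, fun s => ?_, (cc 0).2⟩
    have h1 := (hy 0).2 s
    rw [hA.zero, ← hyp2, Prod.smul_fst, Pi.smul_apply, smul_smul, ← pow_succ,
      Nat.sub_add_cancel hm] at h1
    rw [Nat.add_sub_cancel]
    exact h1
  obtain ⟨h1, N0, -, h2, h3⟩ := genT_of hS hB hH hc hg hd hm hA hy hyp' hyp2.symm hq0
    (sig := sig)
  exact ⟨h1, N0, h2, h3⟩

omit [Fintype J] in
/-- If no element of level `j + 1` above `a` has `q j (2 y) = 0` then `NTH = 0` on the class. -/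
theorem nth_zero [Fintype J] {p p' : J → cd.Mk} (hS : S.Ok) (hB : BadOk S) (hc : cd.Ok)
    (hg : S.good = Set.range cd.pl) (h : Cmp p p' dir) {j : ℕ} (hj : 1 ≤ j)
    (hpp : TypEqH cd H dir j j p p') {a : cd.CodeN J}
    (hno : ∀ yp, AbvH cd p (j + 1) a yp → q S H (cd.chiN p) j ((2 : ℕ) • yp) ≠ 0) :
    NTH cd H p' j a = 0 := by
  obtain ⟨hs, ⟨Θ, hΘ⟩, -⟩ := hpp
  have hUp' : ∀ c, c ∈ cd.VF p ↔ cd.ValidN p' c := fun c => (cmp_valid h c).symm
  have hW := rtN_ok (H := H) hS hc (hUp p) hB hg h.vec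
  have hW' := rtN_ok (H := H) hS hc hUp' hB hg h.vec'
  have hemp : IsEmpty {y : (G → V) × (Pl → V) // AbvH cd p' (j + 1) a y ∧
      q S H (cd.chiN p') j ((2 : ℕ) • y) = 0} := by
    refine ⟨fun ⟨u, hu, hqu⟩ => ?_⟩
    have h2u : IsPr S (cd.chiN p') j ((2 : ℕ) • u) := hu.1.two
    obtain ⟨v, hv⟩ := hΘ.right _ h2u
    have hvj : IsPr S (cd.chiN p) j v := (hΘ.lev _ _ hv j le_rfl).2 h2u
    obtain ⟨yp, hyp, hyp2⟩ := hW.crit j v hvj fun b hb => by
      have h1 := hΘ.pair _ _ hv hvj b.1 hb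
      change CTr S (cd.chiN p) v (cd.homN p b.1) = 0
      rw [← h1]
      refine hW'.Ptwo j u hu.1 b ?_
      change b.1 ∈ cd.SelpN p'
      rw [cmp_SelpN hS hc h]
      exact hb
    have htop : AbvH cd p' j a ((2 : ℕ) • u) := by
      refine ⟨h2u, fun s => ?_, hu.val⟩
      have h1 := hu.2 s
      rw [Nat.add_sub_cancel] at h1
      rw [Prod.smul_fst, Pi.smul_apply, smul_smul, ← pow_succ, Nat.sub_add_cancel hj, h1]
    have htop' := (hΘ.top _ _ hv j hj le_rfl a).2 htop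
    refine hno yp ⟨hyp, fun s => ?_, htop'.val⟩ ?_
    · have h1 := htop'.2 s
      rw [← hyp2, Prod.smul_fst, Pi.smul_apply, smul_smul, ← pow_succ, Nat.sub_add_cancel hj] at h1
      rw [Nat.add_sub_cancel]
      exact h1
    · rw [hyp2, ← hΘ.qq _ _ hv hvj]
      exact hqu
  unfold NTH
  exact finsum_of_isEmpty _

end Pool.Agent.SmNH
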