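import Pool.Agent.Lib.SmNH.I.GenV

/-!
# HEIGHTS over SMITH-U, block I_gen: `IsoH` and the sums `NAH`, `NTH`

`isoH_iff`: `IsoH` = `RT.IsCor` for the rigid towers of the two vectors of a block. `isoH_symm`,
`typEqH_of`. `NAH_eq_NA`, `NTH_eq_NT`; `rtN_okQ`.
-/

set_option autoImplicit false

open Finset

namespace Pool.Agent.SmNH

open Pool.Agent.SmN Pool.Agent.SmN.IT Pool.Agent.SmN.CData Pool.Agent.SmN.FrN
open Pool.Agent.SmH (RT)

variable {G V V1 Pl M : Type} [Group G] [AddCommGroup V] [DistribMulAction G V]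
  [AddCommGroup V1] [Module (ZMod 2) V1] [AddCommGroup M] [DistribMulAction G M]
  {S : Sys G V V1 Pl} {H : HData V M Pl} {X : PSys} {cd : CData S X}
  {J : Type} [Fintype J] {m : ℕ} {p p' : J → cd.Mk} {dir : Dir m ↪ J}
  {U : Submodule (ZMod 2) (cd.CodeN J)}

/-- `AbvH` in terms of the rigid tower. -/
theorem abvH_iff (hS : S.Ok) (hc : cd.Ok) (hU : ∀ c, c ∈ U ↔ cd.ValidN p c) (i : ℕ) (a : U)
    (y : (G → V) × (Pl → V)) :
    AbvH cd p i a.1 y ↔ y ∈ (rtN hS H cd hc p U hU).Z i ∧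
      (2 : ℕ) ^ (i - 1) • y.1 = (rtN hS H cd hc p U hU).c a :=
  ⟨fun h => ⟨h.1, funext h.2⟩, fun h => ⟨h.1, fun s => congrFun h.2 s, (hU _).1 a.2⟩⟩

/-- `IsoH` is the relation of the rigid towers. -/
theorem isoH_iff (hS : S.Ok) (hB : BadOk S) (hc : cd.Ok) (hg : S.good = Set.range cd.pl)
    (h : Cmp p p' dir) (hU : ∀ c, c ∈ U ↔ cd.ValidN p c) (hU' : ∀ c, c ∈ U ↔ cd.ValidN p' c)
    {j jp : ℕ} {Θ : (G → V) × (Pl → V) → (G → V) × (Pl → V) → Prop} :
    IsoH cd H j jp p p' Θ ↔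
      RT.IsCor (rtN hS H cd hc p U hU) (rtN hS H cd hc p' U hU') (selU p U)
        (plN S (cd.chiN p)) j jp Θ := by
  have hW := rtN_ok (H := H) hS hc hU hB hg h.vec
  constructor
  · intro h
    refine ⟨h.lev, fun y hy => ?_, fun y' hy' => ?_, h.add, fun z hz => ?_, fun w hw => ?_,
      fun y y' hyy i hi hij a hy => ?_, fun y y' hyy hy b hb => ?_, h.qq⟩
    · exact h.left y hy
    · exact h.right y' hy'
    · exact h.tor z ((rtN_tmem hS hc hU j z).mp hz)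
    · exact h.loc (0, w) (hW.loc_mem hw j) rfl
    · have h1 := h.top y y' hyy i hi hij a.1
      rw [abvH_iff (H := H) hS hc hU, abvH_iff (H := H) hS hc hU'] at h1
      have hy' : y' ∈ (rtN hS H cd hc p' U hU').Z i := (h.lev y y' hyy i hij).mp hy
      exact ⟨fun h2 => (h1.mp ⟨hy, h2⟩).2, fun h2 => (h1.mpr ⟨hy', h2⟩).2⟩
    · exact h.pair y y' hyy hy b.1 hb
  · intro h
    refine ⟨h.lev, fun y hy => ?_, fun y' hy' => ?_, h.add, fun z hz => ?_, fun y hy h0 => ?_,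
      fun y y' hyy i hi hij a => ?_, fun y y' hyy hy b hb => ?_, h.q⟩
    · exact h.left y hy
    · exact h.right y' hy'
    · exact h.tor z ((rtN_tmem hS hc hU j z).mpr hz)
    · have h1 : y ∈ (rtN hS H cd hc p U hU).Z 0 := hW.low 0 j y hy (by rw [h0, smul_zero])
      have h2 := ((hW.zero y).mp h1).2
      have h3 := h.loc y.2 h2
      rwa [show ((0 : G → V), y.2) = y from Prod.ext h0.symm rfl] at h3
    · by_cases ha : cd.ValidN p a
      · have haU : a ∈ U := (hU a).2 ha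
        change AbvH cd p i (⟨a, haU⟩ : U).1 y ↔ AbvH cd p' i (⟨a, haU⟩ : U).1 y'
        rw [abvH_iff (H := H) hS hc hU, abvH_iff (H := H) hS hc hU']
        constructor
        · rintro ⟨h1, h2⟩
          exact ⟨(h.lev y y' hyy i hij).mp h1, (h.top y y' hyy i hi hij _ h1).mp h2⟩
        · rintro ⟨h1, h2⟩
          have h3 := (h.lev y y' hyy i hij).mpr h1
          exact ⟨h3, (h.top y y' hyy i hi hij _ h3).mpr h2⟩
      · exact ⟨fun h1 => absurd h1.val ha,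
          fun h1 => absurd ((hU a).1 ((hU' a).2 h1.val)) ha⟩
    · exact h.pair y y' hyy hy ⟨b, (hU b).2 hb.1⟩ hb

/-- The inverse relation. -/
theorem isoH_symm (hS : S.Ok) (hc : cd.Ok) (hg : S.good = Set.range cd.pl) (h : Cmp p p' dir)
    {j jp : ℕ} (hjp : jp ≤ j) {Θ : (G → V) × (Pl → V) → (G → V) × (Pl → V) → Prop}
    (hΘ : IsoH cd H j jp p p' Θ) : IsoH cd H j jp p' p (fun y y' => Θ y' y) := by
  refine ⟨?_, fun y hy => ?_, fun y hy => ?_, ?_,
    fun z hz => hΘ.tor z hz, fun y hy h0 => ?_, ?_, ?_, ?_⟩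
  · intro y y' hyy i hi
    exact (hΘ.lev y' y hyy i hi).symm
  · exact hΘ.right y hy
  · exact hΘ.left y hy
  · intro y1 y1' y2 y2' h1 h2
    exact hΘ.add _ _ _ _ h1 h2
  · have hw : IsLoc S (cd.chiN p') y.2 := by
      refine ⟨hy.off, fun v hv s hs' => ?_⟩
      rw [← hy.loc v hv s hs', h0, Pi.zero_apply]
    have hw' := (cmp_isLoc hc hg h y.2).mpr hw
    refine hΘ.loc y ⟨?_, fun v hv s hs' => ?_, hw'.1⟩ h0
    · rw [h0]
      exact Sys.IsSel.zero hS _ _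
    · rw [h0, Pi.zero_apply, hw'.2 v hv s hs']
  · intro y y' hyy i hi hij a
    exact (hΘ.top y' y hyy i hi hij a).symm
  · intro y y' hyy hy b hb
    have hy' : IsPr S (cd.chiN p) jp y' := (hΘ.lev y' y hyy jp hjp).mpr hy
    rw [cmp_SelpN hS hc h] at hb
    exact (hΘ.pair y' y hyy hy' b hb).symm
  · intro y y' hyy hy
    exact (hΘ.qq y' y hyy ((hΘ.lev y' y hyy j le_rfl).mpr hy)).symm

/-- One relation is enough for `TypEqH`. -/
theorem typEqH_of (hS : S.Ok) (hc : cd.Ok) (hg : S.good = Set.range cd.pl) (h : Cmp p p' dir)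
    {j jp : ℕ} (hjp : jp ≤ j) {Θ : (G → V) × (Pl → V) → (G → V) × (Pl → V) → Prop}
    (hΘ : IsoH cd H j jp p p' Θ) : TypEqH cd H dir j jp p p' :=
  ⟨h.eq, ⟨Θ, hΘ⟩, _, isoH_symm hS hc hg h hjp hΘ⟩

/-! ### The sums -/

theorem NAH_eq_NA (hS : S.Ok) (hc : cd.Ok) (hU : ∀ c, c ∈ U ↔ cd.ValidN p c) (j : ℕ) (a b : U) :
    NAH cd H p j a.1 b.1 = (rtN hS H cd hc p U hU).NA j a b := by
  unfold NAH RT.NA
  rw [← finsum_comp_equiv (Equiv.subtypeEquivRight fun y =>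
    and_congr_left' (abvH_iff (H := H) hS hc hU j a y))]
  rfl

theorem NTH_eq_NT (hS : S.Ok) (hc : cd.Ok) (hU : ∀ c, c ∈ U ↔ cd.ValidN p c) (j : ℕ) (a : U) :
    NTH cd H p j a.1 = (rtN hS H cd hc p U hU).NT j a := by
  classical
  unfold NTH RT.NT
  have e : ∀ y : (G → V) × (Pl → V), (AbvH cd p (j + 1) a.1 y ∧
      q S H (cd.chiN p) j ((2 : ℕ) • y) = 0) ↔
      ((y ∈ (rtN hS H cd hc p U hU).Z (j + 1) ∧
        (2 : ℕ) ^ j • y.1 = (rtN hS H cd hc p U hU).c a) ∧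
        (rtN hS H cd hc p U hU).q j ((2 : ℕ) • y) = 0) := by
    intro y
    have h1 := abvH_iff (H := H) hS hc hU (j + 1) a y
    rw [Nat.add_sub_cancel] at h1
    exact and_congr_left' h1
  rw [← finsum_comp_equiv (Equiv.subtypeEquivRight e)]
  rfl

/-- The facts on the height form. -/
theorem rtN_okQ (hS : S.Ok) (hH : HOk S H) (hc : cd.Ok) (hU : ∀ c, c ∈ U ↔ cd.ValidN p c)
    (j : ℕ) : (rtN hS H cd hc p U hU).OkQ j := by
  have hchi := CData.chiN_hom hS hc p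
  refine ⟨fun y hy => ?_, fun y hy θ hθ => ?_, fun m m' hm hm' h1 h2 => ?_⟩
  · exact q_two hS hH hchi (show IsPr S (cd.chiN p) (j + 1) y from hy)
  · have hy' : IsPr S (cd.chiN p) (j + 1) y := hy
    have hθ' : IsPr S (cd.chiN p) j θ := hθ
    change q S H (cd.chiN p) (j + 1) (y + θ) = q S H (cd.chiN p) (j + 1) y +
      (q S H (cd.chiN p) j ((2 : ℕ) • y + θ) - q S H (cd.chiN p) j ((2 : ℕ) • y) -
        q S H (cd.chiN p) j θ) + (2 : ℕ) • q S H (cd.chiN p) j θ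
    rw [q_add (S := S) y θ, ← bb_two_left hS hH hchi hy' hθ', bb,
      q_succ hS hH hchi hθ']
    abel
  · obtain ⟨a, rfl⟩ := hH.two m hm
    obtain ⟨b, rfl⟩ := hH.two m' hm'
    have h3 : ∀ a b : ZMod 2, a ≠ 0 → b ≠ 0 → a = b := by decide
    rw [h3 a b (fun h => h1 (by rw [h, map_zero])) (fun h => h2 (by rw [h, map_zero]))]

/-- The rigid elements of a given level form a finite group. -/
theorem finite_rtN (hS : S.Ok) (hc : cd.Ok) (hU : ∀ c, c ∈ U ↔ cd.ValidN p c)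
    (hp : cd.PVecN p) (j : ℕ) : Finite ((rtN hS H cd hc p U hU).Z j) :=
  hf_fin hS hc hp j

end Pool.Agent.SmNH
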