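import Pool.Agent.Lib.SmNH.I.GenE
import Pool.Agent.Lib.SmNH.I.FrameR
import Pool.Agent.Lib.SmNH.I.GenS

/-!
# HEIGHTS over SMITH-U, block I_gen: the classes of `TypEqH` over the grid

`yh_iff`: the points of the type `mkTwH` form the class of the base point.
-/

set_option autoImplicit false

open Finset

namespace Pool.Agent.SmNH

open Pool.Agent.Sm (Tower Adapted)
open Pool.Agent.SmN Pool.Agent.SmN.IT Pool.Agent.SmN.CData Pool.Agent.SmN.FrN
open Pool.Agent.SmH (RT)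

variable {G V V1 Pl M : Type} [Group G] [AddCommGroup V] [DistribMulAction G V]
  [AddCommGroup V1] [Module (ZMod 2) V1] [AddCommGroup M] [DistribMulAction G M]
  {S : Sys G V V1 Pl} {H : HData V M Pl} {X : PSys} {cd : CData S X}
  {J : Type} [Fintype J] {m : ℕ} {p : J → cd.Mk} {dir : Dir m ↪ J}

/-- A point of `X^*` and the base point. -/
theorem cmp_rx (hc : cd.Ok) (hd : cd.DirOk p dir) {x : ∀ i, cd.XB p dir i}
    (hx : x ∈ (cd.gridN p dir).Xs) : Cmp p (rxN p dir x) dir := by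
  have h := cmp_repl hc hd x (xpN p dir) (by
    have := (mem_XsN x).1 hx
    change cd.DirEq dir (rxN p dir x) (rxN p dir (xpN p dir))
    rw [rxN_xp]
    exact this)
  have h1 : Cmp (rxN p dir x) (rxN p dir (xpN p dir)) dir := h
  rw [rxN_xp] at h1
  exact h1.symm

section base

variable {n : ℕ} {cc : Fin (n + 1) → cd.VF p} {jl : Fin (n + 1) → ℕ}
  {y : Fin (n + 1) → (G → V) × (Pl → V)}

theorem towN {hS : S.Ok} {hc : cd.Ok} (hp : cd.PVecN p) [Nonempty J]
    (hA : AdpH cd hS hc p m cc jl) (hy : ∀ l, AbvH cd p (jl l) (cc l).1 (y l)) :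
    (rtN hS H cd hc p (cd.VF p) (hUp p)).Tow m cc jl y where
  pos := hA.pos
  le := hA.le
  mem l := (hy l).1
  top l := funext (hy l).2
  indep x hx := by
    obtain ⟨z, hz⟩ := hx
    obtain ⟨w, -, hw⟩ := (rtN_kz hS hc (hUp p) hp z _).mp hz
    exact hA.adp.indep x ((mem_twN_Kp hS hc (hUp p) hp _).2 ⟨w, hw⟩)

theorem spanN {hS : S.Ok} {hc : cd.Ok} (hp : cd.PVecN p) [Nonempty J]
    (hA : AdpH cd hS hc p m cc jl) {i : ℕ} (hi : 1 ≤ i) (him : i ≤ m) :
    (rtN hS H cd hc p (cd.VF p) (hUp p)).Span cc jl i := by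
  have hW := twN_ok hS hc (hUp p) hp
  intro u hu a ha
  have hu' : IsPr S (cd.chiN p) i u := hu
  have haL : a ∈ (twN cd hS hc p (cd.VF p) (hUp p)).L i := by
    rw [← mem_LflN_iff_tw hS hc (hUp p) hp hi, mem_LflN_iff hS hc (hUp p) hp hi]
    exact ⟨u.1, hu'.sel, fun s => congrFun ha s⟩
  have haF : a ∈ (twN cd hS hc p (cd.VF p) (hUp p)).Fs := Tower.L_le_Fs hW hi haL
  obtain ⟨x, hx⟩ := hA.adp.span a haF
  obtain ⟨w, hw⟩ := (mem_twN_Kp hS hc (hUp p) hp _).1 hx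
  refine ⟨x, ⟨S.iota w, (rtN_kz hS hc (hUp p) hp _ _).mpr ⟨w, rfl, hw⟩⟩, fun l hl => ?_⟩
  have hK : a - ∑ l, x l • cc l ∈ (twN cd hS hc p (cd.VF p) (hUp p)).L i :=
    Tower.kp_le_L hW hi hx
  have hsum : ∑ l, x l • cc l ∈ (twN cd hS hc p (cd.VF p) (hUp p)).L i := by
    have e : ∑ l, x l • cc l = a - (a - ∑ l, x l • cc l) := by rw [sub_sub_cancel]
    rw [e]
    exact Submodule.sub_mem _ haL hK
  have hcc := hA.adp.adapt i hi him x hsum l hl
  by_contra hlt
  push Not at hlt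
  exact hA.max l (by omega) (Tower.L_anti hW (by omega) (by omega : jl l + 1 ≤ i) hcc)

end base

section grid

variable {n : ℕ} {cc : Fin (n + 1) → cd.VF p} {jl : Fin (n + 1) → ℕ}
  {sig : Fin (n + 1) → Finset (Dir m)} {y : Fin (n + 1) → (G → V) × (Pl → V)}
  {x : ∀ i, cd.XB p dir i}

/-- The systems of the type `mkTwH` at the point `x`. -/
theorem mkTwH_isSys_iff (hS : S.Ok) (hc : cd.Ok) (hg : S.good = Set.range cd.pl)
    (hd : cd.DirOk p dir) (hx : x ∈ (cd.gridN p dir).Xs) {kk : ℕ}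
    {u : Fin (n + 1) → (G → V) × (Pl → V)} :
    (mkTwH H p dir (fun l => (cc l).1) jl sig y).IsSys H (cd.gridN p dir) m kk x u ↔
      (∀ l, u l ∈ (rtN hS H cd hc (rxN p dir x) (cd.VF p) (hUx hc hd x)).Z (jl l)) ∧
      (∀ l, (2 : ℕ) ^ (jl l - 1) • (u l).1 =
        (rtN hS H cd hc (rxN p dir x) (cd.VF p) (hUx hc hd x)).c (cc l)) ∧
      (∀ l, jl l < kk → ∀ b ∈ selU p (cd.VF p),
        (rtN hS H cd hc (rxN p dir x) (cd.VF p) (hUx hc hd x)).P (u l) b =
        (rtN hS H cd hc p (cd.VF p) (hUp p)).P (y l) b) ∧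
      ∀ n' : Fin (n + 1) → ℤ, ∀ w ∈ plN S (cd.chiN p),
        (rtN hS H cd hc (rxN p dir x) (cd.VF p) (hUx hc hd x)).q m (∑ l, n' l • u l + (0, w)) =
        (rtN hS H cd hc p (cd.VF p) (hUp p)).q m (∑ l, n' l • y l + (0, w)) := by
  have hcmp := cmp_rx hc hd hx
  have hchi := chi_gridN (p := p) (dir := dir) x
  have hchg : ∀ c, (cd.gridN p dir).ch (gcodeN p dir c) x =
      cd.homN (rxN p dir x) c := fun c => ch_gridN c x
  have hchp : ∀ c, (cd.gridN p dir).ch (gcodeN p dir c) (xpN p dir) =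
      cd.homN p c := fun c => by rw [ch_gridN, rxN_xp]
  have hloc : ∀ w, w ∈ plN S (cd.chiN p) ↔ IsLoc S (cd.chiN (rxN p dir x)) w := fun w =>
    cmp_isLoc hc hg hcmp w
  constructor
  · intro h
    refine ⟨fun l => ?_, fun l => ?_, fun l hl b hb => ?_, fun n' w hw => ?_⟩
    · have h1 := (h.tow l).pr
      rw [hchi] at h1
      exact h1
    · funext s
      have h1 := (h.tow l).base s
      change (2 : ℕ) ^ (jl l - 1) • (u l).1 s = S.iota ((cd.gridN p dir).ch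
        (gcodeN p dir (cc l).1) x s) at h1
      rw [hchg] at h1
      exact h1
    · have h1 := (h.tow l).val hl (gcodeN p dir b.1)
        ((gcodeN_mem_FR hS hc hg hd hx b.2).2 hb)
      change CTr S _ (u l) _ = CTr S (cd.chiN p) (y l) ((cd.gridN p dir).ch
        (gcodeN p dir b.1) (xpN p dir)) at h1
      rw [hchi, hchg, hchp] at h1
      exact h1
    · have h1 := h.qdat n' w (by rw [hchi]; exact (hloc w).1 hw)
      rw [hchi] at h1
      exact h1
  · rintro ⟨h1, h2, h3, h4⟩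
    refine ⟨fun l => ⟨?_, fun s => ?_, fun hl b hb => ?_⟩, fun n' w hw => ?_⟩
    · rw [hchi]
      exact h1 l
    · change (2 : ℕ) ^ (jl l - 1) • (u l).1 s = S.iota ((cd.gridN p dir).ch
        (gcodeN p dir (cc l).1) x s)
      rw [hchg]
      exact congrFun (h2 l) s
    · rw [FR_eq_image hS hc hg hd hx] at hb
      obtain ⟨b, hb, rfl⟩ := hb
      change CTr S _ (u l) _ = CTr S (cd.chiN p) (y l) ((cd.gridN p dir).ch
        (gcodeN p dir b) (xpN p dir))
      rw [hchi, hchg, hchp]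
      exact h3 l hl ⟨b, hb.1⟩ hb
    · rw [hchi] at hw ⊢
      exact h4 n' w ((hloc w).2 hw)

/-- The facts for the tower at a point of `X^*`, with the data of the base point. -/
theorem rtN_ok_rx (hS : S.Ok) (hB : BadOk S) (hc : cd.Ok) (hg : S.good = Set.range cd.pl)
    (hd : cd.DirOk p dir) (hx : x ∈ (cd.gridN p dir).Xs) :
    (rtN hS H cd hc (rxN p dir x) (cd.VF p) (hUx hc hd x)).Ok (selU p (cd.VF p))
      (plN S (cd.chiN p)) := by
  have hcmp := cmp_rx hc hd hx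
  have hW' := rtN_ok (H := H) hS hc (hUx hc hd x) hB hg (pvec_rxN hd x)
  have hSel : selU (rxN p dir x) (cd.VF p) = selU p (cd.VF p) := by
    ext b
    change b.1 ∈ cd.SelpN (rxN p dir x) ↔ b.1 ∈ cd.SelpN p
    rw [cmp_SelpN hS hc hcmp]
  have hPL : plN S (cd.chiN (rxN p dir x)) = plN S (cd.chiN p) := by
    ext w
    exact (cmp_isLoc hc hg hcmp w).symm
  rw [hSel, hPL] at hW'
  exact hW'

/-- A system at `x` gives a relation. -/
theorem exists_cor_of_isSys (hS : S.Ok) (hB : BadOk S) (hH : HOk S H) (hc : cd.Ok)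
    (hg : S.good = Set.range cd.pl) (hd : cd.DirOk p dir) (hm : 1 ≤ m)
    (hA : AdpH cd hS hc p m cc jl) (hy : ∀ l, AbvH cd p (jl l) (cc l).1 (y l))
    {jp kk : ℕ} (hkk : kk = jp + 1) (hmj : m ≤ jp + 1) (hx : x ∈ (cd.gridN p dir).Xs)
    {u : Fin (n + 1) → (G → V) × (Pl → V)}
    (hu : (mkTwH H p dir (fun l => (cc l).1) jl sig y).IsSys H (cd.gridN p dir) m kk x u) :
    ∃ Θ, RT.IsCor (rtN hS H cd hc p (cd.VF p) (hUp p))
      (rtN hS H cd hc (rxN p dir x) (cd.VF p) (hUx hc hd x)) (selU p (cd.VF p))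
      (plN S (cd.chiN p)) m jp Θ ∧ ∀ l, Θ (y l) (u l) := by
  have hne : Nonempty J := ⟨dir none⟩
  have hcmp := cmp_rx hc hd hx
  obtain ⟨h1, h2, h3, h4⟩ := (mkTwH_isSys_iff hS hc hg hd hx).1 hu
  have hchi := CData.chiN_hom hS hc p
  have hchi' := CData.chiN_hom hS hc (rxN p dir x)
  have hW := rtN_ok (H := H) hS hc (hUp p) hB hg hd.vec
  have hW' := rtN_ok_rx (H := H) hS hB hc hg hd hx
  have hsame := rtN_same (H := H) hS hc (hUp p) hg hcmp (hUx hc hd x)
  have htow := towN (H := H) hd.vec hA hy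
  obtain ⟨Θ, hΘ, hl, -⟩ := RT.exists_cor (kk := jp) hW hW' hsame hm htow
    (fun i hi him => spanN hd.vec hA hi him) h1 h2
    (fun l hl => h3 l (by omega)) hmj (fun α hα => by
      have e : ∀ (q : J → cd.Mk) (hq : ∀ c, c ∈ cd.VF p ↔ cd.ValidN q c)
          (u : Fin (n + 1) → (G → V) × (Pl → V)),
          (rtN hS H cd hc q (cd.VF p) hq).phi u α =
            (∑ l, α.1 l • u l + (0, α.2.2)) + tor S (cd.chiN q) α.2.1 := by
        intro q hq u
        rw [RT.phi_apply, rtN_t]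
        abel
      have hz : (2 : ℕ) ^ m • α.2.1 = 0 := (rtN_tmem hS hc (hUp p) m _).1 hα.1
      have hz' : tor S (cd.chiN p) α.2.1 ∈ (rtN hS H cd hc p (cd.VF p) (hUp p)).Z m := hα.1
      have hz'' : tor S (cd.chiN (rxN p dir x)) α.2.1 ∈
          (rtN hS H cd hc (rxN p dir x) (cd.VF p) (hUx hc hd x)).Z m :=
        (rtN_tmem (H := H) hS hc (hUx hc hd x) m _).2 hz
      have hm1 := RT.phi_mem hW htow hα
      have hα' : α ∈ (rtN hS H cd hc (rxN p dir x) (cd.VF p) (hUx hc hd x)).Par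
          (plN S (cd.chiN p)) m (n + 1) := by
        rw [RT.Par_eq hW hW' hsame]
        exact hα
      have hm2 : (rtN hS H cd hc (rxN p dir x) (cd.VF p) (hUx hc hd x)).phi u α ∈
          (rtN hS H cd hc (rxN p dir x) (cd.VF p) (hUx hc hd x)).Z m :=
        RT.phi_mem hW' ⟨htow.pos, htow.le, h1, h2, fun x' ⟨z, hz⟩ =>
          htow.indep x' ⟨z, (hsame.kz z _).mp hz⟩⟩ hα'
      rw [e] at hm1 hm2
      have hq1 : IsPr S (cd.chiN p) m (∑ l, α.1 l • y l + (0, α.2.2)) := by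
        have := ((rtN hS H cd hc p (cd.VF p) (hUp p)).Z m).sub_mem hm1 hz'
        rwa [add_sub_cancel_right] at this
      have hq2 : IsPr S (cd.chiN (rxN p dir x)) m (∑ l, α.1 l • u l + (0, α.2.2)) := by
        have := ((rtN hS H cd hc (rxN p dir x) (cd.VF p) (hUx hc hd x)).Z m).sub_mem hm2 hz''
        rwa [add_sub_cancel_right] at this
      rw [e, e]
      change q S H (cd.chiN (rxN p dir x)) m _ = q S H (cd.chiN p) m _
      rw [q_add_tor hS hH hchi' hq2 hz, q_add_tor hS hH hchi hq1 hz]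
      exact h4 _ _ hα.2)
  exact ⟨Θ, hΘ, hl⟩

/-- The points of the type `mkTwH` form the class of the base point. -/
theorem yh_iff (hS : S.Ok) (hB : BadOk S) (hH : HOk S H) (hc : cd.Ok)
    (hg : S.good = Set.range cd.pl) (hd : cd.DirOk p dir) (hm : 1 ≤ m)
    (hA : AdpH cd hS hc p m cc jl) (hy : ∀ l, AbvH cd p (jl l) (cc l).1 (y l))
    {jp kk : ℕ} (hkk : kk = jp + 1) (hmj : m ≤ jp + 1) (hjp : jp ≤ m)
    (x : ∀ i, cd.XB p dir i) :
    x ∈ (mkTwH H p dir (fun l => (cc l).1) jl sig y).YH H (cd.gridN p dir) m kk ↔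
      TypEqH cd H dir m jp p (rxN p dir x) := by
  have hne : Nonempty J := ⟨dir none⟩
  constructor
  · rintro ⟨hx, u, hu⟩
    have hcmp := cmp_rx hc hd hx
    obtain ⟨Θ, hΘ, -⟩ := exists_cor_of_isSys hS hB hH hc hg hd hm hA hy hkk hmj hx hu
    exact typEqH_of hS hc hg hcmp hjp ((isoH_iff hS hB hc hg hcmp (hUp p) (hUx hc hd x)).2 hΘ)
  · rintro ⟨hs, ⟨Θ, hΘ⟩, -⟩
    have hx : x ∈ (cd.gridN p dir).Xs := (mem_XsN x).2
      ⟨fun i l hil => (hs.ch i l hil).symm, fun i l hil w => (hs.be i l hil w).symm,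
        fun i w => (hs.self i w).symm⟩
    have hcmp := cmp_rx hc hd hx
    have hΘ' := (isoH_iff hS hB hc hg hcmp (hUp p) (hUx hc hd x)).1 hΘ
    have := finite_rtN (H := H) hS hc (hUp p) hd.vec m
    have := finite_rtN (H := H) hS hc (hUx hc hd x) (pvec_rxN hd x) m
    obtain ⟨u, -, h1, h2, h3, h4⟩ := hΘ'.exists_tow (cc := cc)
      (rtN_ok (H := H) hS hc (hUp p) hB hg hd.vec) hA.pos hA.le
      (fun l => (hy l).1) (fun l => funext (hy l).2)
    exact ⟨hx, u, (mkTwH_isSys_iff hS hc hg hd hx).2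
      ⟨h1, h2, fun l hl => h3 l (by omega), h4⟩⟩

end grid

end Pool.Agent.SmNH
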