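import Pool.Agent.Lib.SmH.I.RTSum
import Pool.Agent.Lib.SmNH.I.CodeR
import Pool.Agent.Lib.SmNH.I.TypeH
import Pool.Agent.Lib.SmNH.StmtI
import Pool.Agent.Lib.SmNH.G.CritR
import Pool.Agent.Lib.SmNH.G.CTrAdd
import Pool.Agent.Lib.SmNH.HF.Fin
import Pool.Agent.Lib.SmNH.HF.Many
import Pool.Agent.Lib.SmN.G6.TowerN
import Pool.Agent.Lib.SmNH.Q.Tor

/-!
# HEIGHTS over SMITH-U, block I_gen: the rigid tower of the twist by a vector of marked primes

`rtN S hS H cd hc p U hU` is the abstract rigid tower (`RT`) of the twist by the vector `p`, over the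
submodule `U` of the valid codes; `rtN_ok`: it has all the properties; `rtN_same`: vectors in one block
with the same symbols (`Cmp`) have the same torsion data.
-/

set_option autoImplicit false

open Finset

namespace Pool.Agent.SmNH

open Pool.Agent.SmN Pool.Agent.SmN.IT Pool.Agent.SmN.CData Pool.Agent.SmN.FrN
open Pool.Agent.SmH (RT)

variable {G V V1 Pl M : Type} [Group G] [AddCommGroup V] [DistribMulAction G V]
  [AddCommGroup V1] [Module (ZMod 2) V1] [AddCommGroup M] [DistribMulAction G M]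
  {S : Sys G V V1 Pl} {H : HData V M Pl} {X : PSys} {cd : CData S X}
  {J : Type} [Fintype J] {m : ℕ} {p p' : J → cd.Mk} {dir : Dir m ↪ J}

/-! ### The bad places -/

section bad

omit [AddCommGroup M] [DistribMulAction G M] in
/-- The characters of two vectors of one block agree at the bad places. -/
theorem cmp_chi_bad (hc : cd.Ok) (hg : S.good = Set.range cd.pl) (h : Cmp p p' dir) {v : Pl}
    (hv : v ∉ S.good) : ∀ s ∈ S.D v, cd.chiN p s = cd.chiN p' s := by
  intro s hs
  rw [hg] at hv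
  rw [CData.chiN, CData.chiN]
  congr 1
  refine sum_congr rfl fun l _ => ?_
  by_cases hl : ∃ i', dir i' = l
  · obtain ⟨i', rfl⟩ := hl
    exact (hc.kf_bad _ _ (h.kf i') v hv).1 s hs
  · push Not at hl
    rw [h.off l hl]

omit [AddCommGroup M] [DistribMulAction G M] in
/-- The cocycles of a valid code differ by a coboundary at the bad places. -/
theorem cmp_hom_bad (hS : S.Ok) (hc : cd.Ok) (hg : S.good = Set.range cd.pl)
    (h : Cmp p p' dir) {v : Pl} (hv : v ∉ S.good) {c : cd.CodeN J} (hcv : cd.ValidN p c) :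
    ∃ u, S.loc v (cd.homN p c) - S.loc v (cd.homN p' c) = S.cob v u := by
  rw [hg] at hv
  refine loc_homN_sub _ fun l => ?_
  by_cases hl : ∃ i', dir i' = l
  · obtain ⟨i', rfl⟩ := hl
    obtain ⟨z, hz⟩ := (hc.kf_bad _ _ (h.kf i') v hv).2 (c.2 (dir i')) (hcv _)
    exact ⟨z, Prod.ext (hz _ (hS.sg_mem v)) (hz _ (hS.phi_mem v))⟩
  · push Not at hl
    refine ⟨0, ?_⟩
    rw [h.off l hl, sub_self]
    refine Prod.ext ?_ ?_
    · change (0 : V1) = S.ac _ 0 - 0
      rw [map_zero, sub_zero]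
    · change (0 : V1) = S.ac _ 0 - 0
      rw [map_zero, sub_zero]

omit [AddCommGroup M] [DistribMulAction G M] in
/-- The pure local elements are the same. -/
theorem cmp_isLoc (hc : cd.Ok) (hg : S.good = Set.range cd.pl) (h : Cmp p p' dir)
    (w : Pl → V) : IsLoc S (cd.chiN p) w ↔ IsLoc S (cd.chiN p') w := by
  have key : ∀ v, v ∉ S.good → ∀ s ∈ S.D v,
      dl (cd.chiN p) (w v) s = dl (cd.chiN p') (w v) s := by
    intro v hv s hs'
    rw [dl, dl, tw, tw, cmp_chi_bad hc hg h hv s hs']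
  constructor
  · rintro ⟨h1, h2⟩
    exact ⟨h1, fun v hv s hs' => by rw [← key v hv s hs']; exact h2 v hv s hs'⟩
  · rintro ⟨h1, h2⟩
    exact ⟨h1, fun v hv s hs' => by rw [key v hv s hs']; exact h2 v hv s hs'⟩

omit [AddCommGroup M] [DistribMulAction G M] in
theorem cmp_valid (h : Cmp p p' dir) (c : cd.CodeN J) : cd.ValidN p' c ↔ cd.ValidN p c :=
  ⟨fun hc' => h.symm.valid hc', fun hc' => h.valid hc'⟩

omit [AddCommGroup M] [DistribMulAction G M] in
theorem cmp_SelpN (hS : S.Ok) (hc : cd.Ok) (h : Cmp p p' dir) : cd.SelpN p' = cd.SelpN p :=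
  Set.Subset.antisymm (fun _ hc' => Cmp.mem_SelpN hS hc h.symm hc')
    (fun _ hc' => Cmp.mem_SelpN hS hc h hc')

end bad

/-! ### The rigid tower -/

/-- The pure local elements. -/
def plN (S : Sys G V V1 Pl) (chi : G → ZMod 2) : AddSubgroup (Pl → V) where
  carrier := {w | IsLoc S chi w}
  zero_mem' := ⟨fun _ _ => rfl, fun v _ s _ => by rw [Pi.zero_apply, dl_zero]⟩
  add_mem' := fun {a b} ha hb => ⟨fun v hv => by rw [Pi.add_apply, ha.1 v hv, hb.1 v hv, add_zero],
    fun v hv s hs => by rw [Pi.add_apply, dl_add, ha.2 v hv s hs, hb.2 v hv s hs, add_zero]⟩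
  neg_mem' := fun {a} ha => ⟨fun v hv => by rw [Pi.neg_apply, ha.1 v hv, neg_zero],
    fun v hv s hs => by rw [Pi.neg_apply, dl_neg, ha.2 v hv s hs, neg_zero]⟩

omit [AddCommGroup M] [DistribMulAction G M] in
theorem mem_plN {chi : G → ZMod 2} {w : Pl → V} : w ∈ plN S chi ↔ IsLoc S chi w := Iff.rfl

/-- The valid codes of the relaxed Selmer group. -/
def selU (p : J → cd.Mk) (U : Submodule (ZMod 2) (cd.CodeN J)) : Set U :=
  {b | b.1 ∈ cd.SelpN p}

/-- The rigid tower of the twist by the vector `p`. -/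
noncomputable def rtN (hS : S.Ok) (H : HData V M Pl) (cd : CData S X) (hc : cd.Ok)
    (p : J → cd.Mk) (U : Submodule (ZMod 2) (cd.CodeN J)) (hU : ∀ c, c ∈ U ↔ cd.ValidN p c) :
    RT U V (Pl → V) (G → V) M where
  Z i := RS S hS (cd.chiN p) i
  t := torHom S (cd.chiN p)
  c := (twN cd hS hc p U hU).c
  P y b := CTr S (cd.chiN p) y (cd.homN p b.1)
  q i y := q S H (cd.chiN p) i y

section rtN

variable (hS : S.Ok) (hc : cd.Ok) {U : Submodule (ZMod 2) (cd.CodeN J)}
  (hU : ∀ c, c ∈ U ↔ cd.ValidN p c)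

theorem rtN_Z (i : ℕ) (y : (G → V) × (Pl → V)) :
    y ∈ (rtN hS H cd hc p U hU).Z i ↔ IsPr S (cd.chiN p) i y := Iff.rfl

theorem rtN_t (z : V) : (rtN hS H cd hc p U hU).t z = tor S (cd.chiN p) z := rfl

theorem rtN_c (a : U) :
    (rtN hS H cd hc p U hU).c a = fun s => S.iota (cd.homN p a.1 s) := rfl

/-- The facts for one twist. -/
theorem rtN_ok (hB : BadOk S) (hg : S.good = Set.range cd.pl) (hp : cd.PVecN p) :
    (rtN hS H cd hc p U hU).Ok (selU p U) (plN S (cd.chiN p)) := by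
  have hchi := CData.chiN_hom hS hc p
  have hR : ∀ {b : U}, b ∈ selU p U → IsRel S (cd.chiN p) (cd.homN p b.1) :=
    fun {b} hb => (isRel_homN_iff hS hc hg ((hU _).1 b.2)).mpr hb
  refine ⟨fun y => ?_, fun i => RS_mono hS _ (Nat.le_succ i), fun i y hy => ?_,
    fun i j y hy h0 => ?_, fun i z hz => ?_, hS.half, fun i y hy h2 => ?_,
    fun i y hy y' hy' b hb => ?_, fun i z _ b hb => ?_, fun i y hy b hb => ?_,
    fun i y hy h0 => ?_⟩
  · constructor
    · intro hy
      have hy' : IsPr S (cd.chiN p) 0 y := hy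
      have h1 : y.1 = 0 := by
        funext s
        have := hy'.sel.lev s
        rwa [pow_zero, one_smul] at this
      refine ⟨h1, fun v hv => hy'.off v hv, fun v hv s hs => ?_⟩
      rw [← hy'.loc v hv s hs, h1, Pi.zero_apply]
    · rintro ⟨h1, h2⟩
      have h3 : IsLoc S (cd.chiN p) y.2 := h2
      refine ⟨?_, fun v hv s hs => ?_, h3.1⟩
      · rw [h1]
        exact Sys.IsSel.zero hS _ _
      · rw [h1, Pi.zero_apply, h3.2 v hv s hs]
  · funext s
    exact (show IsPr S (cd.chiN p) i y from hy).sel.lev s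
  · exact IsPr.of_lev (show IsPr S (cd.chiN p) j y from hy) fun s => congrFun h0 s
  · exact isPr_tor' hS hchi fun s => congrFun hz s
  · -- the codes
    have hy' : IsPr S (cd.chiN p) i y := hy
    have h3 : ∀ s, (2 : ℕ) • y.1 s = 0 := fun s => congrFun h2 s
    have h4 : y.1 = fun s => S.iota (S.un (y.1 s)) := funext fun s => (Sys.iota_un hS (h3 s)).symm
    have h5 : S.IsSel (cd.chiN p) 1 (fun s => S.iota (S.un (y.1 s))) := by
      rw [← h4]
      exact hy'.sel.of_lev fun s => by rw [pow_one]; exact h3 s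
    obtain ⟨a, ha0, ha⟩ := exists_code_of_isRel hS hc hg hp
      (isRel_of_isSel1 (Sys.isSel1_of hS h5))
    refine ⟨⟨a, (hU a).2 ha0.1⟩, ?_⟩
    rw [rtN_c, ha]
    exact h4
  · exact CTr_add_left hS hchi (show IsPr S (cd.chiN p) i y from hy)
      (show IsPr S (cd.chiN p) i y' from hy') (hR hb)
  · exact CTr_tor hS hchi z (hR hb)
  · exact CTr_two hS hchi (show IsPr S (cd.chiN p) (i + 1) y from hy) (hR hb)
  · refine (ctr_crit hS hB hchi (show IsPr S (cd.chiN p) i y from hy)).mpr fun b hb => ?_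
    obtain ⟨c, hc1, rfl⟩ := exists_code_of_isRel hS hc hg hp hb
    exact h0 ⟨c, (hU c).2 hc1.1⟩ hc1

/-- `t z ∈ Z j` iff `2 ^ j z = 0`. -/
theorem rtN_tmem (j : ℕ) (z : V) :
    (rtN hS H cd hc p U hU).t z ∈ (rtN hS H cd hc p U hU).Z j ↔ (2 : ℕ) ^ j • z = 0 := by
  constructor
  · intro h1
    have h2 : IsPr S (cd.chiN p) j (tor S (cd.chiN p) z) := h1
    refine eq_zero_of_dl hS hc.nofix (chi := cd.chiN p) fun s => ?_
    rw [dl_nsmul]
    exact h2.sel.lev s
  · intro h1
    exact isPr_tor hS (CData.chiN_hom hS hc p) h1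

/-- The codes of the torsion elements. -/
theorem rtN_kz (hp : cd.PVecN p) (z : V) (a : U) :
    (rtN hS H cd hc p U hU).c a = ((rtN hS H cd hc p U hU).t z).1 ↔
      ∃ w, z = S.iota w ∧ a.1 = cd.kapN J w := by
  constructor
  · intro h1
    have h1' : (fun s => S.iota (cd.homN p a.1 s)) = dl (cd.chiN p) z := h1
    have h2 : (2 : ℕ) • z = 0 := by
      refine eq_zero_of_dl hS hc.nofix (chi := cd.chiN p) fun s => ?_
      rw [dl_nsmul, ← congrFun h1' s]
      exact Sys.two_iota S _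
    obtain ⟨w, hw⟩ := hS.iota_range _ h2
    refine ⟨w, hw.symm, homN_inj hc hp ((hU _).1 a.2) (valid_kap p w)
      (funext fun s => hS.iota_inj ?_)⟩
    rw [homN_kap hc, ← Sys.dl_iota hS (cd.chiN p), hw]
    exact congrFun h1' s
  · rintro ⟨w, rfl, h2⟩
    have h3 : (fun s => S.iota (cd.homN p a.1 s)) = dl (cd.chiN p) (S.iota w) :=
      funext fun s => by rw [h2, homN_kap hc, Sys.dl_iota hS]
    exact h3

include hS hc in
/-- The pairing of a pure local element. -/
private theorem GenV_CTr_loc (hg : S.good = Set.range cd.pl) (h : Cmp p p' dir) {w : Pl → V}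
    (hw : IsLoc S (cd.chiN p) w) {b : cd.CodeN J} (hb : b ∈ cd.SelpN p) :
    CTr S (cd.chiN p') (0, w) (cd.homN p' b) = CTr S (cd.chiN p) (0, w) (cd.homN p b) := by
  classical
  have hchi := CData.chiN_hom hS hc p
  have hchi' := CData.chiN_hom hS hc p'
  have hw' : IsLoc S (cd.chiN p') w := (cmp_isLoc hc hg h w).mp hw
  have hb' : b ∈ cd.SelpN p' := by rw [cmp_SelpN hS hc h]; exact hb
  choose hf hhf using hS.half
  let Q : Pl → V := fun v => if v ∈ S.good then 0 else hf (w v)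
  have hQ : ∀ chi : G → ZMod 2, IsLoc S chi w → RLift S chi ((0 : G → V), w) 0 Q := by
    intro chi hl
    refine ⟨⟨⟨⊤, hS.top_mem, fun _ _ _ => rfl⟩, fun s t => ?_, fun s => ?_, fun v s hs' => ?_⟩,
      fun v hv => ?_⟩
    · change (0 : V) = 0 + tw chi s 0
      rw [tw_zero, add_zero]
    · exact smul_zero _
    · change (0 : V) = (2 : ℕ) • dl chi (if v ∈ S.good then 0 else hf (w v)) s
      split_ifs with hv
      · rw [dl_zero, smul_zero]
      · rw [← dl_nsmul, hhf, hl.2 v hv s hs']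
    · change (2 : ℕ) • (if v ∈ S.good then 0 else hf (w v)) = w v
      rw [if_neg hv, hhf]
  have hR := (isRel_homN_iff hS hc hg hb.1).mpr hb
  have hR' := (isRel_homN_iff hS hc hg hb'.1).mpr hb'
  rw [CTr_of_rlift hS hchi' (hQ _ hw') hR', CTr_of_rlift hS hchi (hQ _ hw) hR]
  refine finsum_congr fun v => ?_
  by_cases hv : v ∈ S.good
  · have h1 : ∀ chi : G → ZMod 2, S.xi chi (0 : G → V) Q v = 0 := by
      intro chi
      have h2 : Q v = 0 := if_pos hv
      rw [Sys.xi, h2, dl_zero, dl_zero, Pi.zero_apply, Pi.zero_apply, sub_zero, Sys.un_zero hS]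
      rfl
    rw [h1, h1, map_zero, LinearMap.zero_apply, LinearMap.zero_apply]
  · have h1 : S.xi (cd.chiN p') (0 : G → V) Q v = S.xi (cd.chiN p) (0 : G → V) Q v := by
      rw [Sys.xi, Sys.xi]
      have h2 : ∀ s ∈ S.D v, dl (cd.chiN p') (Q v) s = dl (cd.chiN p) (Q v) s := by
        intro s hs'
        rw [dl, dl, tw, tw, cmp_chi_bad hc hg h hv s hs']
      rw [h2 _ (hS.sg_mem v), h2 _ (hS.phi_mem v)]
    obtain ⟨u, hu⟩ := cmp_hom_bad hS hc hg h hv hb.1
    rw [h1, ← sub_eq_zero, ← map_sub, ← neg_sub (S.loc v (cd.homN p b)), hu, map_neg,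
      hS.sy_cob v _ ((hQ _ hw).1.xi_CP hS hchi v), neg_zero]

/-- Vectors of one block with the same symbols have the same torsion data. -/
theorem rtN_same (hg : S.good = Set.range cd.pl) (h : Cmp p p' dir)
    (hU' : ∀ c, c ∈ U ↔ cd.ValidN p' c) :
    RT.Same (rtN hS H cd hc p U hU) (rtN hS H cd hc p' U hU') (selU p U)
      (plN S (cd.chiN p)) := by
  refine ⟨fun z a => ?_, fun a => ?_, fun w hw b hb => ?_⟩
  · rw [rtN_kz hS hc hU h.vec, rtN_kz hS hc hU' h.vec']
  · have key : ∀ q : J → cd.Mk, ∀ hq : ∀ c, c ∈ U ↔ cd.ValidN q c,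
        ((∃ m ∈ (rtN hS H cd hc q U hq).Z 1, m.1 = (rtN hS H cd hc q U hq).c a) ↔
          a.1 ∈ cd.FN q) := by
      intro q hq
      constructor
      · rintro ⟨m, hm, hma⟩
        have h1 : IsPr S (cd.chiN q) 1 m := hm
        have h2 := h1.sel
        rw [hma] at h2
        exact ⟨(hq _).1 a.2, Sys.isSel1_of hS h2⟩
      · intro ha
        obtain ⟨y, h1, h2⟩ := exists_rigid (Sys.isSel_iota hS (CData.chiN_hom hS hc q) ha.2)
        exact ⟨y, h1, h2⟩
    rw [key p' hU', key p hU, h.FN_eq hS hc]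
  · exact GenV_CTr_loc hS hc hg h hw hb

end rtN

end Pool.Agent.SmNH
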