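import Pool.Agent.Lib.SmNH.StmtI
import Pool.Agent.Lib.SmN.I.TypeN

/-!
# HEIGHTS over SMITH-U, block I: adapted bases over a vector of marked primes

`BasH` = the common part of `SuppN` (theorem A) and `SuppT` (theorem T). `AdpH cc jl` : `cc` is a basis
of `FN` modulo the coboundaries, adapted to the flag, `jl l` is the maximal level of `cc l` (at most
`m`). `exists_bas`: the subfamily of the codes in `FN`, with `cc 0 = a`.
-/

set_option autoImplicit false

open Finset

namespace Pool.Agent.SmNH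

open Pool.Agent.Sm (Tower Adapted)
open Pool.Agent.SmN Pool.Agent.SmN.IT Pool.Agent.SmN.CData

variable {G V V1 Pl M : Type} [Group G] [AddCommGroup V] [DistribMulAction G V]
  [AddCommGroup V1] [Module (ZMod 2) V1] [AddCommGroup M] [DistribMulAction G M]
  {S : Sys G V V1 Pl} {X : PSys} {cd : CData S X}
  {J : Type} [Fintype J] {m : ℕ} {p : J → cd.Mk} {dir : Dir m ↪ J}

/-- A basis with supports: the common part of `SuppN` and `SuppT`. -/
structure BasH (cd : CData S X) {J : Type} (F : Set (cd.CodeN J)) (L : ℕ → Set (cd.CodeN J))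
    (m : ℕ) (a : cd.CodeN J) (dir : Dir m ↪ J) where
  r : ℕ
  c : Fin r → cd.CodeN J
  l1 : Fin r
  e : V1
  c_l1 : c l1 = a
  mem : ∀ l, c l ∈ F
  indep : ∀ (α : Fin r → ZMod 2) (z : V1), ∑ l, α l • c l = cd.kapN J z → α = 0
  adapted : ∀ i, 1 ≤ i → i ≤ m → ∀ x ∈ L i, ∃ (α : Fin r → ZMod 2) (z : V1),
    x = cd.kapN J z + ∑ l, α l • c l ∧ ∀ l, α l ≠ 0 → c l ∈ L i
  sg : Fin r → Finset (Dir m)
  sg_card : ∀ l, (sg l).card ≤ 1
  sg_l1 : sg l1 = {some none}
  sg_supp : ∀ l i, i ∉ sg l → (c l).2 (dir i) = 0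
  suppa : a.2 (dir (some none)) = e

omit [Fintype J] in
/-- The basis of theorem A. -/
def BasH.ofSupp {F : Set (cd.CodeN J)} {L : ℕ → Set (cd.CodeN J)}
    {a b : cd.CodeN J} (su : cd.SuppN F L m a b dir) : BasH cd F L m a dir where
  r := su.r
  c := su.c
  l1 := su.l1
  e := su.e
  c_l1 := su.c_l1
  mem := su.mem
  indep := su.indep
  adapted := su.adapted
  sg l := if l = su.l1 then {some none} else if l = su.l0 then {none} else ∅
  sg_card l := by
    split_ifs
    · exact (card_singleton _).le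
    · exact (card_singleton _).le
    · exact (card_empty).le.trans (Nat.zero_le 1)
  sg_l1 := if_pos rfl
  sg_supp l i hi := by
    rcases i with _ | _ | i
    · rw [su.suppb, if_neg]
      intro hl
      have hl0 : l ≠ su.l1 := fun h => su.ne (hl.symm.trans h)
      rw [if_neg hl0, if_pos hl] at hi
      exact hi (mem_singleton_self _)
    · rw [su.suppa, if_neg]
      intro hl
      rw [if_pos hl] at hi
      exact hi (mem_singleton_self _)
    · exact su.supp0 _ i
  suppa := by
    have h := su.suppa su.l1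
    rw [if_pos rfl, su.c_l1] at h
    exact h

omit [Fintype J] in
/-- The basis of theorem T. -/
def BasH.ofSuppT {F : Set (cd.CodeN J)} {L : ℕ → Set (cd.CodeN J)} {a w : cd.CodeN J}
    (su : SuppT cd F L m a w dir) : BasH cd F L m a dir where
  r := su.r
  c := su.c
  l1 := su.l1
  e := su.e
  c_l1 := su.c_l1
  mem := su.mem
  indep := su.indep
  adapted := su.adapted
  sg l := if l = su.l1 then {some none} else ∅
  sg_card l := by
    split_ifs
    · exact (card_singleton _).le
    · exact (card_empty).le.trans (Nat.zero_le 1)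
  sg_l1 := if_pos rfl
  sg_supp l i hi := by
    rcases i with _ | _ | i
    · exact su.suppb l
    · rw [su.suppa, if_neg]
      intro hl
      rw [if_pos hl] at hi
      exact hi (mem_singleton_self _)
    · exact su.supp0 _ i
  suppa := by
    have h := su.suppa su.l1
    rw [if_pos rfl, su.c_l1] at h
    exact h

/-- `cc` is a basis of `FN` modulo the coboundaries, adapted to the flag, `jl l` the maximal level
of `cc l`. -/
structure AdpH (cd : CData S X) (hS : S.Ok) (hc : cd.Ok) (p : J → cd.Mk) (m : ℕ) {n : ℕ}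
    (cc : Fin (n + 1) → cd.VF p) (jl : Fin (n + 1) → ℕ) : Prop where
  adp : Adapted (twN cd hS hc p (cd.VF p) (hUp p)).Fs (twN cd hS hc p (cd.VF p) (hUp p)).L
    (twN cd hS hc p (cd.VF p) (hUp p)).Kp m cc
  pos : ∀ l, 1 ≤ jl l
  le : ∀ l, jl l ≤ m
  mem : ∀ l, cc l ∈ (twN cd hS hc p (cd.VF p) (hUp p)).L (jl l)
  max : ∀ l, jl l < m → cc l ∉ (twN cd hS hc p (cd.VF p) (hUp p)).L (jl l + 1)
  zero : jl 0 = m

/-- The subfamily of the basis which lies in `FN`. -/
theorem exists_bas [Nonempty J] (hS : S.Ok) (hc : cd.Ok) (hp : cd.PVecN p) (hm : 1 ≤ m)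
    (hF : cd.FN p ⊆ cd.SelpN p) {a : cd.CodeN J}
    (su : BasH cd (cd.SelpN p) (LH cd p) m a dir) (ha : a ∈ LH cd p m) :
    ∃ (n : ℕ) (cc : Fin (n + 1) → cd.VF p) (jl : Fin (n + 1) → ℕ)
      (sig : Fin (n + 1) → Finset (Dir m)), 2 ^ (n + 1) ≤ Nat.card (cd.SelpN p) ∧
      AdpH cd hS hc p m cc jl ∧ (cc 0).1 = a ∧ (∀ l, (cc l).1 ∈ cd.FN p) ∧
      (∀ l, (sig l).card ≤ 1) ∧ sig 0 = {some none} ∧
      ∀ l i, i ∉ sig l → (cc l).1.2 (dir i) = 0 := by
  classical
  have haF : a ∈ cd.FN p := LflN_sub_FN hS hc (hUp p) hp hm ha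
  set I : Type := {l : Fin su.r // su.c l ∈ cd.FN p} with hI
  have hl1 : su.c su.l1 ∈ cd.FN p := by
    rw [su.c_l1]
    exact haF
  let i1 : I := ⟨su.l1, hl1⟩
  obtain ⟨n, hn⟩ : ∃ n, n + 1 = Fintype.card I := ⟨Fintype.card I - 1, by
    have : 0 < Fintype.card I := Fintype.card_pos_iff.2 ⟨i1⟩
    omega⟩
  obtain ⟨e, he⟩ : ∃ e : Fin (n + 1) ≃ I, e 0 = i1 := by
    have e0 : Fin (n + 1) ≃ I := (Fintype.equivFinOfCardEq hn.symm).symm
    exact ⟨e0.trans (Equiv.swap (e0 0) i1), by
      rw [Equiv.trans_apply, Equiv.swap_apply_left]⟩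
  let cc : Fin (n + 1) → cd.VF p := fun l => ⟨su.c (e l).1, FN_le (hUp p) (e l).2⟩
  -- extension of coefficients by zero
  let ext : (Fin (n + 1) → ZMod 2) → Fin su.r → ZMod 2 := fun x l =>
    if h : su.c l ∈ cd.FN p then x (e.symm ⟨l, h⟩) else 0
  have hext : ∀ x l, ext x (e l).1 = x l := by
    intro x l
    change (if h : su.c (e l).1 ∈ cd.FN p then x (e.symm ⟨(e l).1, h⟩) else 0) = x l
    rw [dif_pos (e l).2]
    congr 1
    exact e.symm_apply_apply l
  have hsumI : ∀ F : Fin su.r → cd.CodeN J, (∀ l, su.c l ∉ cd.FN p → F l = 0) →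
      ∑ l, F l = ∑ l : Fin (n + 1), F (e l).1 := by
    intro F hF0
    have h1 : ∑ l : Fin (n + 1), F (e l).1 = ∑ i : I, F i.1 := Equiv.sum_comp e (fun i => F i.1)
    have h2 : ∑ i : I, F i.1 = ∑ l ∈ univ.filter (fun l => su.c l ∈ cd.FN p), F l :=
      (Finset.sum_subtype (univ.filter fun l => su.c l ∈ cd.FN p) (by simp) F).symm
    rw [h1, h2, sum_filter]
    refine sum_congr rfl fun l _ => ?_
    split_ifs with hl
    · rfl
    · exact hF0 l hl
  have hsum : ∀ x : Fin (n + 1) → ZMod 2,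
      ((∑ l, x l • cc l : cd.VF p) : cd.CodeN J) = ∑ l, ext x l • su.c l := by
    intro x
    rw [sum_coe, hsumI (fun l => ext x l • su.c l)]
    · exact sum_congr rfl fun l _ => by rw [hext]
    · intro l hl
      have : ext x l = 0 := dif_neg hl
      rw [this, zero_smul]
  have hcc : ∀ l, (cc l).1 ∈ cd.FN p := fun l => (e l).2
  have hadp : Adapted (twN cd hS hc p (cd.VF p) (hUp p)).Fs
      (twN cd hS hc p (cd.VF p) (hUp p)).L (twN cd hS hc p (cd.VF p) (hUp p)).Kp m cc := by
    refine ⟨fun l => (mem_twN_Fs hS hc (hUp p) _).2 (hcc l), fun x hx => ?_, fun b hb => ?_,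
      fun j hj hjm x hx i hi => ?_⟩
    · obtain ⟨w, hw⟩ := (mem_twN_Kp hS hc (hUp p) hp _).1 hx
      rw [hsum] at hw
      have h1 := su.indep _ w hw
      funext l
      rw [← hext x l, h1]
      rfl
    · have hb' := (mem_twN_Fs hS hc (hUp p) b).1 hb
      obtain ⟨α, w, hw, hα⟩ := su.adapted 1 le_rfl hm b.1 hb'
      refine ⟨fun l => α (e l).1, (mem_twN_Kp hS hc (hUp p) hp _).2 ⟨w, ?_⟩⟩
      have h1 : ((∑ l, α (e l).1 • cc l : cd.VF p) : cd.CodeN J) = ∑ l, α l • su.c l := by
        rw [sum_coe, hsumI (fun l => α l • su.c l)]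
        intro l hl
        have h2 : α l = 0 := by
          by_contra h3
          exact hl (hα l h3)
        rw [h2, zero_smul]
      rw [AddSubgroupClass.coe_sub, h1, hw, add_sub_cancel_right]
    · have h1 : ∑ l, ext x l • su.c l ∈ LH cd p j := by
        rw [← hsum]
        exact (mem_LflN_iff_tw hS hc (hUp p) hp hj _).2 hx
      obtain ⟨α, w, hw, hα⟩ := su.adapted j hj hjm _ h1
      have h2 : ∑ l, (ext x l - α l) • su.c l = cd.kapN J w := by
        simp only [sub_smul, sum_sub_distrib]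
        rw [hw, add_sub_cancel_right]
      have h3 := congrFun (su.indep (fun l => ext x l - α l) w h2) (e i).1
      have h4 : x i = α (e i).1 := by
        have h5 : ext x (e i).1 - α (e i).1 = 0 := h3
        rw [hext] at h5
        exact sub_eq_zero.1 h5
      rw [← mem_LflN_iff_tw hS hc (hUp p) hp hj]
      exact hα _ (h4 ▸ hi)
  obtain ⟨jl, f, h1, h2, h3, h4, -, h6⟩ := Tower.exists_jl (twN_ok hS hc (hUp p) hp) hm
    (cc := cc) hadp.mem
  have hcc0 : (cc 0).1 = a := by
    change su.c (e 0).1 = a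
    rw [he]
    exact su.c_l1
  refine ⟨n, cc, jl, fun l => su.sg (e l).1, ?_, ⟨hadp, h1, h2, h3, h4, ?_⟩, hcc0, hcc,
    fun l => su.sg_card _, ?_, fun l i hi => su.sg_supp _ i hi⟩
  · -- the number of elements
    have := hS.fin1
    let g : (Fin (n + 1) → ZMod 2) → cd.SelpN p := fun x => ⟨(∑ l, x l • cc l : cd.VF p).1, by
      apply hF
      rw [← mem_twN_Fs hS hc (hUp p)]
      exact Submodule.sum_mem _ fun l _ => Submodule.smul_mem _ _
        ((mem_twN_Fs hS hc (hUp p) _).2 (hcc l))⟩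
    have hg : Function.Injective g := by
      intro x y hxy
      have e1 : (∑ l, x l • cc l : cd.VF p) = ∑ l, y l • cc l :=
        Subtype.ext (congrArg (fun z => z.1) hxy)
      have e0 : (∑ l, (x l - y l) • cc l : cd.VF p) = 0 := by
        apply Subtype.ext
        have e4 := congrArg Subtype.val e1
        rw [sum_coe, sum_coe] at e4
        rw [sum_coe]
        simp only [sub_smul, sum_sub_distrib]
        rw [e4, sub_self]
        rfl
      have e2 : ∑ l, (x l - y l) • cc l ∈ (twN cd hS hc p (cd.VF p) (hUp p)).Kp := by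
        rw [e0]
        exact Submodule.zero_mem _
      have e3 := hadp.indep (fun l => x l - y l) e2
      funext l
      exact sub_eq_zero.1 (congrFun e3 l)
    have h1 := Nat.card_le_card_of_injective g hg
    rwa [Nat.card_fun, Nat.card_zmod, Nat.card_eq_fintype_card, Fintype.card_fin] at h1
  · apply h6
    rw [← mem_LflN_iff_tw hS hc (hUp p) hp hm, hcc0]
    exact ha
  · change su.sg (e 0).1 = _
    rw [he]
    exact su.sg_l1

/-! ### rigid towers -/

/-- Every Selmer cocycle is the first component of a rigid one. -/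
theorem exists_rigid {chi : G → ZMod 2} {i : ℕ} {Psi : G → V} (h : S.IsSel chi i Psi) :
    ∃ y, IsPr S chi i y ∧ y.1 = Psi := by
  classical
  choose Q hQ using h.loc
  refine ⟨(Psi, fun v => if v ∈ S.good then 0 else Q v), ⟨h, fun v hv s hs => ?_, fun v hv => ?_⟩,
    rfl⟩
  · change Psi s = dl chi (if v ∈ S.good then 0 else Q v) s
    rw [if_neg hv]
    exact hQ v s hs
  · exact if_pos hv

/-- There is a rigid Selmer element of level `i` above `a ∈ LH i`. -/
theorem exists_abvH (hS : S.Ok) (hc : cd.Ok) (hp : cd.PVecN p) {i : ℕ} (hi : 1 ≤ i)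
    {a : cd.CodeN J} (ha : a ∈ LH cd p i) : ∃ y, AbvH cd p i a y := by
  have haF : a ∈ cd.FN p := LflN_sub_FN hS hc (hUp p) hp hi ha
  obtain ⟨Psi, h1, h2⟩ := (mem_LflN_iff hS hc (hUp p) hp hi
    ⟨a, FN_le (hUp p) haF⟩).1 ha
  obtain ⟨y, hy, rfl⟩ := exists_rigid h1
  exact ⟨y, hy, h2, haF.1⟩

end Pool.Agent.SmNH
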