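import Pool.Agent.Lib.SmNH.I.Claim0
import Pool.Agent.Lib.SmNH.H.TopR

/-!
# SmNH, block I5: the values of level `k` at the last vertex (Theorem T)
(port of `Lib/SmH/I/ZVal.lean`)

`good_valT`: if all the towers and all the codes of the relaxed frame are supported in the direction
`ia`, then the values of the rigid pairing are transported to the last vertex for all levels `≤ k`.
The torsion classes over SMITH-U are coboundaries, so they are not supported at the directions.
-/

set_option autoImplicit false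

open Finset

namespace Pool.Agent.SmNH.IC

open Pool.Agent.SmN Pool.Agent.SmN.IT Pool.Agent.SmA

variable {G V V1 Pl M : Type*} [Group G] [AddCommGroup V] [DistribMulAction G V]
  [AddCommGroup V1] [Module (ZMod 2) V1] [AddCommGroup M] [DistribMulAction G M]
variable {S : Sys G V V1 Pl} {H : HData V M Pl}
variable {ι : Type*} [Fintype ι] [DecidableEq ι] {X : ι → Type*} {r k kk : ℕ} {Γ : Grid S X}
  {τ : TwH G V V1 Pl M ι r} {x0 x : ∀ i, X i}

/-- The differences of a code vanish at the directions where it is not supported. -/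
theorem dbe_zero (hΓ : Γ.Ok) {w : ι → V1} {i : ι} (hi : w i = 0) (s : G) :
    Γ.dbe w x0 x i s = 0 := by
  unfold Grid.dbe
  rw [hi, Grid.be_zero hΓ, Grid.be_zero hΓ, add_zero]

/-- Values of the rigid pairing at the last vertex, all levels `≤ k` (Z3). -/
theorem good_valT (hS : S.Ok) (hΓ : Γ.Ok) (hτ : τ.Ok Γ k) (hk : 1 ≤ k)
    (hI : Fintype.card ι = k + 2) (h : τ.GoodH H Γ k kk x0 x) (l : Fin (r + 1))
    (hl : τ.jl l < kk) {ia : ι} (hsig : τ.sig l ⊆ {ia}) {d : GCode G V1 ι} (hd : d ∈ FR Γ)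
    (hdv : ∀ i, i ≠ ia → d.2 i = 0) :
    CTr S (Γ.chi x) (lst τ H Γ k kk x0 x l univ) (Γ.ch d x) = τ.fl l d := by
  have hC := good_cubeOk hS hΓ (by omega) h
  have hlev := good_last hS hΓ hτ hk hI h l
  have hpr := good_pr hS hΓ hτ hk hI h l
  have hval : ∀ T : Finset ι, T ≠ univ → CTr S (Γ.chi (mix T x0 x)) (lst τ H Γ k kk x0 x l T)
      (Γ.ch d (mix T x0 x)) = τ.fl l d := fun T hT => by
    rw [lst_of_ne h l hT]
    exact (good_fam h l hT).val hl d hd
  have hz3 := z3_CTr (hS.conj (Γ.cg x0 x)) hC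
    (Grid.betOk hS hΓ d.2 (good_symOk (by omega) h)) (good_star hS hΓ hτ hk hI h l)
    (fun T => (conj_pr hS hΓ x0 x T _ _).2 (hpr T))
    (fun v _ T T' => congrFun (lst_snd l T T') v)
    (by have := hτ.jl_le l; omega) ia (fun U hU P hUP a ha s => by
      refine mn_pow (W := univ) (σ := τ.sig l) (j := τ.jl l)
        (fun P _ s => (hlev.1 P).lev s) (fun U P _ _ h2 h3 h4 h5 => hlev.2 U P h2 h3 h4 h5)
        (subset_univ U) (subset_univ P) hUP ?_ ha s
      refine Disjoint.mono_right hsig ?_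
      rwa [disjoint_singleton_right])
    (Γ.ch d x0) (fun i hi s => dbe_zero hΓ (hdv i hi) s)
    (fun T => good_b hS hΓ (by omega) h hd _ T)
  rw [sum_congr rfl fun T _ => conj_ctr hS hΓ (by omega) h hd (hpr T),
    ← add_sum_erase _ _ (mem_univ (univ : Finset ι)),
    sum_congr rfl (fun T hT => hval T (ne_of_mem_erase hT)), sum_const,
    card_erase_of_mem (mem_univ _), card_univ, Fintype.card_finset, hI, Grid.mix_univ] at hz3
  have hodd : (2 ^ (k + 2) - 1) • τ.fl l d = τ.fl l d := by
    have h1 : 2 ^ (k + 2) - 1 = 2 * (2 ^ (k + 1) - 1) + 1 := by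
      have h2 : 2 ^ (k + 2) = 2 * 2 ^ (k + 1) := by rw [← pow_succ']
      have h3 : 1 ≤ 2 ^ (k + 1) := Nat.one_le_two_pow
      omega
    rw [h1, add_smul, one_smul, mul_smul, two_smul, CharTwo.add_self_eq_zero, zero_add]
  rw [hodd] at hz3
  exact CharTwo.add_eq_zero.1 hz3

end Pool.Agent.SmNH.IC
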